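import Pool.Agent.Lib.MP_658dbf_an_X.Defs

/-!
# MP_658dbf_an, project X: the kernel, Abel sums
-/

set_option autoImplicit false

namespace Pool.Agent.MP658x

open Finset
open Pool.Agent.MP658dbf (kap tl wh)

variable {κ T : ℕ → ℝ}

theorem Ker.anti' (hK : Ker κ T) {m n : ℕ} (hm : 1 ≤ m) (hmn : m ≤ n) : κ n ≤ κ m := by
  induction n, hmn using Nat.le_induction with
  | base => exact le_rfl
  | succ n hn ih => exact (hK.anti n (hm.trans hn)).trans ih

/-- `∑_{j ≤ N} α_j D_j ≤ ∑ α_j j = ∑_{j ≤ N} κ_j - N κ_{N+1} ≤ T_1`, `α_j = κ_j - κ_{j+1} ≥ 0` -/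
theorem abel1 (hK : Ker κ T) (N : ℕ) (D : ℕ → ℝ) (h : ∀ j, 1 ≤ j → D j ≤ j) :
    ∑ j ∈ Icc 1 N, (κ j - κ (j + 1)) * D j ≤ T 1 := by
  have key : ∑ j ∈ Icc 1 N, (κ j - κ (j + 1)) * D j ≤ T 1 - T (N + 1) - N * κ (N + 1) := by
    induction N with
    | zero => simp
    | succ N ih =>
      rw [sum_Icc_succ_top (by omega)]
      have h1 := h (N + 1) (by omega)
      have h2 := hK.anti (N + 1) (by omega)
      have h3 := hK.trec (N + 1)
      have h4 := mul_le_mul_of_nonneg_left h1 (sub_nonneg.2 h2)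
      push_cast at h4 ⊢
      linarith
  have h1 := hK.tnonneg (N + 1)
  have h2 : 0 ≤ (N : ℝ) * κ (N + 1) := mul_nonneg (Nat.cast_nonneg _) (hK.nonneg _)
  linarith

/-- `∑ α_j D_j ≤ α_1 + 2 ∑_{2 ≤ j ≤ N} α_j ≤ κ_1 + κ_2` -/
theorem abel2 (hK : Ker κ T) (N : ℕ) (D : ℕ → ℝ) (h : ∀ j, 1 ≤ j → D j ≤ j)
    (h2 : ∀ j, 1 ≤ j → D j ≤ 2) :
    ∑ j ∈ Icc 1 N, (κ j - κ (j + 1)) * D j ≤ κ 1 + κ 2 := by
  have h01 := hK.nonneg 1
  have h02 := hK.nonneg 2
  cases N with
  | zero =>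
    simp only [Nat.lt_one_iff, pos_of_gt, Icc_eq_empty_of_lt, sum_empty]
    linarith
  | succ N =>
    have key : ∑ j ∈ Icc 1 (N + 1), (κ j - κ (j + 1)) * D j ≤ κ 1 + κ 2 - 2 * κ (N + 2) := by
      induction N with
      | zero =>
        have h1 := h 1 le_rfl
        have h3 := hK.anti 1 le_rfl
        have h4 := mul_le_mul_of_nonneg_left h1 (sub_nonneg.2 h3)
        simp only [zero_add, Icc_self, sum_singleton]
        push_cast at h4
        norm_num at h4 ⊢
        linarith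
      | succ N ih =>
        rw [sum_Icc_succ_top (by omega)]
        have h1 := h2 (N + 1 + 1) (by omega)
        have h3 := hK.anti (N + 1 + 1) (by omega)
        have h4 := mul_le_mul_of_nonneg_left h1 (sub_nonneg.2 h3)
        have e1 : N + 2 = N + 1 + 1 := rfl
        have e2 : N + 1 + 2 = N + 1 + 1 + 1 := rfl
        rw [e1] at ih
        rw [e2]
        linarith
    have h3 := hK.nonneg (N + 2)
    linarith

/-- if `D j ≤ 1` always and `D j ≤ 0` for `j ≥ d`, the sum is at most `κ_1 - κ_d` -/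
theorem abel3 (hK : Ker κ T) (N d : ℕ) (hd : 1 ≤ d) (D : ℕ → ℝ) (h : ∀ j, 1 ≤ j → D j ≤ 1)
    (h2 : ∀ j, d ≤ j → D j ≤ 0) :
    ∑ j ∈ Icc 1 N, (κ j - κ (j + 1)) * D j ≤ κ 1 - κ d := by
  have key : ∑ j ∈ Icc 1 N, (κ j - κ (j + 1)) * D j ≤ κ 1 - κ (min (N + 1) d) := by
    induction N with
    | zero =>
      have e : min (0 + 1) d = 1 := by omega
      rw [e]
      simp
    | succ N ih =>
      rw [sum_Icc_succ_top (by omega)]
      have h3 := hK.anti (N + 1) (by omega)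
      rcases lt_or_ge (N + 1) d with hlt | hge
      · have e1 : min (N + 1) d = N + 1 := by omega
        have e2 : min (N + 1 + 1) d = N + 1 + 1 := by omega
        rw [e1] at ih
        rw [e2]
        have h1 := h (N + 1) (by omega)
        have h4 := mul_le_mul_of_nonneg_left h1 (sub_nonneg.2 h3)
        linarith
      · have e1 : min (N + 1) d = d := by omega
        have e2 : min (N + 1 + 1) d = d := by omega
        rw [e1] at ih
        rw [e2]
        have h1 := h2 (N + 1) hge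
        have h4 := mul_le_mul_of_nonneg_left h1 (sub_nonneg.2 h3)
        linarith
  have h1 : κ d ≤ κ (min (N + 1) d) := hK.anti' (by omega) (min_le_right _ _)
  linarith

theorem ker_kap {μ : ℝ} (hμ : 0 < μ) (hμ1 : μ ≤ 1) : Ker (kap μ) (tl μ) where
  nonneg := Pool.Agent.MP658dbf.kap_nonneg hμ hμ1
  anti := Pool.Agent.MP658dbf.kap_anti hμ hμ1
  trec := Pool.Agent.MP658dbf.tl_rec hμ
  tnonneg := Pool.Agent.MP658dbf.tl_nonneg hμ hμ1

private theorem kap_spos {μ : ℝ} (hμ : 0 < μ) (hμ1 : μ < 1) {n : ℕ} (hn : 1 ≤ n) :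
    0 < kap μ n := by
  induction n, hn using Nat.le_induction with
  | base =>
    have h := Pool.Agent.MP658dbf.kap_one hμ
    have h1 : 0 < μ * wh μ 0 := mul_pos hμ (Pool.Agent.MP658dbf.wh_zero_pos hμ)
    rw [← h] at h1
    exact Pool.Agent.MP658dbf.pos_of_mul_pos_left' h1 (by linarith)
  | succ n hn ih =>
    have h := Pool.Agent.MP658dbf.kap_rec hμ (by omega : n ≠ 0)
    have hn1 : (1:ℝ) ≤ n := by exact_mod_cast hn
    have h1 : 0 < ((n:ℝ) - μ) * kap μ n := mul_pos (by linarith) ih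
    rw [← h] at h1
    exact Pool.Agent.MP658dbf.pos_of_mul_pos_left' h1 (by linarith)

/-- for `0 < μ < 1` the kernel is strictly decreasing and positive (`kap_one`, `kap_rec`) -/
theorem kap_strict {μ : ℝ} (hμ : 0 < μ) (hμ1 : μ < 1) {n : ℕ} (hn : 1 ≤ n) :
    0 < kap μ n ∧ kap μ (n + 1) < kap μ n := by
  have h0 := kap_spos hμ hμ1 hn
  refine ⟨h0, ?_⟩
  have h := Pool.Agent.MP658dbf.kap_rec hμ (by omega : n ≠ 0)
  have hn1 : (1:ℝ) ≤ n := by exact_mod_cast hn
  have hp : (0:ℝ) < n + 1 + μ := by linarith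
  have h2 : ((n : ℝ) + 1 + μ) * kap μ (n + 1) < ((n : ℝ) + 1 + μ) * kap μ n := by
    rw [h]
    exact mul_lt_mul_of_pos_right (by linarith) h0
  exact lt_of_mul_lt_mul_left h2 hp.le

/-- for `0 < μ < 1` the tail sums are positive -/
theorem tl_strict {μ : ℝ} (hμ : 0 < μ) (hμ1 : μ < 1) (n : ℕ) : 0 < tl μ n := by
  unfold tl
  split_ifs with h0
  · have := kap_spos hμ hμ1 (le_refl 1)
    positivity
  · have := kap_spos hμ hμ1 (by omega : 1 ≤ n)
    positivity

end Pool.Agent.MP658x
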