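import Pool.Agent.Lib.MP_658dbf_an_X.ChBasic

/-!
# MP_658dbf_an, project X: chains and total variation
-/

set_option autoImplicit false

namespace Pool.Agent.MP658x

open Finset

variable {f : ℤ → ℤ} {N n : ℕ} {s x y : ℤ}

theorem tel (h : x ≤ y) : ∑ z ∈ Ioc x y, Dl f z = f y - f x := by
  induction y, h using Int.le_induction with
  | base => simp
  | succ y hy ih =>
    have h1 : Ioc x (y + 1) = insert (y + 1) (Ioc x y) := by
      ext z
      simp only [mem_Ioc, mem_insert]
      omega
    rw [h1, sum_insert (by simp), ih, Dl]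
    have h2 : y + 1 - 1 = y := by ring
    rw [h2]
    ring

theorem tel_abs (h : x ≤ y) : |f y - f x| ≤ ∑ z ∈ Ioc x y, |Dl f z| := by
  rw [← tel h]
  exact abs_sum_le_sum_abs _ _

theorem exists_rise (h : x ≤ y) (h2 : s * f x < s * f y) : ∃ z, x < z ∧ z ≤ y ∧ 0 < s * Dl f z := by
  by_contra hcon
  push Not at hcon
  have h1 : s * f y - s * f x = ∑ z ∈ Ioc x y, s * Dl f z := by
    rw [← mul_sum, tel h]
    ring
  have h3 : ∑ z ∈ Ioc x y, s * Dl f z ≤ 0 := by
    refine sum_nonpos fun z hz => ?_
    rw [mem_Ioc] at hz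
    exact hcon z hz.1 hz.2
  linarith

private theorem split_sum {g : ℤ → ℤ} {a b c : ℤ} (hab : a ≤ b) (hbc : b ≤ c) :
    ∑ z ∈ Ioc a c, g z = ∑ z ∈ Ioc a b, g z + ∑ z ∈ Ioc b c, g z := by
  rw [← Ioc_union_Ioc_eq_Ioc hab hbc, sum_union]
  rw [disjoint_left]
  intro z hz hz2
  rw [mem_Ioc] at hz hz2
  omega

private theorem sn_abs (hs : Sn s) {u : ℤ} (hu : 0 < s * u) : |u| = s * u := by
  rcases hs with rfl | rfl
  · rw [one_mul] at hu ⊢
    exact abs_of_pos hu
  · rw [neg_one_mul] at hu ⊢
    exact abs_of_neg (by omega)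

private theorem sn_abs' (hs : Sn s) {u : ℤ} : s * u ≤ |u| := by
  rcases hs with rfl | rfl
  · rw [one_mul]
    exact le_abs_self u
  · rw [neg_one_mul]
    exact neg_le_abs u

private theorem sn_step (hs : Sn s) {u v : ℤ} (hu : 0 < s * u) (hv : 0 < -s * v) :
    |u| + |v| ≤ |u - v| := by
  have h1 := sn_abs hs hu
  have h2 := sn_abs (Sn_neg hs) hv
  have h3 : s * (u - v) ≤ |u - v| := sn_abs' hs
  have h4 : s * (u - v) = s * u + -s * v := by ring
  omega

/-- Induction on `n`, generalizing `s x`. Case `n = 0`: `tel_abs` on `(-1, x]` (`f (-1) = 0`). Step: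
the top point `y ≤ x` of sign `s`, the next point `y' < y` of sign `-s`; induction hypothesis at
`(y', -s)`; then `tel_abs` on `(y', y]` and `(y, x]`. -/
theorem tv_left (hf : ∀ z < 0, f z = 0) (hs : Sn s) (h : Ch f (n + 1) s x) (hx : 0 ≤ s * f x) :
    2 * (n : ℤ) + |f x| ≤ ∑ z ∈ Ioc (-1) x, |Dl f z| := by
  clear hx
  have hpos : ∀ {t u : ℤ}, 0 < t * f u → 0 ≤ u := by
    intro t u ht
    by_contra hu
    rw [hf u (by omega), mul_zero] at ht
    exact lt_irrefl _ ht
  induction n generalizing s x with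
  | zero =>
    obtain ⟨y, hyx, hy, -⟩ := h
    have h0 := hpos hy
    have h1 := tel_abs (f := f) (x := -1) (y := x) (by omega)
    rw [hf (-1) (by omega), sub_zero] at h1
    simpa using h1
  | succ n ih =>
    obtain ⟨y, hyx, hy, y', hy'y, hy', hc⟩ := h
    have h0 := hpos hy'
    have hch : Ch f (n + 1) (-s) y' := ⟨y', le_refl _, hy', hc⟩
    have h1 := ih (Sn_neg hs) hch
    have h2 := tel_abs (f := f) (x := y') (y := y) (by omega)
    have h3 := tel_abs (f := f) hyx
    have h4 := sn_step hs hy hy'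
    have h5 := split_sum (g := fun z => |Dl f z|) (a := -1) (b := y') (c := y) (by omega) (by omega)
    have h6 := split_sum (g := fun z => |Dl f z|) (a := -1) (b := y) (c := x) (by omega) (by omega)
    have h7 := sn_abs (Sn_neg hs) hy'
    have h8 : |f x| ≤ |f x - f y| + |f y| := by
      have := abs_add_le (f x - f y) (f y)
      simpa using this
    push_cast
    omega

/-- The mirror image (not exactly symmetric: `f N = 0`). Induction on `n`: the first point `y ≥ x` of
sign `s`, the next `y' > y` of sign `-s`; `tel_abs` on `(x, y]`, `(y, y']`, hypothesis at `y'`; case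
`n = 0`: `tel_abs` on `(x, y]` and `(y, N]`. -/
theorem tv_right (hf : Sup N f) (hs : Sn s) (h : ChR f (n + 1) s x) (hx : 0 ≤ s * f x) :
    2 * (n : ℤ) + |f x| ≤ ∑ z ∈ Ioc x N, |Dl f z| := by
  clear hx
  have hpos : ∀ {t u : ℤ}, 0 < t * f u → u < N := by
    intro t u ht
    by_contra hu
    rw [hf u (Or.inr (by omega)), mul_zero] at ht
    exact lt_irrefl _ ht
  induction n generalizing s x with
  | zero =>
    obtain ⟨y, hyx, hy, -⟩ := h
    have h0 := hpos hy
    have h1 := tel_abs (f := f) (x := x) (y := N) (by omega)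
    rw [hf N (Or.inr le_rfl), zero_sub, abs_neg] at h1
    simpa using h1
  | succ n ih =>
    obtain ⟨y, hyx, hy, y', hy'y, hy', hc⟩ := h
    have h0 := hpos hy'
    have hch : ChR f (n + 1) (-s) y' := ⟨y', le_refl _, hy', hc⟩
    have h1 := ih (Sn_neg hs) hch
    have h2 := tel_abs (f := f) (x := y) (y := y') (by omega)
    have h3 := tel_abs (f := f) hyx
    have h4 := sn_step hs hy hy'
    have h5 := split_sum (g := fun z => |Dl f z|) (a := x) (b := y) (c := y') (by omega) (by omega)
    have h6 := split_sum (g := fun z => |Dl f z|) (a := x) (b := y') (c := N) (by omega) (by omega)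
    have h7 := sn_abs (Sn_neg hs) hy'
    have h8 : |f x| ≤ |f y - f x| + |f y| := by
      have := abs_add_le (f x - f y) (f y)
      rw [abs_sub_comm (f y) (f x)]
      simpa using this
    rw [abs_sub_comm] at h4
    push_cast
    omega

/-- `tv_left` at the top point `y` and `tel_abs` on `(y, N]` -/
theorem tv_total (hf : Sup N f) (hs : Sn s) (h : Ch f n s x) : 2 * (n : ℤ) ≤ TV N f := by
  unfold TV
  cases n with
  | zero =>
    simp only [Nat.cast_zero, mul_zero]
    exact sum_nonneg fun z _ => abs_nonneg _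
  | succ n =>
    obtain ⟨y, hyx, hy, hc⟩ := h
    have hch : Ch f (n + 1) s y := ⟨y, le_refl _, hy, hc⟩
    have h1 := tv_left (fun z hz => hf z (Or.inl hz)) hs hch hy.le
    have h0 : 0 ≤ y := by
      by_contra hu
      rw [hf y (Or.inl (by omega)), mul_zero] at hy
      exact lt_irrefl _ hy
    have hN : y < N := by
      by_contra hu
      rw [hf y (Or.inr (by omega)), mul_zero] at hy
      exact lt_irrefl _ hy
    have h2 := tel_abs (f := f) (x := y) (y := N) (by omega)
    rw [hf N (Or.inr le_rfl), zero_sub, abs_neg] at h2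
    have h5 := split_sum (g := fun z => |Dl f z|) (a := -1) (b := y) (c := N) (by omega) (by omega)
    have h7 := sn_abs hs hy
    push_cast
    omega

end Pool.Agent.MP658x
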