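import Pool.Agent.Lib.MP_658dbf_an_X.EDiff
import Pool.Agent.Lib.MP_658dbf_an_X.KerFacts
import Pool.Agent.Lib.MP_658dbf_an_X.TVar

/-!
# MP_658dbf_an, project X: energy of `Q = Dl S` for `|S| ≤ 1`
-/

set_option autoImplicit false

namespace Pool.Agent.MP658x

open Finset

variable {κ T : ℕ → ℝ} {N k d : ℕ} {S : ℤ → ℤ} {σ x : ℤ}

private theorem Base_le (hK : Ker κ T) (M : ℕ) (D : ℕ → ℝ) (h : ∀ j, 1 ≤ j → D j ≤ 1) :
    ∑ j ∈ Icc 1 M, (κ j - κ (j + 1)) * D j ≤ κ 1 := by
  have h2 := abel3 hK M (M + 1) (by omega) (fun j => if j ≤ M then D j else 0) ?_ ?_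
  · have h3 : ∑ j ∈ Icc 1 M, (κ j - κ (j + 1)) * (fun j => if j ≤ M then D j else 0) j =
        ∑ j ∈ Icc 1 M, (κ j - κ (j + 1)) * D j := by
      refine sum_congr rfl fun j hj => ?_
      rw [mem_Icc] at hj
      simp only [hj.2, if_true]
    rw [h3] at h2
    have h4 := hK.nonneg (M + 1)
    linarith
  · intro j hj
    show (if j ≤ M then D j else 0) ≤ 1
    split_ifs
    · exact h j hj
    · exact zero_le_one
  · intro j hj
    show (if j ≤ M then D j else 0) ≤ 0
    rw [if_neg (by omega)]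

/-- `V = ∑ |Q|`. `E_half` and `past_abel` (`M = N + 1`, `Q = Dl S`): the term of `n` is `w Q_n ^ 2 - 2 Q_n
(κ_1 S_{n-1} - ∑ α_j S_{n-1-j})`. If `Q_n ≠ 0` and `S_{n-1} ≠ 0` then `S_n = 0`, `Q_n = -S_{n-1}` and
`Q_n (..) ≤ -κ_1 + (κ_1 - κ_d)` (`abel3`, `S_{n-1-j} = 0` for `j ≥ d`). If `Q_n ≠ 0` and `S_{n-1} = 0`:
`Q_n (..) ≤ κ_1`, and `= 0` for the first `n` with `Q_n ≠ 0`. So the term of `n` is `≥ w |Q_n| -
κ_1 (|Q_n| + |S_n| - |S_{n-1}|)`, plus `2 κ_1` for the first `n`, plus `2 κ_d` for an `n` of the first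
kind (one exists); sum over `n`, `∑ (|S_n| - |S_{n-1}|) = 0`. -/
theorem base_energy (hK : Ker κ T) (hS : Sup N S) (h1 : ∀ n, |S n| ≤ 1)
    (hl : ∀ n, |Dl S n| ≤ 1) (hne : ∃ n, S n ≠ 0) (hd : 1 ≤ d)
    (hdiam : ∀ a b : ℤ, S a ≠ 0 → S b ≠ 0 → b - a < d) :
    2 * T 1 * (TV N S : ℝ) - κ 1 * ((TV N S : ℝ) - 2) + 2 * κ d ≤
      E κ (2 * T 1) (N + 1) (Dl S) := by
  classical
  -- the first and the last point of the support
  obtain ⟨J, hJ⟩ : ∃ J : Finset ℤ, J = (Ico (0 : ℤ) N).filter (fun n => S n ≠ 0) := ⟨_, rfl⟩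
  have hJm : ∀ n, n ∈ J ↔ S n ≠ 0 := by
    intro n
    rw [hJ, mem_filter, mem_Ico]
    constructor
    · exact fun h => h.2
    · intro h
      refine ⟨⟨?_, ?_⟩, h⟩
      · by_contra hc
        exact h (hS n (Or.inl (by omega)))
      · by_contra hc
        exact h (hS n (Or.inr (by omega)))
  have hJne : J.Nonempty := by
    obtain ⟨n, hn⟩ := hne
    exact ⟨n, (hJm n).2 hn⟩
  obtain ⟨n0, hn0⟩ : ∃ n0, n0 = J.min' hJne := ⟨_, rfl⟩
  obtain ⟨n1, hn1⟩ : ∃ n1, n1 = J.max' hJne := ⟨_, rfl⟩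
  have hn0J : S n0 ≠ 0 := by rw [← hJm, hn0]; exact J.min'_mem hJne
  have hn1J : S n1 ≠ 0 := by rw [← hJm, hn1]; exact J.max'_mem hJne
  have hlo : ∀ m, m < n0 → S m = 0 := by
    intro m hm
    by_contra hc
    have := J.min'_le m ((hJm m).2 hc)
    omega
  have hhi : ∀ m, n1 < m → S m = 0 := by
    intro m hm
    by_contra hc
    have := J.le_max' m ((hJm m).2 hc)
    omega
  have hrange : ∀ n, S n ≠ 0 → 0 ≤ n ∧ n < N := by
    intro n hn
    constructor
    · by_contra hc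
      exact hn (hS n (Or.inl (by omega)))
    · by_contra hc
      exact hn (hS n (Or.inr (by omega)))
  -- the energy
  have hQ : Sup (N + 1) (Dl S) := by
    intro n hn
    unfold Dl
    rcases hn with hn | hn
    · rw [hS n (Or.inl hn), hS (n - 1) (Or.inl (by omega)), sub_zero]
    · push_cast at hn
      rw [hS n (Or.inr (by omega)), hS (n - 1) (Or.inr (by omega)), sub_zero]
  rw [E_half hQ]
  have hval : ∀ n, S n = 0 ∨ S n = 1 ∨ S n = -1 := by
    intro n
    have h := h1 n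
    rw [abs_le] at h
    omega
  have hvalR : ∀ n, |(S n : ℝ)| ≤ 1 := by
    intro n
    have h := h1 n
    have : ((|S n| : ℤ) : ℝ) ≤ 1 := by exact_mod_cast h
    rwa [Int.cast_abs] at this
  have hprod : ∀ (a b : ℤ) , |(a : ℝ)| ≤ 1 → (a : ℝ) * S b ≤ 1 := by
    intro a b ha
    have h2 := abs_mul (a : ℝ) (S b)
    have h3 : |(a : ℝ)| * |(S b : ℝ)| ≤ 1 * 1 :=
      mul_le_mul ha (hvalR b) (abs_nonneg _) zero_le_one
    have h4 := le_abs_self ((a : ℝ) * S b)
    linarith
  have hκ1 := hK.nonneg 1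
  have hκd := hK.nonneg d
  -- the bound of one term
  have hterm : ∀ n ∈ Ico (0 : ℤ) ((N + 1 : ℕ) : ℤ),
      2 * T 1 * |(Dl S n : ℝ)| - κ 1 * |(Dl S n : ℝ)| - κ 1 * (|(S n : ℝ)| - |(S (n - 1) : ℝ)|) +
        ((if n = n0 then 2 * κ 1 else 0) + if n = n1 + 1 then 2 * κ d else 0) ≤
      2 * T 1 * (Dl S n : ℝ) ^ 2 - 2 * (Dl S n : ℝ) *
        ∑ j ∈ Icc 1 (N + 1), κ j * (Dl S (n - j) : ℝ) := by
    intro n hn
    rw [mem_Ico] at hn
    rw [past_abel hS (M := N + 1) (n := n) (by have := hn.2; omega)]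
    obtain ⟨A, hA⟩ : ∃ A, A = ∑ j ∈ Icc 1 (N + 1),
      (κ j - κ (j + 1)) * (S (n - 1 - j) : ℝ) := ⟨_, rfl⟩
    rw [← hA]
    have hDl : Dl S n = S n - S (n - 1) := rfl
    have hDlR : (Dl S n : ℝ) = (S n : ℝ) - S (n - 1) := by rw [hDl]; push_cast; ring
    by_cases hp : S (n - 1) = 0
    · have hnn1 : n ≠ n1 + 1 := by
        rintro rfl
        apply hn1J
        have : n1 + 1 - 1 = n1 := by ring
        rwa [this] at hp
      rw [if_neg hnn1]
      by_cases hc : S n = 0
      · -- both vanish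
        have hnn0 : n ≠ n0 := by
          rintro rfl
          exact hn0J hc
        rw [if_neg hnn0, hDlR, hc, hp]
        simp
      · have habs : |(S n : ℝ)| = 1 := by
          rcases hval n with h | h | h
          · exact absurd h hc
          · rw [h]; simp
          · rw [h]; simp
        have hsq : (S n : ℝ) ^ 2 = 1 := by
          rw [← sq_abs, habs]; norm_num
        rw [hDlR, hp]
        simp only [Int.cast_zero, sub_zero, mul_zero, zero_sub, abs_zero, add_zero]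
        rw [habs, hsq]
        by_cases hnn0 : n = n0
        · -- the first point
          have hA0 : A = 0 := by
            rw [hA]
            apply sum_eq_zero
            intro j hj
            rw [hlo (n - 1 - j) (by omega)]
            simp
          rw [if_pos hnn0, hA0]
          linarith
        · rw [if_neg hnn0]
          have hb := Base_le hK (N + 1) (fun j => -(S n : ℝ) * S (n - 1 - j)) (fun j _ => by
            have h2 : |(((-S n : ℤ)) : ℝ)| ≤ 1 := by
              push_cast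
              rw [abs_neg]
              exact hvalR n
            have h3 := hprod (-S n) (n - 1 - j) h2
            push_cast at h3
            exact h3)
          have h3 : ∑ j ∈ Icc 1 (N + 1), (κ j - κ (j + 1)) * (-(S n : ℝ) * S (n - 1 - j)) =
              -(S n : ℝ) * A := by
            rw [hA, mul_sum]
            exact sum_congr rfl fun j _ => by ring
          rw [h3] at hb
          nlinarith
    · have hnn0 : n ≠ n0 := by
        rintro rfl
        exact hp (hlo (n - 1) (by omega))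
      rw [if_neg hnn0]
      by_cases hq : S n = S (n - 1)
      · have hnn1 : n ≠ n1 + 1 := by
          rintro rfl
          rw [← hq] at hp
          exact hp (hhi (n1 + 1) (by omega))
        rw [if_neg hnn1, hDlR, hq]
        simp
      · have hSn : S n = 0 := by
          have h2 := hl n
          rw [hDl, abs_le] at h2
          have h3 := hval n
          have h4 := hval (n - 1)
          omega
        have habs : |(S (n - 1) : ℝ)| = 1 := by
          rcases hval (n - 1) with h | h | h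
          · exact absurd h hp
          · rw [h]; simp
          · rw [h]; simp
        have hsq : (S (n - 1) : ℝ) ^ 2 = 1 := by
          rw [← sq_abs, habs]; norm_num
        have hb := abel3 hK (N + 1) d hd (fun j => (S (n - 1) : ℝ) * S (n - 1 - j))
          (fun j _ => hprod _ _ (hvalR _)) (fun j hj => by
            have h2 : S (n - 1 - j) = 0 := by
              by_contra hc
              have h3 := hdiam (n - 1 - j) (n - 1) hc hp
              omega
            show (S (n - 1) : ℝ) * S (n - 1 - j) ≤ 0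
            rw [h2]
            simp)
        have h3 : ∑ j ∈ Icc 1 (N + 1), (κ j - κ (j + 1)) *
            ((S (n - 1) : ℝ) * S (n - 1 - j)) = (S (n - 1) : ℝ) * A := by
          rw [hA, mul_sum]
          exact sum_congr rfl fun j _ => by ring
        rw [h3] at hb
        have h5 : (if n = n1 + 1 then 2 * κ d else 0) ≤ 2 * κ d := by
          split_ifs
          · exact le_rfl
          · linarith
        rw [hDlR, hSn]
        simp only [Int.cast_zero, zero_sub, abs_neg, abs_zero]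
        rw [habs]
        have e : 2 * T 1 * (-(S (n - 1) : ℝ)) ^ 2 - 2 * -(S (n - 1) : ℝ) *
            (κ 1 * (S (n - 1) : ℝ) - A) =
            2 * T 1 + 2 * κ 1 - 2 * ((S (n - 1) : ℝ) * A) := by
          linear_combination (2 * T 1 + 2 * κ 1) * hsq
        rw [e]
        linarith
  -- the sum of the bounds
  refine le_trans (le_of_eq ?_) (sum_le_sum hterm)
  have hIoc : Ioc (-1 : ℤ) N = Ico (0 : ℤ) ((N + 1 : ℕ) : ℤ) := by
    ext z
    rw [mem_Ioc, mem_Ico]
    push_cast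
    omega
  have hTV : (TV N S : ℝ) = ∑ n ∈ Ico (0 : ℤ) ((N + 1 : ℕ) : ℤ), |(Dl S n : ℝ)| := by
    unfold TV
    rw [hIoc]
    push_cast
    rfl
  have htel : ∑ n ∈ Ico (0 : ℤ) ((N + 1 : ℕ) : ℤ), (|(S n : ℝ)| - |(S (n - 1) : ℝ)|) = 0 := by
    have h2 := tel (f := fun n => |S n|) (x := -1) (y := N) (by omega)
    rw [hIoc] at h2
    simp only [Dl] at h2
    rw [hS N (Or.inr le_rfl), hS (-1) (Or.inl (by omega))] at h2
    have h3 : ((∑ z ∈ Ico (0 : ℤ) ((N + 1 : ℕ) : ℤ), (|S z| - |S (z - 1)|) : ℤ) : ℝ) =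
        ((|(0 : ℤ)| - |(0 : ℤ)| : ℤ) : ℝ) := by rw [h2]
    push_cast at h3
    simpa using h3
  have hn0r := hrange n0 hn0J
  have hn1r := hrange n1 hn1J
  have hs0 : ∑ n ∈ Ico (0 : ℤ) ((N + 1 : ℕ) : ℤ), (if n = n0 then 2 * κ 1 else 0) =
      2 * κ 1 := by
    rw [sum_ite_eq', if_pos]
    rw [mem_Ico]
    push_cast
    omega
  have hs1 : ∑ n ∈ Ico (0 : ℤ) ((N + 1 : ℕ) : ℤ), (if n = n1 + 1 then 2 * κ d else 0) =
      2 * κ d := by
    rw [sum_ite_eq', if_pos]
    rw [mem_Ico]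
    push_cast
    omega
  rw [sum_add_distrib, sum_sub_distrib, sum_sub_distrib, sum_add_distrib, hs0, hs1, ← mul_sum,
    ← mul_sum, ← mul_sum, htel, ← hTV]
  ring

/-- `tv_total`: `2 k ≤ V`, `κ_1 ≤ T_1` -/
theorem base_k (hK : Ker κ T) (hS : Sup N S) (h1 : ∀ n, |S n| ≤ 1)
    (hl : ∀ n, |Dl S n| ≤ 1) (hk : 1 ≤ k) (hσ : Sn σ) (hc : Ch S k σ x) (hd : 1 ≤ d)
    (hdiam : ∀ a b : ℤ, S a ≠ 0 → S b ≠ 0 → b - a < d) :
    Bd κ T k + 2 * κ d ≤ E κ (2 * T 1) (N + 1) (Dl S) := by
  have hne : ∃ n, S n ≠ 0 := by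
    obtain ⟨m, rfl⟩ : ∃ m, k = m + 1 := ⟨k - 1, by omega⟩
    obtain ⟨y, -, hy, -⟩ := hc
    exact ⟨y, fun h => by rw [h, mul_zero] at hy; exact lt_irrefl _ hy⟩
  have h2 := base_energy hK hS h1 hl hne hd hdiam
  have h3 := tv_total hS hσ hc
  have h4 : 2 * (k : ℝ) ≤ (TV N S : ℝ) := by exact_mod_cast h3
  have h5 := hK.trec 1
  have h6 := hK.tnonneg (1 + 1)
  have h7 := hK.nonneg 1
  have h8 : 0 ≤ 2 * T 1 - κ 1 := by linarith
  have h9 := mul_le_mul_of_nonneg_left h4 h8
  unfold Bd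
  linarith

end Pool.Agent.MP658x
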