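import Pool.Agent.Lib.MP_658dbf_an_X.Defs
import Pool.Agent.Lib.MP_658dbf_an_X.TVar

/-!
# MP_658dbf_an, project X: the block pattern to the right of a point
-/

set_option autoImplicit false

namespace Pool.Agent.MP658x

open Finset

variable {N k : ℕ} {S : ℤ → ℤ} {σ x δ : ℤ}

/-- After a block of sign `σ` that ends at `n` (`S (n - 1) = σ`, `S n = 0`) the next value is `-σ`, or
`S` vanishes from `n` on. Let `m > n` be the least point with `S m ≠ 0`. `S m = σ` contradicts `Uni S`
(`a = n - 1`, `c = n`, `b = m`, `S = 0` in between). `S m = -σ` and `m > n + 1`: `Q n = Q m = -σ` and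
`Q = 0` in between contradicts `Uni (Dl S)` (`s = -σ`, `a = n`, `c = n + 1`, `b = m`). -/
theorem next_block (hS : Sup N S) (h1 : ∀ n, |S n| ≤ 1) (hl : ∀ n, |Dl S n| ≤ 1) (hU : Uni S)
    (hUQ : Uni (Dl S)) {n τ : ℤ} (hτ : Sn τ) (h2 : S (n - 1) = τ) (h3 : S n = 0) :
    S (n + 1) = -τ ∨ ∀ z, n ≤ z → S z = 0 := by
  by_contra hcon
  push Not at hcon
  obtain ⟨hne, z0, hz0, hz0'⟩ := hcon
  obtain ⟨m, ⟨hm1, hm2⟩, hmin⟩ := Int.exists_least_of_bdd (P := fun z => n ≤ z ∧ S z ≠ 0)
    ⟨n, fun z hz => hz.1⟩ ⟨z0, hz0, hz0'⟩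
  have hzero : ∀ z, n ≤ z → z < m → S z = 0 := by
    intro z hz hzm
    by_contra hc
    have := hmin z ⟨hz, hc⟩
    omega
  have hmn : n < m := by
    rcases lt_or_eq_of_le hm1 with h | h
    · exact h
    · exact absurd (h ▸ h3) hm2
  have habs := abs_le.1 (h1 m)
  have hτ2 : τ * τ = 1 := by
    rcases hτ with h | h <;> rw [h] <;> norm_num
  have hcase : S m = τ ∨ S m = -τ := by
    rcases hτ with h | h <;> rw [h] <;> omega
  rcases hcase with hm | hm
  · obtain ⟨z, hz1, hz2, hz3⟩ := hU τ (n - 1) n m hτ (by omega) hmn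
      (by rw [h3, h2, hτ2]; norm_num) (by rw [h3, hm, hτ2]; norm_num)
    rw [hzero z (by omega) hz2] at hz3
    norm_num at hz3
  · have hm1' : m ≠ n + 1 := by
      intro h
      exact hne (h ▸ hm)
    have hs : Sn (-τ) := by
      rcases hτ with h | h
      · right
        rw [h]
      · left
        rw [h]
        norm_num
    have e1 : Dl S n = -τ := by
      unfold Dl
      rw [h3, h2]
      ring
    have e2 : Dl S (n + 1) = 0 := by
      unfold Dl
      rw [hzero (n + 1) (by omega) (by omega), add_sub_cancel_right, h3]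
      norm_num
    have e3 : Dl S m = -τ := by
      unfold Dl
      rw [hm, hzero (m - 1) (by omega) (by omega)]
      ring
    obtain ⟨z, hz1, hz2, hz3⟩ := hUQ (-τ) n (n + 1) m hs (by omega) (by omega)
      (by rw [e1, e2]; nlinarith) (by rw [e2, e3]; nlinarith)
    have e4 : Dl S z = 0 := by
      unfold Dl
      rw [hzero z (by omega) hz2, hzero (z - 1) (by omega) (by omega)]
      norm_num
    rw [e4] at hz3
    norm_num at hz3

theorem BlocksA_mono {m : ℕ} {y : ℕ → ℤ} (h : ∀ i < m, y i + 2 ≤ y (i + 1)) :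
    ∀ i, i ≤ m → y 0 ≤ y i := by
  intro i
  induction i with
  | zero =>
    intro _
    exact le_rfl
  | succ i ih =>
    intro hi
    have h1 := ih (by omega)
    have h2 := h i (by omega)
    omega

theorem BlocksA_blk_zero {m : ℕ} {y : ℕ → ℤ} (h : ∀ i < m, y i + 2 ≤ y (i + 1)) {n : ℤ}
    (hn : n ≤ y 0) (δ : ℤ) : blk δ y m n = 0 := by
  unfold blk
  refine Finset.sum_eq_zero fun i hi => ?_
  rw [Finset.mem_range] at hi
  have h1 := BlocksA_mono h i hi.le
  rw [if_neg]
  rintro ⟨h2, _⟩
  omega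

theorem BlocksA_blk_succ (δ : ℤ) (y : ℕ → ℤ) (m : ℕ) (n : ℤ) :
    blk δ y (m + 1) n = (if y 0 < n ∧ n < y 1 then δ else 0) +
      blk (-δ) (fun i => y (i + 1)) m n := by
  unfold blk
  rw [Finset.sum_range_succ', add_comm]
  congr 1
  · rw [pow_zero, mul_one]
  · refine Finset.sum_congr rfl fun i _ => ?_
    rw [pow_succ]
    congr 1
    ring

theorem BlocksA_aux (hS : Sup N S) (h1 : ∀ n, |S n| ≤ 1) (hl : ∀ n, |Dl S n| ≤ 1) (hU : Uni S)
    (hUQ : Uni (Dl S)) : ∀ (k : ℕ) (c δ : ℤ), (N : ℤ) - c ≤ k → Sn δ → S c = 0 → S (c + 1) = δ →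
    ∃ (m : ℕ) (y : ℕ → ℤ), 1 ≤ m ∧ y 0 = c ∧ (∀ i < m, y i + 2 ≤ y (i + 1)) ∧ y m ≤ N ∧
      ∀ n, c ≤ n → S n = blk δ y m n := by
  intro k
  induction k with
  | zero =>
    intro c δ hc hδ _ h3
    exfalso
    have h4 := hS (c + 1) (Or.inr (by push_cast at hc; omega))
    rw [h4] at h3
    rcases hδ with h | h <;> omega
  | succ k ih =>
    intro c δ hc hδ h2 h3
    have hδ0 : δ ≠ 0 := by
      rcases hδ with h | h <;> omega
    have hcN : c + 1 < N := by
      by_contra hcon
      have h4 := hS (c + 1) (Or.inr (by omega))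
      exact hδ0 (h3.symm.trans h4)
    obtain ⟨y1, ⟨hy1, hy2⟩, hmin⟩ := Int.exists_least_of_bdd (P := fun z => c < z ∧ S z = 0)
      ⟨c, fun z hz => hz.1.le⟩ ⟨N, by omega, hS N (Or.inr le_rfl)⟩
    have hy1N : y1 ≤ N := hmin N ⟨by omega, hS N (Or.inr le_rfl)⟩
    have hyc : c + 2 ≤ y1 := by
      by_contra hcon
      have h4 : y1 = c + 1 := by omega
      rw [h4, h3] at hy2
      exact hδ0 hy2
    have hne : ∀ z, c < z → z < y1 → S z ≠ 0 := by
      intro z hz hz1 hz2
      have := hmin z ⟨hz, hz2⟩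
      omega
    have hcst : ∀ j : ℕ, c + 1 + j < y1 → S (c + 1 + j) = δ := by
      intro j
      induction j with
      | zero =>
        intro _
        rw [Nat.cast_zero, add_zero]
        exact h3
      | succ j ihj =>
        intro hj
        have e1 := ihj (by push_cast at hj; omega)
        have e2 := hne (c + 1 + ((j + 1 : ℕ) : ℤ)) (by omega) hj
        have e3 := abs_le.1 (h1 (c + 1 + ((j + 1 : ℕ) : ℤ)))
        have e4 := abs_le.1 (hl (c + 1 + ((j + 1 : ℕ) : ℤ)))
        unfold Dl at e4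
        have e5 : c + 1 + ((j + 1 : ℕ) : ℤ) - 1 = c + 1 + (j : ℤ) := by
          push_cast
          ring
        rw [e5, e1] at e4
        rcases hδ with h | h <;> omega
    have hval : ∀ z, c < z → z < y1 → S z = δ := by
      intro z hz hz1
      have e1 := hcst (z - c - 1).toNat (by omega)
      have e2 : c + 1 + ((z - c - 1).toNat : ℤ) = z := by omega
      rwa [e2] at e1
    rcases next_block hS h1 hl hU hUQ hδ (hval (y1 - 1) (by omega) (by omega)) hy2 with h4 | h4
    · have hδ' : Sn (-δ) := by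
        rcases hδ with h | h
        · right
          rw [h]
        · left
          rw [h]
          norm_num
      obtain ⟨m, y, hm, hy0, hy, hyN, hyS⟩ := ih y1 (-δ) (by push_cast at hc ⊢; omega) hδ' hy2 h4
      refine ⟨m + 1, fun i => match i with
        | 0 => c
        | i + 1 => y i, by omega, rfl, ?_, hyN, ?_⟩
      · intro i hi
        rcases i with _ | i
        · show c + 2 ≤ y 0
          omega
        · exact hy i (by omega)
      · intro n hn
        rw [BlocksA_blk_succ]
        show S n = (if c < n ∧ n < y 0 then δ else 0) + blk (-δ) y m n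
        rcases lt_or_ge n y1 with hn1 | hn1
        · rw [BlocksA_blk_zero hy (by omega), add_zero]
          rcases lt_or_eq_of_le hn with h5 | h5
          · rw [if_pos ⟨h5, by omega⟩]
            exact hval n h5 hn1
          · rw [if_neg (by omega), ← h5]
            exact h2
        · rw [if_neg (by omega), zero_add]
          exact hyS n hn1
    · refine ⟨1, fun i => match i with
        | 0 => c
        | _ + 1 => y1, le_rfl, rfl, ?_, hy1N, ?_⟩
      · intro i hi
        rcases i with _ | i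
        · show c + 2 ≤ y1
          exact hyc
        · omega
      · intro n hn
        rw [show (1 : ℕ) = 0 + 1 from rfl, BlocksA_blk_succ]
        have e0 : blk (-δ) (fun i => (fun i : ℕ => match i with
          | 0 => c
          | _ + 1 => y1) (i + 1)) 0 n = 0 := by
          unfold blk
          simp
        rw [e0, add_zero]
        show S n = (if c < n ∧ n < y1 then δ else 0)
        rcases lt_or_ge n y1 with hn1 | hn1
        · rcases lt_or_eq_of_le hn with h5 | h5
          · rw [if_pos ⟨h5, hn1⟩]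
            exact hval n h5 hn1
          · rw [if_neg (by omega), ← h5]
            exact h2
        · rw [if_neg (by omega)]
          exact h4 n hn1

/-- Strong induction on `(N - c).toNat`, from `next_block`: if `S c = 0`, `S (c + 1) = δ` then the
values of `S` on `[c, ∞)` form `m ≥ 1` blocks `(y 0 = c)`. The first block ends at the least `y 1 > c`
with `S (y 1) = 0`. -/
theorem blocks_from (hS : Sup N S) (h1 : ∀ n, |S n| ≤ 1) (hl : ∀ n, |Dl S n| ≤ 1) (hU : Uni S)
    (hUQ : Uni (Dl S)) {c : ℤ} (hδ : Sn δ) (h2 : S c = 0) (h3 : S (c + 1) = δ) :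
    ∃ (m : ℕ) (y : ℕ → ℤ), 1 ≤ m ∧ y 0 = c ∧ (∀ i < m, y i + 2 ≤ y (i + 1)) ∧ y m ≤ N ∧
      ∀ n, c ≤ n → S n = blk δ y m n :=
  BlocksA_aux hS h1 hl hU hUQ ((N : ℤ) - c).toNat c δ (by omega) hδ h2 h3

end Pool.Agent.MP658x
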