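import Pool.Agent.Lib.MP_658dbf_an_X.Defs
import Pool.Agent.Lib.MP_658dbf_an_X.TVar

/-!
# MP_658dbf_an, project X: chain and total variation of a block pattern
-/

set_option autoImplicit false

namespace Pool.Agent.MP658x

open Finset

private theorem bB_mono {m : ℕ} {y : ℕ → ℤ} (hy : ∀ i < m, y i + 2 ≤ y (i + 1)) {i j : ℕ}
    (hij : i ≤ j) (hj : j ≤ m) : y i ≤ y j := by
  induction j, hij using Nat.le_induction with
  | base => exact le_rfl
  | succ j _ ih =>
    have h1 := ih (by omega)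
    have h2 := hy j (by omega)
    omega

private theorem bB_val {m : ℕ} {y : ℕ → ℤ} {δ : ℤ} (hy : ∀ i < m, y i + 2 ≤ y (i + 1)) {j : ℕ}
    (hj : j < m) {n : ℤ} (h1 : y j < n) (h2 : n < y (j + 1)) : blk δ y m n = δ * (-1) ^ j := by
  unfold blk
  rw [sum_eq_single_of_mem j (mem_range.mpr hj)]
  · rw [if_pos ⟨h1, h2⟩]
  · intro i hi hij
    rw [mem_range] at hi
    rw [if_neg]
    rintro ⟨h3, h4⟩
    rcases lt_or_gt_of_ne hij with h | h
    · have := bB_mono hy (show i + 1 ≤ j by omega) hj.le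
      omega
    · have := bB_mono hy (show j + 1 ≤ i by omega) hi.le
      omega

private theorem bB_zero {m : ℕ} {y : ℕ → ℤ} {δ : ℤ} (hy : ∀ i < m, y i + 2 ≤ y (i + 1)) {j : ℕ}
    (hj : j ≤ m) : blk δ y m (y j) = 0 := by
  unfold blk
  refine sum_eq_zero fun i hi => ?_
  rw [mem_range] at hi
  rw [if_neg]
  rintro ⟨h3, h4⟩
  rcases lt_or_ge i j with h | h
  · have := bB_mono hy (show i + 1 ≤ j by omega) hj
    omega
  · have := bB_mono hy h hi.le
    omega

private theorem bB_sq {δ : ℤ} (hδ : Sn δ) (j : ℕ) : (δ * (-1) ^ j) * (δ * (-1) ^ j) = 1 := by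
  have h1 : ((-1 : ℤ) ^ j) * (-1) ^ j = 1 := by
    rw [← mul_pow]
    norm_num
  have h2 : δ * δ = 1 := by
    rcases hδ with h | h <;> rw [h] <;> norm_num
  calc (δ * (-1) ^ j) * (δ * (-1) ^ j) = (δ * δ) * ((-1) ^ j * (-1) ^ j) := by ring
    _ = 1 := by rw [h1, h2, mul_one]

private theorem bB_sn {δ : ℤ} (hδ : Sn δ) (j : ℕ) : Sn (δ * (-1) ^ j) := by
  have h1 := bB_sq hδ j
  unfold Sn
  exact mul_self_eq_one_iff.mp h1

private theorem bB_chain {S : ℤ → ℤ} {m : ℕ} {y : ℕ → ℤ} {δ : ℤ} (hm : 1 ≤ m) (hδ : Sn δ)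
    (hy : ∀ i < m, y i + 2 ≤ y (i + 1)) (hS : ∀ n, S n = blk δ y m n) :
    ∀ j ≤ m, ∀ x, y j + 1 ≤ x → Ch (Dl S) (j + 1) (δ * (-1) ^ j) x := by
  intro j
  induction j with
  | zero =>
    intro _ x hx
    refine ⟨y 0 + 1, hx, ?_, trivial⟩
    have h1 := hy 0 (by omega)
    rw [zero_add] at h1
    have h2 : Dl S (y 0 + 1) = δ * (-1) ^ 0 := by
      unfold Dl
      rw [hS, hS, bB_val hy (show 0 < m by omega) (show y 0 < y 0 + 1 by omega)
        (show y 0 + 1 < y (0 + 1) by rw [zero_add]; omega), add_sub_cancel_right,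
        bB_zero hy (Nat.zero_le _), sub_zero]
    rw [h2, bB_sq hδ]
    norm_num
  | succ j ih =>
    intro hj x hx
    refine ⟨y (j + 1), by omega, ?_, ?_⟩
    · have h1 := hy j (by omega)
      have h2 : Dl S (y (j + 1)) = δ * (-1) ^ (j + 1) := by
        unfold Dl
        rw [hS, hS, bB_zero hy hj, bB_val hy (show j < m by omega)
          (show y j < y (j + 1) - 1 by omega) (show y (j + 1) - 1 < y (j + 1) by omega)]
        ring
      rw [h2, bB_sq hδ]
      norm_num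
    · have h3 : -(δ * (-1) ^ (j + 1)) = δ * (-1) ^ j := by ring
      rw [h3]
      have h1 := hy j (by omega)
      exact ih (by omega) _ (by omega)

private theorem bB_abs (a b c n : ℤ) (hc : |c| ≤ 1) :
    |(if a < n ∧ n < b then c else 0) - (if a < n - 1 ∧ n - 1 < b then c else 0)| ≤
      (if n = a + 1 then 1 else 0) + (if n = b then 1 else 0) := by
  by_cases h1 : a < n ∧ n < b
  · by_cases h2 : a < n - 1 ∧ n - 1 < b
    · rw [if_pos h1, if_pos h2, sub_self, abs_zero]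
      split_ifs <;> norm_num
    · rw [if_pos h1, if_neg h2, sub_zero, if_pos (show n = a + 1 by omega)]
      split_ifs <;> omega
  · by_cases h2 : a < n - 1 ∧ n - 1 < b
    · rw [if_neg h1, if_pos h2, zero_sub, abs_neg, if_pos (show n = b by omega)]
      split_ifs <;> omega
    · rw [if_neg h1, if_neg h2, sub_self, abs_zero]
      split_ifs <;> norm_num

variable {N k : ℕ} {S : ℤ → ℤ} {σ x δ : ℤ}

/-- a block pattern has a chain of `m + 1` points in `Dl` (the points `y 0 + 1, y 1, …, y m`) and total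
variation at most `2 m` -/
theorem blk_chain_tv {m : ℕ} {y : ℕ → ℤ} (hm : 1 ≤ m) (hδ : Sn δ)
    (hy : ∀ i < m, y i + 2 ≤ y (i + 1)) (hS : ∀ n, S n = blk δ y m n) :
    (∃ τ z, Sn τ ∧ Ch (Dl S) (m + 1) τ z) ∧ TV N S ≤ 2 * (m : ℤ) := by
  refine ⟨⟨δ * (-1) ^ m, y m + 1, bB_sn hδ m, bB_chain hm hδ hy hS m le_rfl _ le_rfl⟩, ?_⟩
  have habs : ∀ i : ℕ, |δ * (-1) ^ i| ≤ 1 := by
    intro i
    rcases bB_sn hδ i with h | h <;> rw [h] <;> norm_num
  have h1 : ∀ n, |Dl S n| ≤ ∑ i ∈ range m,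
      ((if n = y i + 1 then 1 else 0) + (if n = y (i + 1) then 1 else 0) : ℤ) := by
    intro n
    unfold Dl
    rw [hS, hS]
    unfold blk
    rw [← sum_sub_distrib]
    refine (abs_sum_le_sum_abs _ _).trans (sum_le_sum fun i _ => ?_)
    exact bB_abs _ _ _ _ (habs i)
  unfold TV
  calc ∑ n ∈ Ioc (-1 : ℤ) N, |Dl S n|
      ≤ ∑ n ∈ Ioc (-1 : ℤ) N, ∑ i ∈ range m,
        ((if n = y i + 1 then 1 else 0) + (if n = y (i + 1) then 1 else 0) : ℤ) :=
        sum_le_sum fun n _ => h1 n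
    _ = ∑ i ∈ range m, ∑ n ∈ Ioc (-1 : ℤ) N,
        ((if n = y i + 1 then 1 else 0) + (if n = y (i + 1) then 1 else 0) : ℤ) := sum_comm
    _ ≤ ∑ i ∈ range m, (2 : ℤ) := by
        refine sum_le_sum fun i _ => ?_
        rw [sum_add_distrib, sum_ite_eq', sum_ite_eq']
        split_ifs <;> norm_num
    _ = 2 * (m : ℤ) := by
        rw [sum_const, card_range, nsmul_eq_mul]
        ring

end Pool.Agent.MP658x
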