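import Pool.Agent.Lib.MP_658dbf_an_X.FactsB
import Pool.Agent.Lib.MP_658dbf_an_X.BlocksA
import Pool.Agent.Lib.MP_658dbf_an_X.BlocksB

/-!
# MP_658dbf_an, project X: the block pattern for `|S| ≤ 1`
-/

set_option autoImplicit false

namespace Pool.Agent.MP658x

open Finset

variable {N k : ℕ} {S : ℤ → ℤ} {σ x δ : ℤ}

/-- `blocks_from` at `c = (least point with S ≠ 0) - 1`; `m ≤ k` by `B_chain`, `m ≥ k` by `tv_total` -/
theorem blocks (hS : Sup N S) (h1 : ∀ n, |S n| ≤ 1) (hk : 1 ≤ k) (hσ : Sn σ) (hc : Ch S k σ x)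
    (hTV : TV (N + 1) (Dl S) ≤ 2 * ((k : ℤ) + 1)) :
    ∃ (δ : ℤ) (y : ℕ → ℤ), Sn δ ∧ (∀ i < k, y i + 2 ≤ y (i + 1)) ∧ -1 ≤ y 0 ∧ y k ≤ N ∧
      ∀ n, S n = blk δ y k n := by
  have hl := B_lip hS hk hσ hc hTV
  have hU := B_uni hS hk hσ hc hTV
  have hUQ := B_uniQ hS hk hσ hc hTV
  have hne : ∃ n, S n ≠ 0 := by
    obtain ⟨k', rfl⟩ : ∃ k', k = k' + 1 := ⟨k - 1, by omega⟩
    obtain ⟨z, -, hz, -⟩ := hc
    refine ⟨z, fun h => ?_⟩
    rw [h, mul_zero] at hz
    exact lt_irrefl _ hz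
  have hbd : ∃ b : ℤ, ∀ z : ℤ, S z ≠ 0 → b ≤ z := by
    refine ⟨0, fun z hz => ?_⟩
    by_contra hcon
    push Not at hcon
    exact hz (hS z (Or.inl hcon))
  obtain ⟨n0, hn0, hleast⟩ := Int.exists_least_of_bdd hbd hne
  have hn0nn : 0 ≤ n0 := by
    by_contra hcon
    push Not at hcon
    exact hn0 (hS n0 (Or.inl hcon))
  have hδ : Sn (S n0) := by
    have h3 := abs_le.1 (h1 n0)
    unfold Sn
    omega
  have h2 : S (n0 - 1) = 0 := by
    by_contra hcon
    have := hleast _ hcon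
    omega
  obtain ⟨m, y, hm, hy0, hy, hyN, hblk⟩ := blocks_from hS h1 hl hU hUQ hδ h2
    (by rw [sub_add_cancel])
  have hall : ∀ n, S n = blk (S n0) y m n := by
    intro n
    rcases le_or_gt (n0 - 1) n with h | h
    · exact hblk n h
    · have h3 : S n = 0 := by
        by_contra hcon
        have := hleast _ hcon
        omega
      rw [h3]
      have hmono : ∀ i, i ≤ m → y 0 ≤ y i := by
        intro i
        induction i with
        | zero => intro _; exact le_rfl
        | succ i ih =>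
          intro hi
          have := ih (by omega)
          have := hy i (by omega)
          omega
      symm
      unfold blk
      refine sum_eq_zero fun i hi => ?_
      have h4 := hmono i (mem_range.1 hi).le
      rw [if_neg]
      omega
  obtain ⟨⟨τ, z, hτ, hch⟩, htv⟩ := blk_chain_tv (N := N) hm hδ hy hall
  have h5 := B_chain hS hTV hτ hch
  have h6 := tv_total hS hσ hc
  have h7 : m = k := by omega
  subst h7
  exact ⟨S n0, y, hδ, hy, by omega, hyN, hall⟩

end Pool.Agent.MP658x
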