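import Pool.Agent.Lib.MP_658dbf_an_X.Defs

/-!
# MP_658dbf_an, project X: the energy of a list
-/

set_option autoImplicit false

namespace Pool.Agent.MP658x

open Finset
open Pool.Agent.MP658dbf (K En dla dl fnz)

variable {κ : ℕ → ℝ} {w : ℝ} {N : ℕ}

private theorem fl_nil (n : ℤ) : fl [] n = 0 := by
  unfold fl
  simp

private theorem fl_cons_zero (x : ℤ) (l : List ℤ) : fl (x :: l) 0 = x := by
  unfold fl
  simp

private theorem fl_cons_succ (x : ℤ) (l : List ℤ) {n : ℤ} (hn : 0 ≤ n) :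
    fl (x :: l) (n + 1) = fl l n := by
  obtain ⟨m, rfl⟩ := Int.eq_ofNat_of_zero_le hn
  unfold fl
  rw [if_neg (by omega), if_neg (by omega)]
  have : ((m : ℤ) + 1).toNat = m + 1 := by omega
  rw [this]
  simp

/-- shift of a sum over `[0, M+1)` -/
private theorem sum_shift (f : ℤ → ℝ) (M : ℕ) :
    ∑ n ∈ Ico (0 : ℤ) ((M + 1 : ℕ) : ℤ), f n = f 0 + ∑ n ∈ Ico (0 : ℤ) (M : ℤ), f (n + 1) := by
  have h1 : Ico (0 : ℤ) ((M + 1 : ℕ) : ℤ) = insert 0 (Ico (1 : ℤ) ((M + 1 : ℕ) : ℤ)) := by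
    ext n
    simp only [mem_Ico, mem_insert]
    push_cast
    omega
  rw [h1, sum_insert (by simp)]
  congr 1
  have h2 : Ico (1 : ℤ) ((M + 1 : ℕ) : ℤ) = (Ico (0 : ℤ) (M : ℤ)).map (addRightEmbedding 1) := by
    ext n
    simp only [mem_Ico, mem_map, addRightEmbedding_apply]
    push_cast
    constructor
    · intro h
      exact ⟨n - 1, by omega, by omega⟩
    · rintro ⟨a, ha, rfl⟩
      omega
  rw [h2, sum_map]
  rfl

private theorem K_fl (κ : ℕ → ℝ) (k : ℕ) (l : List ℤ) {M : ℕ} (h : l.length ≤ M) :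
    K κ k l = ∑ n ∈ Ico (0 : ℤ) (M : ℤ), κ (k + n.toNat) * (fl l n : ℝ) := by
  induction l generalizing k M with
  | nil =>
    symm
    unfold K
    refine sum_eq_zero fun n _ => ?_
    rw [fl_nil]
    simp
  | cons x l ih =>
    obtain ⟨M', rfl⟩ : ∃ M', M = M' + 1 := ⟨M - 1, by simp at h; omega⟩
    have h' : l.length ≤ M' := by simpa using h
    rw [sum_shift, fl_cons_zero]
    simp only [K]
    rw [ih (k + 1) h']
    congr 1
    refine sum_congr rfl fun n hn => ?_
    rw [mem_Ico] at hn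
    rw [fl_cons_succ x l hn.1]
    have : k + (n + 1).toNat = k + 1 + n.toNat := by omega
    rw [this]

theorem En_fl (κ : ℕ → ℝ) (w : ℝ) (l : List ℤ) (h : l.length ≤ N) :
    En κ w l = E κ w N (fl l) := by
  induction l generalizing N with
  | nil =>
    symm
    unfold En E
    refine sum_eq_zero fun m _ => sum_eq_zero fun n _ => ?_
    rw [fl_nil]
    simp
  | cons x l ih =>
    obtain ⟨M, rfl⟩ : ∃ M, N = M + 1 := ⟨N - 1, by simp at h; omega⟩
    have h' : l.length ≤ M := by simpa using h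
    unfold E
    rw [sum_shift]
    simp_rw [sum_shift _ M]
    rw [fl_cons_zero]
    simp only [En]
    rw [ih h', K_fl κ 1 l h']
    unfold E
    rw [sum_add_distrib]
    have e1 : ∀ n ∈ Ico (0 : ℤ) (M : ℤ), ac κ w (0 - (n + 1)) * ((x : ℝ) * fl (x :: l) (n + 1)) =
        -(x * (κ (1 + n.toNat) * (fl l n : ℝ))) := by
      intro n hn
      rw [mem_Ico] at hn
      rw [fl_cons_succ x l hn.1]
      unfold ac
      rw [if_neg (by omega)]
      have : (0 - (n + 1)).natAbs = 1 + n.toNat := by omega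
      rw [this]
      ring
    have e2 : ∀ m ∈ Ico (0 : ℤ) (M : ℤ), ac κ w (m + 1 - 0) * ((fl (x :: l) (m + 1) : ℝ) * x) =
        -(x * (κ (1 + m.toNat) * (fl l m : ℝ))) := by
      intro m hm
      rw [mem_Ico] at hm
      rw [fl_cons_succ x l hm.1]
      unfold ac
      rw [if_neg (by omega)]
      have : (m + 1 - 0).natAbs = 1 + m.toNat := by omega
      rw [this]
      ring
    have e3 : ∀ m ∈ Ico (0 : ℤ) (M : ℤ), ∑ n ∈ Ico (0 : ℤ) (M : ℤ),
        ac κ w (m + 1 - (n + 1)) * ((fl (x :: l) (m + 1) : ℝ) * fl (x :: l) (n + 1)) =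
        ∑ n ∈ Ico (0 : ℤ) (M : ℤ), ac κ w (m - n) * ((fl l m : ℝ) * fl l n) := by
      intro m hm
      refine sum_congr rfl fun n hn => ?_
      rw [mem_Ico] at hm hn
      rw [fl_cons_succ x l hm.1, fl_cons_succ x l hn.1]
      congr 2
      ring
    rw [sum_congr rfl e1, sum_congr rfl e2, sum_congr rfl e3]
    rw [sum_neg_distrib, ← mul_sum]
    have e4 : ac κ w (0 - 0) = w := by simp [ac]
    rw [e4]
    ring

theorem sq_fl (l : List ℤ) (h : l.length ≤ N) :
    sq l = ∑ n ∈ Ico (0 : ℤ) (N : ℤ), fl l n ^ 2 := by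
  induction l generalizing N with
  | nil =>
    symm
    unfold sq
    simp only [List.map_nil, List.sum_nil]
    refine sum_eq_zero fun n _ => ?_
    rw [fl_nil]
    norm_num
  | cons x l ih =>
    obtain ⟨M, rfl⟩ : ∃ M, N = M + 1 := ⟨N - 1, by simp at h; omega⟩
    have h' : l.length ≤ M := by simpa using h
    have hs : ∑ n ∈ Ico (0 : ℤ) ((M + 1 : ℕ) : ℤ), fl (x :: l) n ^ 2 =
        fl (x :: l) 0 ^ 2 + ∑ n ∈ Ico (0 : ℤ) (M : ℤ), fl (x :: l) (n + 1) ^ 2 := by
      have := sum_shift (fun n => ((fl (x :: l) n : ℤ) : ℝ) ^ 2) M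
      exact_mod_cast this
    rw [hs, fl_cons_zero]
    have h2 : sq (x :: l) = x ^ 2 + sq l := by
      unfold sq
      simp
    rw [h2, ih h']
    congr 1
    refine sum_congr rfl fun n hn => ?_
    rw [mem_Ico] at hn
    rw [fl_cons_succ x l hn.1]

end Pool.Agent.MP658x
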