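import Pool.Agent.Lib.MP_658dbf_an_X.Defs

/-!
# MP_658dbf_an, project X: summation by parts at a point
-/

set_option autoImplicit false

namespace Pool.Agent.MP658x

open Finset

variable {κ : ℕ → ℝ} {w : ℝ} {N : ℕ} {S S' : ℤ → ℤ} {p t : ℤ}

private theorem EDiffB_ext (p : ℤ) (M : ℕ) :
    Icc (p - ((M + 1 : ℕ) : ℤ)) (p + ((M + 1 : ℕ) : ℤ)) =
      insert (p - ((M + 1 : ℕ) : ℤ)) (insert (p + ((M + 1 : ℕ) : ℤ))
        (Icc (p - (M : ℤ)) (p + (M : ℤ)))) := by
  ext x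
  simp only [mem_insert, mem_Icc]
  push_cast
  omega

private theorem EDiffB_sym (κ : ℕ → ℝ) (w : ℝ) (S : ℤ → ℤ) (p : ℤ) (M : ℕ) :
    ∑ n ∈ Icc (p - (M : ℤ)) (p + (M : ℤ)), (Dl S n : ℝ) * ac κ w (n - p) =
      (w + κ 1) * ((S p : ℝ) - S (p - 1)) -
        ∑ j ∈ Icc 1 M, (κ j - κ (j + 1)) * ((S (p + j) : ℝ) - S (p - 1 - j)) -
        κ (M + 1) * ((S (p + M) : ℝ) - S (p - 1 - M)) := by
  induction M with
  | zero =>
    simp [Dl, ac]
    ring
  | succ M ih =>
    rw [EDiffB_ext, sum_insert, sum_insert, ih, Finset.sum_Icc_succ_top (by omega)]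
    · have e1 : ac κ w (p - ((M + 1 : ℕ) : ℤ) - p) = -κ (M + 1) := by
        have h0 : ¬ (p - ((M + 1 : ℕ) : ℤ) - p = 0) := by push_cast; omega
        have h1 : (p - ((M + 1 : ℕ) : ℤ) - p).natAbs = M + 1 := by omega
        unfold ac
        rw [if_neg h0, h1]
      have e2 : ac κ w (p + ((M + 1 : ℕ) : ℤ) - p) = -κ (M + 1) := by
        have h0 : ¬ (p + ((M + 1 : ℕ) : ℤ) - p = 0) := by push_cast; omega
        have h1 : (p + ((M + 1 : ℕ) : ℤ) - p).natAbs = M + 1 := by omega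
        unfold ac
        rw [if_neg h0, h1]
      have e3 : (Dl S (p - ((M + 1 : ℕ) : ℤ)) : ℝ) =
          (S (p - 1 - (M : ℤ)) : ℝ) - S (p - 1 - ((M + 1 : ℕ) : ℤ)) := by
        have h0 : p - ((M + 1 : ℕ) : ℤ) = p - 1 - (M : ℤ) := by push_cast; ring
        have h1 : p - 1 - (M : ℤ) - 1 = p - 1 - ((M + 1 : ℕ) : ℤ) := by push_cast; ring
        unfold Dl
        rw [h0, h1]
        push_cast
        ring
      have e4 : (Dl S (p + ((M + 1 : ℕ) : ℤ)) : ℝ) =
          (S (p + ((M + 1 : ℕ) : ℤ)) : ℝ) - S (p + (M : ℤ)) := by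
        have h1 : p + ((M + 1 : ℕ) : ℤ) - 1 = p + (M : ℤ) := by push_cast; ring
        unfold Dl
        rw [h1]
        push_cast
        ring
      rw [e1, e2, e3, e4]
      ring
    · simp only [mem_Icc, not_and, not_le]
      intro _
      push_cast
      omega
    · simp only [mem_insert, mem_Icc, not_or, not_and, not_le]
      push_cast
      refine ⟨by omega, fun h => ?_⟩
      omega

/-- Summation by parts: `∑_n (S n - S (n-1)) g n = ∑_n S n (g n - g (n+1))` for `g n = ac κ w (n - p)`,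
then the substitutions `n = p + j` and `n = p - 1 - j`, `j ≥ 0`: `g n - g (n+1)` is `-(κ j - κ (j+1))`
resp. `κ j - κ (j+1)` for `j ≥ 1` and `±(w + κ 1)` for `j = 0`. The terms with `j > N` vanish. -/
theorem E_abel (hS : Sup N S) (hp : 0 ≤ p) (hpN : p ≤ N) :
    ∑ n ∈ Ico (0 : ℤ) ((N + 1 : ℕ) : ℤ), (Dl S n : ℝ) * ac κ w (n - p) =
      (w + κ 1) * ((S p : ℝ) - S (p - 1)) -
        ∑ j ∈ Icc 1 N, (κ j - κ (j + 1)) * ((S (p + j) : ℝ) - S (p - 1 - j)) := by
  have h1 : S (p + (N : ℤ)) = 0 := hS _ (Or.inr (by omega))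
  have h2 : S (p - 1 - (N : ℤ)) = 0 := hS _ (Or.inl (by omega))
  have key := EDiffB_sym κ w S p N
  rw [h1, h2] at key
  simp only [Int.cast_zero, sub_zero, mul_zero] at key
  rw [← key]
  refine Finset.sum_subset ?_ ?_
  · intro x hx
    simp only [mem_Ico, mem_Icc] at hx ⊢
    push_cast at hx
    omega
  · intro x _ hx
    have hz : Dl S x = 0 := by
      simp only [mem_Ico, not_and, not_lt] at hx
      push_cast at hx
      unfold Dl
      by_cases h0 : x < 0
      · rw [hS x (Or.inl h0), hS (x - 1) (Or.inl (by omega))]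
        rfl
      · have h3 := hx (by omega)
        rw [hS x (Or.inr (by omega)), hS (x - 1) (Or.inr (by omega))]
        rfl
    rw [hz]
    simp

end Pool.Agent.MP658x
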