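import Pool.Agent.Lib.MP_658dbf_an_X.Defs

/-!
# MP_658dbf_an, project X: one-sided form of the energy
-/

set_option autoImplicit false

namespace Pool.Agent.MP658x

open Finset

variable {κ : ℕ → ℝ} {w : ℝ} {N : ℕ} {S S' : ℤ → ℤ} {p t : ℤ}

/-- reindexing of the past of a point -/
private theorem EDiffC_past {q : ℤ → ℤ} (hq : Sup N q) {m : ℤ}
    (hm : m ∈ Ico (0 : ℤ) (N : ℤ)) :
    ∑ n ∈ (Ico (0 : ℤ) (N : ℤ)).filter (fun n => n < m), κ (m - n).natAbs * (q n : ℝ) =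
      ∑ j ∈ Icc 1 N, κ j * (q (m - j) : ℝ) := by
  rw [mem_Ico] at hm
  refine Finset.sum_of_injOn (fun n : ℤ => (m - n).natAbs) ?_ ?_ ?_ ?_
  · intro a ha b hb hab
    simp only [coe_filter, mem_Ico, Set.mem_ofPred_eq] at ha hb
    simp only at hab
    omega
  · intro a ha
    simp only [coe_filter, mem_Ico, Set.mem_ofPred_eq] at ha
    simp only [coe_Icc, Set.mem_Icc]
    omega
  · intro j hj hnot
    rw [mem_Icc] at hj
    have h0 : q (m - j) = 0 := by
      by_contra hne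
      apply hnot
      refine ⟨m - j, ?_, ?_⟩
      · simp only [coe_filter, mem_Ico, Set.mem_ofPred_eq]
        refine ⟨⟨?_, ?_⟩, ?_⟩
        · by_contra hlt
          exact hne (hq _ (Or.inl (by omega)))
        · omega
        · omega
      · simp only
        omega
    rw [h0]
    simp
  · intro a ha
    simp only [mem_filter, mem_Ico] at ha
    have h1 : m - ((m - a).natAbs : ℤ) = a := by omega
    simp only [h1]

/-- one-sided form of the energy (symmetry of the kernel) -/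
theorem E_half {q : ℤ → ℤ} (hq : Sup N q) :
    E κ w N q = ∑ n ∈ Ico (0 : ℤ) (N : ℤ),
      (w * (q n : ℝ) ^ 2 - 2 * (q n : ℝ) * ∑ j ∈ Icc 1 N, κ j * (q (n - j) : ℝ)) := by
  have hsplit : ∀ m n : ℤ, ac κ w (m - n) * ((q m : ℝ) * q n) =
      (if n = m then w * (q m : ℝ) ^ 2 else 0) +
      ((if n < m then -(κ (m - n).natAbs * ((q m : ℝ) * q n)) else 0) +
       (if m < n then -(κ (n - m).natAbs * ((q n : ℝ) * q m)) else 0)) := by
    intro m n
    unfold ac
    rcases lt_trichotomy m n with h | h | h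
    · have h1 : ¬ (m - n = 0) := by omega
      have h2 : ¬ (n = m) := by omega
      have h3 : ¬ (n < m) := by omega
      have h4 : (m - n).natAbs = (n - m).natAbs := by omega
      rw [if_neg h1, if_neg h2, if_neg h3, if_pos h, h4]
      ring
    · subst h
      rw [if_pos (sub_self m), if_pos rfl, if_neg (lt_irrefl m)]
      ring
    · have h1 : ¬ (m - n = 0) := by omega
      have h2 : ¬ (n = m) := by omega
      have h3 : ¬ (m < n) := by omega
      rw [if_neg h1, if_neg h2, if_neg h3, if_pos h]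
      ring
  have hswap : ∑ m ∈ Ico (0 : ℤ) (N : ℤ), ∑ n ∈ Ico (0 : ℤ) (N : ℤ),
      (if m < n then -(κ (n - m).natAbs * ((q n : ℝ) * q m)) else 0) =
      ∑ m ∈ Ico (0 : ℤ) (N : ℤ), ∑ n ∈ Ico (0 : ℤ) (N : ℤ),
      (if n < m then -(κ (m - n).natAbs * ((q m : ℝ) * q n)) else 0) := by
    rw [sum_comm]
  have hpast : ∀ m ∈ Ico (0 : ℤ) (N : ℤ), ∑ n ∈ Ico (0 : ℤ) (N : ℤ),
      (if n < m then -(κ (m - n).natAbs * ((q m : ℝ) * q n)) else 0) =
      - ((q m : ℝ) * ∑ j ∈ Icc 1 N, κ j * (q (m - j) : ℝ)) := by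
    intro m hm
    rw [← EDiffC_past hq hm, ← sum_filter, mul_sum, ← sum_neg_distrib]
    refine sum_congr rfl (fun n _ => ?_)
    ring
  unfold E
  calc ∑ m ∈ Ico (0 : ℤ) (N : ℤ), ∑ n ∈ Ico (0 : ℤ) (N : ℤ),
        ac κ w (m - n) * ((q m : ℝ) * q n)
      = ∑ m ∈ Ico (0 : ℤ) (N : ℤ), ∑ n ∈ Ico (0 : ℤ) (N : ℤ),
        ((if n = m then w * (q m : ℝ) ^ 2 else 0) +
        ((if n < m then -(κ (m - n).natAbs * ((q m : ℝ) * q n)) else 0) +
         (if m < n then -(κ (n - m).natAbs * ((q n : ℝ) * q m)) else 0))) :=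
        sum_congr rfl (fun m _ => sum_congr rfl (fun n _ => hsplit m n))
    _ = ∑ m ∈ Ico (0 : ℤ) (N : ℤ), w * (q m : ℝ) ^ 2 +
        (∑ m ∈ Ico (0 : ℤ) (N : ℤ), ∑ n ∈ Ico (0 : ℤ) (N : ℤ),
          (if n < m then -(κ (m - n).natAbs * ((q m : ℝ) * q n)) else 0) +
        ∑ m ∈ Ico (0 : ℤ) (N : ℤ), ∑ n ∈ Ico (0 : ℤ) (N : ℤ),
          (if m < n then -(κ (n - m).natAbs * ((q n : ℝ) * q m)) else 0)) := by
        simp only [sum_add_distrib]
        congr 1
        refine sum_congr rfl (fun m hm => ?_)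
        rw [sum_ite_eq' (Ico (0 : ℤ) (N : ℤ)) m (fun _ => w * (q m : ℝ) ^ 2), if_pos hm]
    _ = _ := by
        rw [hswap, sum_congr rfl hpast, ← sum_add_distrib, ← sum_add_distrib]
        refine sum_congr rfl (fun m _ => ?_)
        ring

/-- partial summation with the boundary term -/
private theorem EDiffC_abel (n : ℤ) (K : ℕ) :
    ∑ j ∈ Icc 1 K, κ j * (Dl S (n - j) : ℝ) =
      κ 1 * (S (n - 1) : ℝ) - ∑ j ∈ Icc 1 K, (κ j - κ (j + 1)) * (S (n - 1 - j) : ℝ) -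
        κ (K + 1) * (S (n - 1 - K) : ℝ) := by
  induction K with
  | zero => simp
  | succ K ih =>
    rw [sum_Icc_succ_top (by omega), sum_Icc_succ_top (by omega), ih]
    unfold Dl
    have h1 : n - ((K + 1 : ℕ) : ℤ) = n - 1 - K := by push_cast; ring
    have h2 : n - ((K + 1 : ℕ) : ℤ) - 1 = n - 1 - ((K + 1 : ℕ) : ℤ) := by push_cast; ring
    rw [h2, h1]
    push_cast
    ring

/-- summation by parts in the past of `n`; the last term vanishes since `n - M - 1 < 0` -/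
theorem past_abel (hS : Sup N S) {M : ℕ} {n : ℤ} (hn : n ≤ M) :
    ∑ j ∈ Icc 1 M, κ j * (Dl S (n - j) : ℝ) =
      κ 1 * (S (n - 1) : ℝ) - ∑ j ∈ Icc 1 M, (κ j - κ (j + 1)) * (S (n - 1 - j) : ℝ) := by
  rw [EDiffC_abel n M, hS (n - 1 - M) (Or.inl (by omega))]
  simp

end Pool.Agent.MP658x
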