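import Pool.Agent.Lib.MP_658dbf_an_X.Rolle

/-!
# MP_658dbf_an, project X: from lists to functions
-/

set_option autoImplicit false

namespace Pool.Agent.MP658x

open Finset
open Pool.Agent.MP658dbf (K En dla dl fnz)

variable {κ : ℕ → ℝ} {w : ℝ} {N : ℕ}

theorem sup_fl (l : List ℤ) : Sup l.length (fl l) := by
  intro n hn
  unfold fl
  rcases hn with h | h
  · rw [if_pos h]
  · have h1 : ¬ n < 0 := by omega
    rw [if_neg h1, List.getD_eq_default]
    omega

private theorem getD_dla (l : List ℤ) : ∀ (c : ℤ) (m : ℕ),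
    (dla c l).getD m 0 = l.getD m 0 - (c :: l).getD m 0 := by
  induction l with
  | nil =>
    intro c m
    cases m with
    | zero => simp [Pool.Agent.MP658dbf.dla]
    | succ m => simp [Pool.Agent.MP658dbf.dla]
  | cons x l ih =>
    intro c m
    cases m with
    | zero => simp [Pool.Agent.MP658dbf.dla]
    | succ m =>
      have h := ih x m
      simpa [Pool.Agent.MP658dbf.dla] using h

/-- induction on the list with the accumulator: `fl (dla c l) n = fl l n - fl (c :: l) n` -/
theorem fl_dl (l : List ℤ) : fl (dl l) = Dl (fl l) := by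
  funext n
  unfold Dl
  rcases lt_or_ge n 0 with h | h
  · unfold fl
    rw [if_pos h, if_pos h, if_pos (by omega : n - 1 < 0)]
    norm_num
  · obtain ⟨m, rfl⟩ := Int.eq_ofNat_of_zero_le h
    have h1 : fl (dl l) (m : ℤ) = (dla 0 l).getD m 0 := by
      unfold fl Pool.Agent.MP658dbf.dl
      rw [if_neg (by omega), Int.toNat_natCast]
    have h2 : fl l (m : ℤ) = l.getD m 0 := by
      unfold fl
      rw [if_neg (by omega), Int.toNat_natCast]
    rw [h1, h2, getD_dla]
    congr 1
    cases m with
    | zero =>
      unfold fl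
      simp
    | succ m =>
      unfold fl
      rw [if_neg (by omega)]
      have h3 : (((m + 1 : ℕ) : ℤ) - 1).toNat = m := by omega
      rw [h3]
      simp

theorem fl_iter (k : ℕ) (l : List ℤ) : fl (dl^[k] l) = Dl^[k] (fl l) := by
  induction k with
  | zero => rfl
  | succ k ih => rw [Function.iterate_succ_apply', Function.iterate_succ_apply', fl_dl, ih]

private theorem length_dla (l : List ℤ) : ∀ c : ℤ, (dla c l).length = l.length + 1 := by
  induction l with
  | nil =>
    intro c
    simp [Pool.Agent.MP658dbf.dla]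
  | cons x l ih =>
    intro c
    simp [Pool.Agent.MP658dbf.dla, ih]

theorem length_dl (l : List ℤ) : (dl l).length = l.length + 1 := length_dla l 0

theorem exists_fl_ne {l : List ℤ} (h : fnz l ≠ 0) : ∃ n, fl l n ≠ 0 := by
  induction l with
  | nil => exact absurd rfl h
  | cons x l ih =>
    by_cases hx : x = 0
    · subst hx
      rw [Pool.Agent.MP658dbf.fnz_cons_zero] at h
      obtain ⟨n, hn⟩ := ih h
      refine ⟨n + 1, ?_⟩
      unfold fl at hn ⊢
      rcases lt_or_ge n 0 with h1 | h1
      · rw [if_pos h1] at hn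
        exact absurd rfl hn
      · rw [if_neg (by omega)] at hn
        rw [if_neg (by omega)]
        have h2 : (n + 1).toNat = n.toNat + 1 := by omega
        rw [h2]
        simpa using hn
    · refine ⟨0, ?_⟩
      unfold fl
      simpa using hx

/-- `Ch_of_pos` and `rolle_step` -/
theorem chain_iter {l : List ℤ} (h : fnz l ≠ 0) (k : ℕ) :
    ∃ σ x, Sn σ ∧ Ch (fl (dl^[k] l)) (k + 1) σ x := by
  induction k with
  | zero =>
    obtain ⟨n, hn⟩ := exists_fl_ne h
    obtain ⟨s, hs, hp⟩ := exists_sign hn
    exact ⟨s, n, hs, Ch_of_pos hp⟩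
  | succ k ih =>
    obtain ⟨σ, x, hσ, hc⟩ := ih
    obtain ⟨s', x', hs', hc'⟩ := rolle_step (sup_fl (dl^[k] l)) (by omega) hσ hc
    refine ⟨s', x', hs', ?_⟩
    rw [Function.iterate_succ_apply', fl_dl]
    exact hc'

end Pool.Agent.MP658x
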