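import Pool.Agent.Lib.MP_658dbf_an_X.KerFacts

/-!
# MP_658dbf_an, project X: case A (the second difference has large norm), list level
-/

set_option autoImplicit false

namespace Pool.Agent.MP658x

open Finset
open Pool.Agent.MP658dbf (K En dla dl fnz En_lower)

variable {κ κ' T : ℕ → ℝ}

private theorem caseA_K (h : ∀ n, 2 ≤ n → κ n = κ' n) (l : List ℤ) :
    ∀ k, 2 ≤ k → K κ k l = K κ' k l := by
  induction l with
  | nil => intro k _; rfl
  | cons x l ih =>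
    intro k hk
    simp only [K]
    rw [h k hk, ih (k + 1) (by omega)]

private theorem caseA_K1 (h : ∀ n, 2 ≤ n → κ n = κ' n) (l : List ℤ) :
    K κ 1 l - K κ' 1 l = (κ 1 - κ' 1) * (l.headD 0 : ℤ) := by
  cases l with
  | nil => simp [K]
  | cons x l =>
    simp only [K, List.headD_cons]
    rw [caseA_K h l (1 + 1) (by omega)]
    ring

private theorem caseA_sq (c : ℤ) (l : List ℤ) :
    sq (MP658dbf.dla c l) = c ^ 2 - 2 * c * l.headD 0 + sq (MP658dbf.dla 0 l) := by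
  cases l with
  | nil => simp [MP658dbf.dla, sq]
  | cons x l =>
    simp only [MP658dbf.dla, sq, List.map_cons, List.sum_cons, List.headD_cons]
    ring

/-- two kernels that agree from `2` on: `En κ (2 t) l = En κ' (2 t') l + (κ 1 - κ' 1) ∑ (dl l)²` if
`t - t' = κ 1 - κ' 1`. Induction on the list, with the accumulator: `∑ (dla c l)² = c² - 2 c x_0 +
2 ∑ x_i² - 2 ∑ x_i x_{i+1}` and `K κ 1 l - K κ' 1 l = (κ 1 - κ' 1) x_0`. -/
theorem En_shift (h : ∀ n, 2 ≤ n → κ n = κ' n) (t t' : ℝ) (ht : t - t' = κ 1 - κ' 1)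
    (l : List ℤ) : En κ (2 * t) l = En κ' (2 * t') l + (κ 1 - κ' 1) * (sq (dl l) : ℝ) := by
  induction l with
  | nil => simp [En, dl, MP658dbf.dla, sq]
  | cons x l ih =>
    have h1 := caseA_K1 h l
    have h2 : (sq (dl (x :: l)) : ℝ) =
        (x : ℝ) ^ 2 + ((x : ℝ) ^ 2 - 2 * x * (l.headD 0 : ℤ) + (sq (dl l) : ℝ)) := by
      have h3 := caseA_sq x l
      have h4 : sq (dl (x :: l)) = x ^ 2 + sq (MP658dbf.dla x l) := by
        simp only [dl, MP658dbf.dla, sq, List.map_cons, List.sum_cons, sub_zero]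
      rw [h4, h3]
      push_cast
      rfl
    simp only [En]
    rw [ih, h2]
    linear_combination (-2 * (x : ℝ)) * h1 + (2 * (x : ℝ) ^ 2) * ht

/-- `En_lower` for `κ' 1 = κ 2`, `κ' n = κ n` (`n ≠ 1`), `T' n = T n - (κ 1 - κ 2)` for `n ≤ 1`, `T' n =
T n` for `n ≥ 2`, and `En_shift`: `4 T'_1 + 2 (k-1) (T'_1 + T'_2) + (κ_1 - κ_2) (2 k + 4) = Bd + 2 (κ_1 -
κ_2)`. -/
theorem caseA (hK : Ker κ T) {k : ℕ} (hk : 1 ≤ k) {p : List ℤ} (hp : fnz p ≠ 0)
    (h : 2 * (k : ℤ) + 4 ≤ sq (dl (dl^[k] p))) :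
    Bd κ T k + 2 * (κ 1 - κ 2) ≤ En κ (2 * T 1) (dl^[k] p) := by
  obtain ⟨κ', hκ'⟩ : ∃ κ' : ℕ → ℝ, κ' = fun n => if n = 1 then κ 2 else κ n := ⟨_, rfl⟩
  obtain ⟨T', hT'⟩ : ∃ T' : ℕ → ℝ, T' = fun n => if n ≤ 1 then T n - (κ 1 - κ 2) else T n :=
    ⟨_, rfl⟩
  have k1 : κ' 1 = κ 2 := by rw [hκ']; simp
  have kn : ∀ n, n ≠ 1 → κ' n = κ n := fun n hn => by rw [hκ']; simp [hn]
  have t0 : T' 0 = T 0 - (κ 1 - κ 2) := by rw [hT']; simp
  have t1 : T' 1 = T 1 - (κ 1 - κ 2) := by rw [hT']; simp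
  have tn : ∀ n, 2 ≤ n → T' n = T n := fun n hn => by rw [hT']; simp [show ¬ n ≤ 1 by omega]
  have r0 := hK.trec 0
  have r1 := hK.trec 1
  have p0 := hK.nonneg 0
  have p2 := hK.nonneg 2
  have q2 := hK.tnonneg 2
  have a1 := hK.anti 1 le_rfl
  simp only [zero_add, Nat.reduceAdd] at r0 r1 a1
  have hlow := En_lower (κ := κ') (T := T') (fun n => ?_) (fun n hn => ?_) (fun n => ?_)
    (fun n => ?_) (k - 1) p hp
  · rw [Nat.sub_add_cancel hk, tn 2 le_rfl] at hlow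
    have h1 := En_shift (κ := κ) (κ' := κ') (fun n hn => (kn n (by omega)).symm) (T 1) (T' 1)
      (by rw [t1, k1]; ring) (dl^[k] p)
    rw [h1]
    have h2 : (2 * (k : ℝ) + 4) ≤ (sq (dl (dl^[k] p)) : ℝ) := by exact_mod_cast h
    have h3 : (κ 1 - κ' 1) * (2 * (k : ℝ) + 4) ≤ (κ 1 - κ' 1) * (sq (dl (dl^[k] p)) : ℝ) := by
      apply mul_le_mul_of_nonneg_left h2
      rw [k1]
      linarith
    have h4 : ((k - 1 : ℕ) : ℝ) = (k : ℝ) - 1 := by
      rw [Nat.cast_sub hk, Nat.cast_one]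
    rw [h4, t1] at hlow
    rw [t1] at h1 ⊢
    unfold Bd
    have h5 : 4 * (k : ℝ) * T 1 - 2 * ((k : ℝ) - 1) * κ 1 + 2 * (κ 1 - κ 2) =
        2 * (2 * (T 1 - (κ 1 - κ 2)) + ((k : ℝ) - 1) * (T 1 - (κ 1 - κ 2) + T 2)) +
          (κ 1 - κ' 1) * (2 * (k : ℝ) + 4) := by
      rw [k1, r1]
      ring
    rw [h5]
    exact add_le_add hlow h3
  · by_cases hn : n = 1
    · rw [hn, k1]
      exact p2
    · rw [kn n hn]
      exact hK.nonneg n
  · by_cases h1 : n = 1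
    · rw [h1, k1, kn _ (by omega)]
    · rw [kn n h1, kn (n + 1) (by omega)]
      exact hK.anti n hn
  · rcases n with _ | _ | n
    · rw [t0, kn 0 (by omega), t1, r0]
      ring
    · rw [t1, k1, tn _ le_rfl, r1]
      ring
    · rw [tn _ (by omega), tn _ (by omega), kn _ (by omega)]
      exact hK.trec _
  · rcases n with _ | _ | n
    · rw [t0, r0, r1]
      linarith
    · rw [t1, r1]
      linarith
    · rw [tn _ (by omega)]
      exact hK.tnonneg _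

end Pool.Agent.MP658x
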