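import Pool.Agent.Lib.MP_658dbf_an_X.Defs

/-!
# MP_658dbf_an, project X: chains, basic properties
-/

set_option autoImplicit false

namespace Pool.Agent.MP658x

open Finset

variable {f : ℤ → ℤ} {m n : ℕ} {s x y : ℤ}

theorem Ch_mono (h : Ch f n s x) (hxy : x ≤ y) : Ch f n s y := by
  cases n with
  | zero => trivial
  | succ n =>
    obtain ⟨z, h1, h2, h3⟩ := h
    exact ⟨z, h1.trans hxy, h2, h3⟩

theorem ChR_mono (h : ChR f n s x) (hxy : y ≤ x) : ChR f n s y := by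
  cases n with
  | zero => trivial
  | succ n =>
    obtain ⟨z, h1, h2, h3⟩ := h
    exact ⟨z, hxy.trans h1, h2, h3⟩

theorem Ch_of_pos (h : 0 < s * f x) : Ch f 1 s x :=
  ⟨x, le_rfl, h, trivial⟩

theorem ChR_of_pos (h : 0 < s * f x) : ChR f 1 s x :=
  ⟨x, le_rfl, h, trivial⟩

/-- a point in front of a left chain -/
theorem Ch_cons (h : 0 < s * f y) (hyx : y ≤ x) (h2 : Ch f n (-s) (y - 1)) : Ch f (n + 1) s x :=
  ⟨y, hyx, h, h2⟩

theorem Sn_neg (hs : Sn s) : Sn (-s) := by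
  rcases hs with rfl | rfl
  · right; rfl
  · left; rfl

/-- join of a chain that ends at `≤ x` (last sign `s`) and one that starts at `> x` (first sign
`-s`) -/
theorem Ch_join (hs : Sn s) (h1 : Ch f m s x) (h2 : ChR f n (-s) (x + 1)) :
    ∃ s' x', Sn s' ∧ Ch f (m + n) s' x' := by
  induction n generalizing m s x with
  | zero => exact ⟨s, x, hs, h1⟩
  | succ n ih =>
    obtain ⟨y, hy, h3, h4⟩ := h2
    have h5 : Ch f (m + 1) (-s) y := by
      refine ⟨y, le_rfl, h3, ?_⟩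
      rw [neg_neg]
      exact Ch_mono h1 (by omega)
    obtain ⟨s', x', h6, h7⟩ := ih (Sn_neg hs) h5 h4
    refine ⟨s', x', h6, ?_⟩
    have e : m + (n + 1) = m + 1 + n := by omega
    rw [e]
    exact h7

theorem exists_sign {z : ℤ} (hz : z ≠ 0) : ∃ s, Sn s ∧ 0 < s * z := by
  rcases lt_or_gt_of_ne hz with h | h
  · exact ⟨-1, Or.inr rfl, by omega⟩
  · exact ⟨1, Or.inl rfl, by omega⟩

end Pool.Agent.MP658x
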