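import Pool.Agent.Lib.MP_658dbf_an_X.PatDefs

/-!
# MP_658dbf_an, project X: Taylor estimate and antiderivatives of polynomials
-/

set_option autoImplicit false

namespace Pool.Agent.MP658x

open Finset Polynomial

private theorem taylor_mul_X (g : ℝ[X]) {K : ℝ} (hK0 : 0 ≤ K)
    (hK : ∀ x y : ℝ, |x| ≤ 2 → |y| ≤ 2 →
      |g.eval x - g.eval y - g.derivative.eval y * (x - y)| ≤ K * (x - y) ^ 2) :
    ∃ K : ℝ, 0 ≤ K ∧ ∀ x y : ℝ, |x| ≤ 2 → |y| ≤ 2 →
      |(g * X).eval x - (g * X).eval y - (g * X).derivative.eval y * (x - y)| ≤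
        K * (x - y) ^ 2 := by
  obtain ⟨B, hB⟩ := (isCompact_Icc : IsCompact (Set.Icc (-2 : ℝ) 2)).exists_bound_of_continuousOn
    (g.derivative.continuous.continuousOn)
  have hB0 : 0 ≤ B := (norm_nonneg _).trans (hB 0 ⟨by norm_num, by norm_num⟩)
  refine ⟨2 * K + B, by linarith, ?_⟩
  intro x y hx hy
  have h1 := hK x y hx hy
  have h2 : |g.derivative.eval y| ≤ B := by
    have := hB y (abs_le.1 hy)
    rwa [Real.norm_eq_abs] at this
  have e : (g * X).eval x - (g * X).eval y - (g * X).derivative.eval y * (x - y) =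
      x * (g.eval x - g.eval y - g.derivative.eval y * (x - y)) +
        g.derivative.eval y * (x - y) ^ 2 := by
    simp only [eval_mul, eval_X, derivative_mul, derivative_X, mul_one, eval_add]
    ring
  rw [e]
  refine (abs_add_le _ _).trans ?_
  rw [abs_mul, abs_mul, abs_of_nonneg (sq_nonneg (x - y))]
  have h3 : |x| * |g.eval x - g.eval y - g.derivative.eval y * (x - y)| ≤
      2 * (K * (x - y) ^ 2) := mul_le_mul hx h1 (abs_nonneg _) (by norm_num)
  have h4 : |g.derivative.eval y| * (x - y) ^ 2 ≤ B * (x - y) ^ 2 :=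
    mul_le_mul_of_nonneg_right h2 (sq_nonneg _)
  linarith

/-- Taylor with a uniform constant, by induction on the polynomial -/
theorem poly_taylor (g : ℝ[X]) : ∃ K : ℝ, 0 ≤ K ∧ ∀ x y : ℝ, |x| ≤ 2 → |y| ≤ 2 →
    |g.eval x - g.eval y - g.derivative.eval y * (x - y)| ≤ K * (x - y) ^ 2 := by
  induction g using Polynomial.induction_on with
  | C a => exact ⟨0, le_rfl, fun x y _ _ => by simp⟩
  | add p q hp hq =>
    obtain ⟨K₁, h₁, hK₁⟩ := hp
    obtain ⟨K₂, h₂, hK₂⟩ := hq
    refine ⟨K₁ + K₂, add_nonneg h₁ h₂, fun x y hx hy => ?_⟩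
    have e : (p + q).eval x - (p + q).eval y - (p + q).derivative.eval y * (x - y) =
        (p.eval x - p.eval y - p.derivative.eval y * (x - y)) +
          (q.eval x - q.eval y - q.derivative.eval y * (x - y)) := by
      simp only [eval_add, derivative_add]
      ring
    rw [e, add_mul]
    exact (abs_add_le _ _).trans (add_le_add (hK₁ x y hx hy) (hK₂ x y hx hy))
  | monomial n a ih =>
    obtain ⟨K, h0, hK⟩ := ih
    have e : C a * X ^ (n + 1) = C a * X ^ n * X := by rw [pow_succ, mul_assoc]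
    rw [e]
    exact taylor_mul_X _ h0 hK

/-- every polynomial of degree `≤ d` has an antiderivative of degree `≤ d + 1` -/
theorem exists_anti (h : ℝ[X]) {d : ℕ} (hd : h.degree ≤ d) :
    ∃ g : ℝ[X], g.derivative = h ∧ g.degree ≤ (d + 1 : ℕ) := by
  refine ⟨∑ i ∈ range (d + 1), C (h.coeff i / (i + 1)) * X ^ (i + 1), ?_, ?_⟩
  · have h1 : h.natDegree < d + 1 := Nat.lt_succ_of_le (natDegree_le_of_degree_le hd)
    conv_rhs => rw [h.as_sum_range_C_mul_X_pow' h1]
    rw [derivative_sum]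
    refine sum_congr rfl fun i _ => ?_
    rw [derivative_C_mul_X_pow]
    have h2 : (i : ℝ) + 1 ≠ 0 := by positivity
    push_cast
    rw [div_mul_cancel₀ _ h2]
  · rw [← mem_degreeLE]
    refine Submodule.sum_mem _ fun i hi => ?_
    rw [mem_range] at hi
    rw [mem_degreeLE]
    refine (degree_C_mul_X_pow_le _ _).trans ?_
    exact_mod_cast (by omega : i + 1 ≤ d + 1)

end Pool.Agent.MP658x
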