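import Pool.Agent.Lib.MP_658dbf_an_X.PatDefs

/-!
# MP_658dbf_an, project X: the alternating sum over the Chebyshev nodes
-/

set_option autoImplicit false

namespace Pool.Agent.MP658x

open Finset Polynomial

private theorem ChebSumA_cos {k : ℕ} (hk : 1 ≤ k) (l : ℤ) (hl : |l| < k) :
    ∑ i ∈ range k, (-1 : ℝ) ^ i * (Real.cos (l * (i * Real.pi / k)) -
      Real.cos (l * ((i + 1 : ℕ) * Real.pi / k))) = 0 := by
  have hk0 : (k : ℝ) ≠ 0 := by positivity
  have hkpos : (0 : ℝ) < k := by positivity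
  set α : ℝ := l * Real.pi / k with hα
  have hlr : |(l : ℝ)| < k := by exact_mod_cast hl
  have habs : |α / 2| < Real.pi / 2 := by
    rw [hα, abs_div, abs_div, abs_mul, abs_of_pos Real.pi_pos, abs_of_pos hkpos,
      abs_of_pos (two_pos : (0 : ℝ) < 2), div_lt_div_iff_of_pos_right two_pos,
      div_lt_iff₀ hkpos]
    nlinarith [Real.pi_pos]
  have hcos : 0 < Real.cos (α / 2) := by
    apply Real.cos_pos_of_mem_Ioo
    rw [abs_lt] at habs
    exact ⟨habs.1, habs.2⟩
  have hterm : ∀ i ∈ range k, (2 * Real.cos (α / 2)) * ((-1 : ℝ) ^ i *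
      (Real.cos (l * (i * Real.pi / k)) - Real.cos (l * ((i + 1 : ℕ) * Real.pi / k)))) =
      2 * Real.sin (α / 2) * (-1 : ℝ) ^ i * Real.sin (i * α) -
        2 * Real.sin (α / 2) * (-1 : ℝ) ^ (i + 1) * Real.sin ((i + 1 : ℕ) * α) := by
    intro i _
    have h1 : (l : ℝ) * (i * Real.pi / k) = (i + 1 / 2) * α - α / 2 := by
      rw [hα]
      ring
    have h2 : (l : ℝ) * ((i + 1 : ℕ) * Real.pi / k) = (i + 1 / 2) * α + α / 2 := by
      rw [hα]
      push_cast
      ring
    have h3 : (i : ℝ) * α = (i + 1 / 2) * α - α / 2 := by ring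
    have h4 : ((i + 1 : ℕ) : ℝ) * α = (i + 1 / 2) * α + α / 2 := by
      push_cast
      ring
    rw [h1, h2, h3, h4, Real.cos_sub, Real.cos_add, Real.sin_sub, Real.sin_add]
    ring
  have hsum : (2 * Real.cos (α / 2)) * ∑ i ∈ range k, (-1 : ℝ) ^ i *
      (Real.cos (l * (i * Real.pi / k)) - Real.cos (l * ((i + 1 : ℕ) * Real.pi / k))) = 0 := by
    rw [mul_sum, sum_congr rfl hterm,
      sum_range_sub' (fun i : ℕ => 2 * Real.sin (α / 2) * (-1 : ℝ) ^ i * Real.sin (i * α))]
    have h5 : (k : ℝ) * α = l * Real.pi := by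
      rw [hα]
      field_simp
    rw [h5, Real.sin_int_mul_pi]
    simp
  rcases mul_eq_zero.1 hsum with h | h
  · exfalso
    linarith
  · exact h

private theorem ChebSumA_pow {k : ℕ} (hk : 1 ≤ k) (m : ℕ) : ∀ l : ℤ, |l| + m < k →
    ∑ i ∈ range k, (-1 : ℝ) ^ i *
      (Real.cos (i * Real.pi / k) ^ m * Real.cos (l * (i * Real.pi / k)) -
        Real.cos ((i + 1 : ℕ) * Real.pi / k) ^ m *
          Real.cos (l * ((i + 1 : ℕ) * Real.pi / k))) = 0 := by
  induction m with
  | zero =>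
    intro l hl
    have := ChebSumA_cos hk l (by simpa using hl)
    simpa only [pow_zero, one_mul] using this
  | succ m ih =>
    intro l hl
    have hl1 : |l + 1| + m < k := by
      have := abs_add_le l 1
      rw [abs_one] at this
      push_cast at hl
      omega
    have hl2 : |l - 1| + m < k := by
      have := abs_sub l 1
      rw [abs_one] at this
      push_cast at hl
      omega
    have h1 := ih (l + 1) hl1
    have h2 := ih (l - 1) hl2
    have key : ∀ (l : ℤ) (x : ℝ), Real.cos x ^ (m + 1) * Real.cos (l * x) =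
        (1 / 2) * (Real.cos x ^ m * Real.cos ((l + 1 : ℤ) * x)) +
          (1 / 2) * (Real.cos x ^ m * Real.cos ((l - 1 : ℤ) * x)) := by
      intro l x
      have e1 : ((l + 1 : ℤ) : ℝ) * x = l * x + x := by
        push_cast
        ring
      have e2 : ((l - 1 : ℤ) : ℝ) * x = l * x - x := by
        push_cast
        ring
      rw [e1, e2, Real.cos_add, Real.cos_sub]
      ring
    have hs : ∑ i ∈ range k, (-1 : ℝ) ^ i *
      (Real.cos (i * Real.pi / k) ^ (m + 1) * Real.cos (l * (i * Real.pi / k)) -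
        Real.cos ((i + 1 : ℕ) * Real.pi / k) ^ (m + 1) *
          Real.cos (l * ((i + 1 : ℕ) * Real.pi / k)))
      = (1 / 2) * (∑ i ∈ range k, (-1 : ℝ) ^ i *
        (Real.cos (i * Real.pi / k) ^ m * Real.cos ((l + 1 : ℤ) * (i * Real.pi / k)) -
          Real.cos ((i + 1 : ℕ) * Real.pi / k) ^ m *
            Real.cos ((l + 1 : ℤ) * ((i + 1 : ℕ) * Real.pi / k)))) +
        (1 / 2) * (∑ i ∈ range k, (-1 : ℝ) ^ i *
        (Real.cos (i * Real.pi / k) ^ m * Real.cos ((l - 1 : ℤ) * (i * Real.pi / k)) -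
          Real.cos ((i + 1 : ℕ) * Real.pi / k) ^ m *
            Real.cos ((l - 1 : ℤ) * ((i + 1 : ℕ) * Real.pi / k)))) := by
      rw [mul_sum, mul_sum, ← sum_add_distrib]
      refine sum_congr rfl fun i _ => ?_
      rw [key, key]
      ring
    rw [hs, h1, h2]
    ring

/-- `∑_{i < k} (-1)^i (g (τ i) - g (τ (i+1))) = 0` for `deg g < k`: expand `g` in powers, reduce
`cos^j` to the functions `cos (l θ)`, `|l| < k`, and telescope. -/
theorem cheb_sum {k : ℕ} (hk : 1 ≤ k) (g : ℝ[X]) (hg : g.degree < k) :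
    ∑ i ∈ range k, (-1 : ℝ) ^ i * (g.eval (tau k i) - g.eval (tau k (i + 1))) = 0 := by
  have hnat : g.natDegree < k := by
    rcases eq_or_ne g 0 with h | h
    · rw [h, natDegree_zero]
      omega
    · rwa [natDegree_lt_iff_degree_lt h]
  have hev : ∀ i : ℕ, g.eval (tau k i) =
      ∑ j ∈ range k, g.coeff j * (-1) ^ j * Real.cos (i * Real.pi / k) ^ j := by
    intro i
    rw [eval_eq_sum_range' hnat]
    refine sum_congr rfl fun j _ => ?_
    rw [tau, neg_pow]
    ring
  have hj : ∀ j ∈ range k, ∑ i ∈ range k, (-1 : ℝ) ^ i *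
      (Real.cos (i * Real.pi / k) ^ j - Real.cos ((i + 1 : ℕ) * Real.pi / k) ^ j) = 0 := by
    intro j hj
    have := ChebSumA_pow hk j 0 (by rw [abs_zero, zero_add]; exact_mod_cast mem_range.1 hj)
    simpa only [Int.cast_zero, zero_mul, Real.cos_zero, mul_one] using this
  have hs : ∑ i ∈ range k, (-1 : ℝ) ^ i * (g.eval (tau k i) - g.eval (tau k (i + 1)))
    = ∑ j ∈ range k, (g.coeff j * (-1) ^ j) * ∑ i ∈ range k, (-1 : ℝ) ^ i *
      (Real.cos (i * Real.pi / k) ^ j - Real.cos ((i + 1 : ℕ) * Real.pi / k) ^ j) := by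
    simp_rw [hev, ← sum_sub_distrib, mul_sum]
    rw [sum_comm]
    refine sum_congr rfl fun j _ => sum_congr rfl fun i _ => ?_
    ring
  rw [hs]
  refine sum_eq_zero fun j hj' => ?_
  rw [hj j hj', mul_zero]

end Pool.Agent.MP658x
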