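import Pool.Agent.Lib.MP_658dbf_an.Final

/-!
# MP_658dbf_an, project X: definitions

Functions `f : ℤ → ℤ` with finite support replace coefficient lists. `Dl` is the difference
(multiplication by `1 - z`), `Ch`/`ChR` are alternating chains read to the left/right.
-/

set_option autoImplicit false

namespace Pool.Agent.MP658x

open Finset

/-- difference -/
def Dl (f : ℤ → ℤ) (n : ℤ) : ℤ := f n - f (n - 1)

/-- support in `[0, N)` -/
def Sup (N : ℕ) (f : ℤ → ℤ) : Prop := ∀ n : ℤ, n < 0 ∨ (N : ℤ) ≤ n → f n = 0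

/-- alternating chain: `n` points `≤ x`, the rightmost has sign `s`, signs alternate -/
def Ch (f : ℤ → ℤ) : ℕ → ℤ → ℤ → Prop
  | 0, _, _ => True
  | n + 1, s, x => ∃ y, y ≤ x ∧ 0 < s * f y ∧ Ch f n (-s) (y - 1)

/-- alternating chain: `n` points `≥ x`, the leftmost has sign `s`, signs alternate -/
def ChR (f : ℤ → ℤ) : ℕ → ℤ → ℤ → Prop
  | 0, _, _ => True
  | n + 1, s, x => ∃ y, x ≤ y ∧ 0 < s * f y ∧ ChR f n (-s) (y + 1)

/-- a sign -/
def Sn (s : ℤ) : Prop := s = 1 ∨ s = -1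

/-- total variation on `(-1, N]` -/
noncomputable def TV (N : ℕ) (f : ℤ → ℤ) : ℤ := ∑ n ∈ Ioc (-1 : ℤ) N, |Dl f n|

/-- property (U): no dip (for `f` and `-f`) without a change of sign in between -/
def Uni (f : ℤ → ℤ) : Prop := ∀ s a c b : ℤ, Sn s → a < c → c < b →
  s * f c < s * f a → s * f c < s * f b → ∃ z, a < z ∧ z < b ∧ s * f z < 0

/-- kernel -/
noncomputable def ac (κ : ℕ → ℝ) (w : ℝ) (d : ℤ) : ℝ := if d = 0 then w else -κ d.natAbs

/-- energy of a function with support in `[0, N)` -/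
noncomputable def E (κ : ℕ → ℝ) (w : ℝ) (N : ℕ) (q : ℤ → ℤ) : ℝ :=
  ∑ m ∈ Ico (0 : ℤ) N, ∑ n ∈ Ico (0 : ℤ) N, ac κ w (m - n) * ((q m : ℝ) * q n)

/-- the properties of the kernel and its tail sums -/
structure Ker (κ T : ℕ → ℝ) : Prop where
  nonneg : ∀ n, 0 ≤ κ n
  anti : ∀ n, 1 ≤ n → κ (n + 1) ≤ κ n
  trec : ∀ n, T n = κ n + T (n + 1)
  tnonneg : ∀ n, 0 ≤ T n

/-- the basic lower bound of the energy -/
noncomputable def Bd (κ T : ℕ → ℝ) (k : ℕ) : ℝ := 4 * k * T 1 - 2 * ((k : ℝ) - 1) * κ 1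

/-- list to function -/
def fl (l : List ℤ) (n : ℤ) : ℤ := if n < 0 then 0 else l.getD n.toNat 0

/-- sum of squares -/
def sq (l : List ℤ) : ℤ := (l.map (fun x => x ^ 2)).sum

/-- `k` alternating blocks: sign `δ (-1)^i` on the open interval `(y i, y (i+1))` -/
def blk (δ : ℤ) (y : ℕ → ℤ) (k : ℕ) (n : ℤ) : ℤ :=
  ∑ i ∈ range k, if y i < n ∧ n < y (i + 1) then δ * (-1) ^ i else 0

/-- the moment conditions for the block pattern -/
def Mom (k : ℕ) (y : ℕ → ℤ) : Prop := ∀ g : Polynomial ℤ, g.degree < k →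
  ∑ i ∈ range k, (-1 : ℤ) ^ i * (g.eval (y i + 1) - g.eval (y (i + 1))) = 0

end Pool.Agent.MP658x
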