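import Pool.Agent.Lib.MP_658dbf_an_X.TVar

/-!
# MP_658dbf_an, project X: discrete Rolle theorem for chains
-/

set_option autoImplicit false

namespace Pool.Agent.MP658x

open Finset

variable {f : ℤ → ℤ} {N n : ℕ} {s x : ℤ}

/-- Induction on `n` generalizing `s x`: top point `y`. If `n = 0`: `exists_rise` on `(-1, y]`. Else
the next point `y'` (sign `-s`): induction hypothesis at `(y', -s)` and `exists_rise` on `(y', y]`. -/
theorem rolle_left (hf : ∀ z < 0, f z = 0) (hs : Sn s) (h : Ch f n s x) : Ch (Dl f) n s x := by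
  induction n generalizing s x with
  | zero => trivial
  | succ n ih =>
    obtain ⟨y, hyx, hy, h2⟩ := h
    cases n with
    | zero =>
      have hy0 : -1 ≤ y := by
        by_contra hc
        rw [hf y (by omega), mul_zero] at hy
        exact lt_irrefl _ hy
      obtain ⟨z, hz1, hz2, hz3⟩ := exists_rise (f := f) (s := s) hy0 (by
        rw [hf (-1) (by norm_num), mul_zero]
        exact hy)
      exact Ch_cons hz3 (hz2.trans hyx) trivial
    | succ n =>
      obtain ⟨y', hy'1, hy'2, hy'3⟩ := h2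
      obtain ⟨z, hz1, hz2, hz3⟩ := exists_rise (f := f) (s := s) (x := y') (y := y) (by omega) (by
        rw [neg_mul] at hy'2
        linarith)
      have h3 : Ch (Dl f) (n + 1) (-s) y' := ih (Sn_neg hs) ⟨y', le_refl _, hy'2, hy'3⟩
      exact Ch_cons hz3 (hz2.trans hyx) (Ch_mono h3 (by omega))

/-- Induction on `n`: first point `y ≥ x` (sign `s`); if there is a next point `y' > y` (sign `-s`):
`exists_rise` for `-s` on `(y, y']`, hypothesis at `y'`; if not, on `(y, max y N]` (`f` vanishes at the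
right end; note `y < N`). -/
theorem rolle_right (hf : Sup N f) (hs : Sn s) (h : ChR f n s x) :
    ChR (Dl f) n (-s) (x + 1) := by
  induction n generalizing s x with
  | zero => trivial
  | succ n ih =>
    obtain ⟨y, hyx, hy, h2⟩ := h
    cases n with
    | zero =>
      obtain ⟨z, hz1, hz2, hz3⟩ := exists_rise (f := f) (s := -s) (x := y)
        (y := max y (N : ℤ)) (le_max_left _ _) (by
          rw [hf (max y (N : ℤ)) (Or.inr (le_max_right _ _)), mul_zero]
          linarith)
      exact ⟨z, by omega, hz3, trivial⟩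
    | succ n =>
      obtain ⟨y', hy'1, hy'2, hy'3⟩ := h2
      obtain ⟨z, hz1, hz2, hz3⟩ := exists_rise (f := f) (s := -s) (x := y) (y := y')
        (by omega) (by linarith)
      have h3 : ChR (Dl f) (n + 1) (- -s) (y' + 1) :=
        ih (Sn_neg hs) ⟨y', le_refl _, hy'2, hy'3⟩
      exact ⟨z, by omega, hz3, ChR_mono h3 (by omega)⟩

/-- top point `y`: `rolle_left` for `Ch f n s y`, `rolle_right` for `ChR f 1 s y`, `Ch_join` -/
theorem rolle_step (hf : Sup N f) (hn : 1 ≤ n) (hs : Sn s) (h : Ch f n s x) :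
    ∃ s' x', Sn s' ∧ Ch (Dl f) (n + 1) s' x' := by
  obtain ⟨m, rfl⟩ : ∃ m, n = m + 1 := ⟨n - 1, by omega⟩
  obtain ⟨y, hyx, hy, h2⟩ := h
  have h3 : Ch (Dl f) (m + 1) s y :=
    rolle_left (fun z hz => hf z (Or.inl hz)) hs ⟨y, le_refl _, hy, h2⟩
  have h4 : ChR (Dl f) 1 (-s) (y + 1) := rolle_right hf hs (ChR_of_pos hy)
  exact Ch_join hs h3 h4

end Pool.Agent.MP658x
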