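import Pool.Agent.Lib.MP_658dbf_an_X.Split
import Pool.Agent.Lib.MP_658dbf_an_X.Rolle

/-!
# MP_658dbf_an, project X: structure when the total variation of `Q = Dl S` is minimal

Hypotheses: `S` has support in `[0, N)` and an alternating chain of `k ≥ 1` points, and
`∑ |Dl Q| ≤ 2 (k + 1)`.
-/

set_option autoImplicit false

namespace Pool.Agent.MP658x

open Finset

variable {S : ℤ → ℤ} {N k : ℕ} {σ x : ℤ}

theorem sup_Dl (hS : Sup N S) : Sup (N + 1) (Dl S) := by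
  intro n hn
  unfold Dl
  push_cast at hn
  rcases hn with h | h
  · rw [hS n (Or.inl h), hS (n - 1) (Or.inl (by omega))]
    simp
  · rw [hS n (Or.inr (by omega)), hS (n - 1) (Or.inr (by omega))]
    simp

/-- `tv_total` for `Q` -/
theorem B_chain (hS : Sup N S) (hTV : TV (N + 1) (Dl S) ≤ 2 * ((k : ℤ) + 1)) {m : ℕ} {τ z : ℤ}
    (hτ : Sn τ) (h : Ch (Dl S) m τ z) : m ≤ k + 1 := by
  have h1 := tv_total (sup_Dl hS) hτ h
  omega

private theorem FactsB_abs {s u : ℤ} (hs : Sn s) (h : 0 < s * u) : |u| = s * u := by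
  rcases hs with rfl | rfl
  · rw [abs_of_pos (by linarith)]; ring
  · rw [abs_of_neg (by linarith)]; ring

private theorem FactsB_split {f : ℤ → ℤ} {a b c : ℤ} (h1 : a ≤ b) (h2 : b ≤ c) :
    ∑ z ∈ Ioc a c, |Dl f z| = ∑ z ∈ Ioc a b, |Dl f z| + ∑ z ∈ Ioc b c, |Dl f z| := by
  rw [← Finset.Ioc_union_Ioc_eq_Ioc h1 h2, Finset.sum_union]
  rw [Finset.disjoint_left]
  intro z hz hz'
  rw [Finset.mem_Ioc] at hz hz'
  omega

private theorem FactsB_range {n : ℤ} (hS : Sup N S) (h : Dl S n ≠ 0) :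
    -1 ≤ n ∧ n ≤ ((N + 1 : ℕ) : ℤ) := by
  by_contra hcon
  apply h
  apply sup_Dl hS
  by_contra h2
  apply hcon
  constructor
  · by_contra h3
    exact h2 (Or.inl (by omega))
  · by_contra h3
    exact h2 (Or.inr (by omega))

/-- `Q` has a chain of `k + 1` points (`rolle_step`). If `Q n ≠ 0` has sign `s`: `split` with
`a = b = n`, `tv_left`, `tv_right` and `Ioc (-1) n ∪ Ioc n (N + 1)`: `2 (L - 1) + |Q n| + 2 (R - 1) + |Q n|
≤ 2 (k + 1)` with `L + R ≥ k + 2`. -/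
theorem B_lip (hS : Sup N S) (hk : 1 ≤ k) (hσ : Sn σ) (hc : Ch S k σ x)
    (hTV : TV (N + 1) (Dl S) ≤ 2 * ((k : ℤ) + 1)) (n : ℤ) : |Dl S n| ≤ 1 := by
  by_cases h0 : Dl S n = 0
  · rw [h0]; simp
  obtain ⟨s, hs, hsn⟩ := exists_sign h0
  obtain ⟨s', x', hs', hx'⟩ := rolle_step hS hk hσ hc
  obtain ⟨L, R, hL, hR, hLR, h1, h2⟩ := split (a := n) (b := n) hs le_rfl
    (fun z hz hz' => by
      have : z = n := le_antisymm hz' hz
      rw [this]; exact hsn.le) hsn hsn hs' hx'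
  obtain ⟨L, rfl⟩ : ∃ L', L = L' + 1 := ⟨L - 1, by omega⟩
  obtain ⟨R, rfl⟩ : ∃ R', R = R' + 1 := ⟨R - 1, by omega⟩
  have hQ := sup_Dl hS
  have h3 := tv_left (fun z hz => hQ z (Or.inl hz)) hs h1 hsn.le
  have h4 := tv_right hQ hs h2 hsn.le
  obtain ⟨hr1, hr2⟩ := FactsB_range hS h0
  have h5 : TV (N + 1) (Dl S) = _ := FactsB_split (f := Dl S) hr1 hr2
  rw [h5] at hTV
  omega

/-- Otherwise `s S ≥ 0` on `(a, b)`, so `s S a, s S b > s S c ≥ 0`; `split` for `S` and `[a, b]`: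
`L + R ≥ k + 1`; `rolle_left` gives `Ch Q L s a`, `exists_rise` gives `z₁ ∈ (a, c]` of sign `-s` and
`z₂ ∈ (c, b]` of sign `s`, `rolle_right` gives `ChR Q R (-s) (b + 1)`. Together (`Ch_join`) a chain of
`L + R + 2 ≥ k + 3` points of `Q`: contradiction with `B_chain`. -/
theorem B_uni (hS : Sup N S) (hk : 1 ≤ k) (hσ : Sn σ) (hc : Ch S k σ x)
    (hTV : TV (N + 1) (Dl S) ≤ 2 * ((k : ℤ) + 1)) : Uni S := by
  intro s a c b hs hac hcb h1 h2
  by_contra hcon
  have hnn : ∀ z, a < z → z < b → 0 ≤ s * S z := by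
    intro z hz hz'
    by_contra h3
    exact hcon ⟨z, hz, hz', by linarith⟩
  have hcc := hnn c hac hcb
  have ha : 0 < s * S a := by linarith
  have hb : 0 < s * S b := by linarith
  obtain ⟨L, R, hL, hR, hLR, h3, h4⟩ := split (f := S) (a := a) (b := b) hs (by omega)
    (fun z hz hz' => by
      rcases hz.eq_or_lt with h | h
      · rw [← h]; exact ha.le
      · rcases hz'.eq_or_lt with h' | h'
        · rw [h']; exact hb.le
        · exact hnn z h h') ha hb hσ hc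
  have h5 := rolle_left (fun z hz => hS z (Or.inl hz)) hs h3
  have h6 := rolle_right hS hs h4
  obtain ⟨z1, hz1, hz1', hz1s⟩ := exists_rise (f := S) (s := -s) hac.le (by linarith)
  obtain ⟨z2, hz2, hz2', hz2s⟩ := exists_rise (f := S) (s := s) hcb.le h2
  have h7 : Ch (Dl S) (L + 1) (-s) z1 := by
    refine Ch_cons hz1s le_rfl ?_
    rw [neg_neg]
    exact Ch_mono h5 (by omega)
  have h8 : Ch (Dl S) (L + 1 + 1) s b := by
    refine Ch_cons hz2s hz2' ?_
    exact Ch_mono h7 (by omega)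
  obtain ⟨s', x', hs', h9⟩ := Ch_join hs h8 h6
  have h10 := B_chain hS hTV hs' h9
  omega

/-- Otherwise `s Q ≥ 0` on `[a, b]`; `split` for `Q` (chain of `k + 1` points): `L + R ≥ k + 2`;
`tv_left` at `a`, `tel_abs` on `(a, c]` and `(c, b]`, `tv_right` at `b`: the total variation is
`≥ 2 (L - 1) + s Q a + (s Q a - s Q c) + (s Q b - s Q c) + 2 (R - 1) + s Q b ≥ 2 k + 4`. -/
theorem B_uniQ (hS : Sup N S) (hk : 1 ≤ k) (hσ : Sn σ) (hc : Ch S k σ x)
    (hTV : TV (N + 1) (Dl S) ≤ 2 * ((k : ℤ) + 1)) : Uni (Dl S) := by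
  intro s a c b hs hac hcb h1 h2
  by_contra hcon
  have hnn : ∀ z, a < z → z < b → 0 ≤ s * Dl S z := by
    intro z hz hz'
    by_contra h3
    exact hcon ⟨z, hz, hz', by linarith⟩
  have hcc := hnn c hac hcb
  have ha : 0 < s * Dl S a := by linarith
  have hb : 0 < s * Dl S b := by linarith
  obtain ⟨s', x', hs', hx'⟩ := rolle_step hS hk hσ hc
  obtain ⟨L, R, hL, hR, hLR, h3, h4⟩ := split (f := Dl S) (a := a) (b := b) hs (by omega)
    (fun z hz hz' => by
      rcases hz.eq_or_lt with h | h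
      · rw [← h]; exact ha.le
      · rcases hz'.eq_or_lt with h' | h'
        · rw [h']; exact hb.le
        · exact hnn z h h') ha hb hs' hx'
  obtain ⟨L, rfl⟩ : ∃ L', L = L' + 1 := ⟨L - 1, by omega⟩
  obtain ⟨R, rfl⟩ : ∃ R', R = R' + 1 := ⟨R - 1, by omega⟩
  have hQ := sup_Dl hS
  have h5 := tv_left (fun z hz => hQ z (Or.inl hz)) hs h3 ha.le
  have h6 := tv_right hQ hs h4 hb.le
  have ha0 : Dl S a ≠ 0 := by
    intro h
    rw [h] at ha
    simp at ha
  have hb0 : Dl S b ≠ 0 := by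
    intro h
    rw [h] at hb
    simp at hb
  obtain ⟨hra, -⟩ := FactsB_range hS ha0
  obtain ⟨-, hrb⟩ := FactsB_range hS hb0
  have h7 : TV (N + 1) (Dl S) = _ := FactsB_split (f := Dl S) hra
    (show a ≤ ((N + 1 : ℕ) : ℤ) by omega)
  have h8 := FactsB_split (f := Dl S) hac.le (show c ≤ ((N + 1 : ℕ) : ℤ) by omega)
  have h9 := FactsB_split (f := Dl S) hcb.le hrb
  have h10 : s * Dl S a - s * Dl S c ≤ ∑ z ∈ Ioc a c, |Dl (Dl S) z| := by
    refine le_trans ?_ (tel_abs (f := Dl S) hac.le)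
    rcases hs with rfl | rfl
    · have := neg_abs_le (Dl S c - Dl S a); linarith
    · have := le_abs_self (Dl S c - Dl S a); linarith
  have h11 : s * Dl S b - s * Dl S c ≤ ∑ z ∈ Ioc c b, |Dl (Dl S) z| := by
    refine le_trans ?_ (tel_abs (f := Dl S) hcb.le)
    rcases hs with rfl | rfl
    · have := le_abs_self (Dl S b - Dl S c); linarith
    · have := neg_abs_le (Dl S b - Dl S c); linarith
  rw [FactsB_abs hs ha] at h5
  rw [FactsB_abs hs hb] at h6
  rw [h7, h8, h9] at hTV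
  omega

end Pool.Agent.MP658x
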