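import Pool.Agent.Lib.MP_658dbf_an_X.Bridge2
import Pool.Agent.Lib.MP_658dbf_an_X.CaseA
import Pool.Agent.Lib.MP_658dbf_an_X.FactsB

/-!
# MP_658dbf_an, project X: case A or minimal total variation
-/

set_option autoImplicit false

namespace Pool.Agent.MP658x

open Finset
open Pool.Agent.MP658dbf (K En dla dl fnz)

/-- With `Q = fl (dl^[m + 1] p) = Dl S` and `R = Dl Q`: `sq (dl (dl^[m+1] p)) = ∑ R²` (`sq_fl`, `fl_dl`),
`∑ |R| ≤ ∑ R²`, `∑ R = 0`, so `∑ R²` is even. If `∑ R² < 2 (m + 1) + 4` then `∑ R² ≤ 2 (m + 1) + 2`. -/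
theorem dichotomy (m : ℕ) (p : List ℤ) :
    2 * ((m + 1 : ℕ) : ℤ) + 4 ≤ sq (dl (dl^[m + 1] p)) ∨
      TV ((dl^[m] p).length + 1) (Dl (fl (dl^[m] p))) ≤ 2 * (((m + 1 : ℕ) : ℤ) + 1) := by
  set N := (dl^[m] p).length with hN
  set S := fl (dl^[m] p) with hS
  have hlen : (dl (dl^[m + 1] p)).length ≤ N + 2 := by
    rw [length_dl, Function.iterate_succ_apply', length_dl]
  have hR : fl (dl (dl^[m + 1] p)) = Dl (Dl S) := by
    rw [fl_dl, Function.iterate_succ_apply', fl_dl]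
  have hsq : sq (dl (dl^[m + 1] p)) = ∑ n ∈ Ioc (-1 : ℤ) ((N + 1 : ℕ) : ℤ), Dl (Dl S) n ^ 2 := by
    rw [sq_fl _ hlen, hR]
    refine sum_congr ?_ fun _ _ => rfl
    ext n
    simp only [mem_Ico, mem_Ioc]
    push_cast
    omega
  have hsup : Sup (N + 1) (Dl S) := sup_Dl (sup_fl _)
  have hsum : ∑ n ∈ Ioc (-1 : ℤ) ((N + 1 : ℕ) : ℤ), Dl (Dl S) n = 0 := by
    rw [tel (by push_cast; omega)]
    rw [hsup _ (Or.inr le_rfl), hsup _ (Or.inl (by norm_num)), sub_zero]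
  by_cases h : 2 * ((m + 1 : ℕ) : ℤ) + 4 ≤ sq (dl (dl^[m + 1] p))
  · exact Or.inl h
  right
  push Not at h
  rw [hsq] at h
  have h1 : TV (N + 1) (Dl S) ≤ ∑ n ∈ Ioc (-1 : ℤ) ((N + 1 : ℕ) : ℤ), Dl (Dl S) n ^ 2 := by
    unfold TV
    refine sum_le_sum fun n _ => ?_
    rcases eq_or_ne (Dl (Dl S) n) 0 with h0 | h0
    · rw [h0]
      norm_num
    · have h4 := Int.one_le_abs h0
      rw [← sq_abs]
      nlinarith
  have h2 : Even (∑ n ∈ Ioc (-1 : ℤ) ((N + 1 : ℕ) : ℤ), Dl (Dl S) n ^ 2) := by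
    have h3 : ∑ n ∈ Ioc (-1 : ℤ) ((N + 1 : ℕ) : ℤ), Dl (Dl S) n ^ 2 =
        ∑ n ∈ Ioc (-1 : ℤ) ((N + 1 : ℕ) : ℤ), (Dl (Dl S) n ^ 2 - Dl (Dl S) n) := by
      rw [sum_sub_distrib, hsum, sub_zero]
    rw [h3]
    refine Finset.even_sum _ fun n _ => ?_
    have h4 : Dl (Dl S) n ^ 2 - Dl (Dl S) n = Dl (Dl S) n * (Dl (Dl S) n - 1) := by ring
    rw [h4]
    exact Int.even_mul_pred_self _
  obtain ⟨r, hr⟩ := h2
  generalize (∑ n ∈ Ioc (-1 : ℤ) ((N + 1 : ℕ) : ℤ), Dl (Dl S) n ^ 2) = X at h h1 hr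
  generalize TV (N + 1) (Dl S) = Y at h1 ⊢
  omega

end Pool.Agent.MP658x
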