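import Pool.Agent.Lib.MP_658dbf_an_X.Defs

/-!
# MP_658dbf_an, project X: there is no block pattern with six blocks
-/

set_option autoImplicit false

namespace Pool.Agent.MP658x

open Finset

private theorem dio6_e3 {a b c d e : ℤ} (p1 : a + b + c + d + e = 0)
    (p3 : a ^ 3 + b ^ 3 + c ^ 3 + d ^ 3 + e ^ 3 = 0) :
    a * b * c + a * b * d + a * b * e + a * c * d + a * c * e + a * d * e + b * c * d + b * c * e +
      b * d * e + c * d * e = 0 := by
  have h : 3 * (a * b * c + a * b * d + a * b * e + a * c * d + a * c * e + a * d * e +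
      b * c * d + b * c * e + b * d * e + c * d * e) = 0 := by
    linear_combination p3 - ((a + b + c + d + e) ^ 2 - 3 * (a * b + a * c + a * d + a * e + b * c +
      b * d + b * e + c * d + c * e + d * e)) * p1
  omega

private theorem dio6_e5 {a b c d e : ℤ} (p1 : a + b + c + d + e = 0)
    (p3 : a ^ 3 + b ^ 3 + c ^ 3 + d ^ 3 + e ^ 3 = 0)
    (p5 : a ^ 5 + b ^ 5 + c ^ 5 + d ^ 5 + e ^ 5 = 0) : a * b * c * d * e = 0 := by
  have h3 := dio6_e3 p1 p3
  have h : 5 * (a * b * c * d * e) = 0 := by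
    linear_combination p5 - ((a + b + c + d + e) ^ 4 - 5 * (a + b + c + d + e) ^ 2 * (a * b + a * c +
      a * d + a * e + b * c + b * d + b * e + c * d + c * e + d * e) + 5 * (a + b + c + d + e) *
      (a * b * c + a * b * d + a * b * e + a * c * d + a * c * e + a * d * e + b * c * d +
      b * c * e + b * d * e + c * d * e) + 5 * (a * b + a * c + a * d + a * e + b * c + b * d +
      b * e + c * d + c * e + d * e) ^ 2 - 5 * (a * b * c * d + a * b * c * e + a * b * d * e +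
      a * c * d * e + b * c * d * e)) * p1 + 5 * (a * b + a * c + a * d + a * e + b * c + b * d +
      b * e + c * d + c * e + d * e) * h3
  omega

private theorem dio6_sym {a b c d e : ℤ} (p1 : a + b + c + d + e = 0)
    (p3 : a ^ 3 + b ^ 3 + c ^ 3 + d ^ 3 + e ^ 3 = 0)
    (p5 : a ^ 5 + b ^ 5 + c ^ 5 + d ^ 5 + e ^ 5 = 0) :
    (-d - a) * (-d - b) * (-d - c) * (-d - d) * (-d - e) = 0 := by
  have h3 := dio6_e3 p1 p3
  have h5 := dio6_e5 p1 p3 p5
  linear_combination -2 * d ^ 4 * p1 - 2 * d ^ 2 * h3 - 2 * h5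

/-- five distinct ordered reals/integers `c1 < c2 < c3 < c4 < c5` whose alternating odd power sums
vanish: for `z = (c1, c3, c5, -c2, -c4)` the elementary symmetric functions `e1, e3, e5` vanish, so
`∏ (X - z_i) = X (X^4 + e2 X^2 + e4)` is odd: the multiset `z` is symmetric. `-c2` can only be paired
with `-c4` and not with `0`; so `c4 = -c2` and then `c3 = 0`, `c5 = -c1`. -/
theorem odd_five {c1 c2 c3 c4 c5 : ℤ} (h12 : c1 < c2) (h23 : c2 < c3) (h34 : c3 < c4)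
    (h45 : c4 < c5) (p1 : c1 - c2 + c3 - c4 + c5 = 0)
    (p3 : c1 ^ 3 - c2 ^ 3 + c3 ^ 3 - c4 ^ 3 + c5 ^ 3 = 0)
    (p5 : c1 ^ 5 - c2 ^ 5 + c3 ^ 5 - c4 ^ 5 + c5 ^ 5 = 0) :
    c4 = -c2 ∧ c3 = 0 ∧ c5 = -c1 := by
  have q2 := dio6_sym (a := c1) (b := c3) (c := c5) (d := -c2) (e := -c4)
    (by linear_combination p1) (by linear_combination p3) (by linear_combination p5)
  have q4 := dio6_sym (a := c1) (b := c3) (c := c5) (d := -c4) (e := -c2)
    (by linear_combination p1) (by linear_combination p3) (by linear_combination p5)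
  have h24 : c4 = -c2 := by
    by_contra hne
    have r2 : c2 = 0 := by
      simp only [mul_eq_zero] at q2
      omega
    have r4 : c4 = 0 := by
      simp only [mul_eq_zero] at q4
      omega
    omega
  have h0 : c1 + c3 + c5 = 0 := by omega
  have h3 : c1 * c3 * c5 = 0 := by
    have h : 3 * (c1 * c3 * c5) = 0 := by
      have h4 : c4 ^ 3 = -c2 ^ 3 := by rw [h24]; ring
      linear_combination p3 + h4 - (c1 ^ 2 + c3 ^ 2 + c5 ^ 2 - c1 * c3 - c1 * c5 - c3 * c5) * h0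
    omega
  have h5 : c3 = 0 := by
    simp only [mul_eq_zero] at h3
    omega
  exact ⟨h24, h5, by omega⟩

/-- Doubled centred coordinates: `A = y 6 - y 0 - 1`, `c_i = 2 y_i - y_0 - y_6` (`1 ≤ i ≤ 5`), so that
`2 (y_i + 1) - (y_0 + 1 + y_6) = c_i + 1`, `2 y_i - (y_0 + 1 + y_6) = c_i - 1`. The conditions for
`g = (2 X - (y_0 + 1 + y_6))^j`, `j = 1, 3, 5`: `∑ (-1)^i ((c_i - 1)^j + (c_i + 1)^j) = 0`, so `odd_five`
applies; with `r = c_5`, `s = c_4` the conditions `j = 2, 4` give `A² = 2 r² - 2 s² + 1` and `r² = 3 s² + 4`,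
so `A² = 4 s² + 9`, `(A - 2 s) (A + 2 s) = 9`, `s > 0`: `s = 2`, `r = 4`. But `c_5 - c_4 ≥ 4`. -/
theorem dio6 {y : ℕ → ℤ} (hy : ∀ i < 6, y i + 2 ≤ y (i + 1)) : ¬ Mom 6 y := by
  intro hM
  have h0 := hy 0 (by norm_num)
  have h1 := hy 1 (by norm_num)
  have h2 := hy 2 (by norm_num)
  have h3 := hy 3 (by norm_num)
  have h4 := hy 4 (by norm_num)
  have h5 := hy 5 (by norm_num)
  simp only [zero_add, Nat.reduceAdd] at h0 h1 h2 h3 h4 h5
  have key : ∀ j : ℕ, j < 6 → ∑ i ∈ range 6, (-1 : ℤ) ^ i *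
      ((2 * (y i + 1) - (y 0 + 1 + y 6)) ^ j - (2 * y (i + 1) - (y 0 + 1 + y 6)) ^ j) = 0 := by
    intro j hj
    have hdeg : ((2 * Polynomial.X - Polynomial.C (y 0 + 1 + y 6)) ^ j : Polynomial ℤ).degree <
        (6 : ℕ) := by
      have h1 : (2 * Polynomial.X - Polynomial.C (y 0 + 1 + y 6) : Polynomial ℤ).degree ≤ 1 := by
        refine (Polynomial.degree_sub_le _ _).trans (max_le ?_ ?_)
        · have h2' : (2 : Polynomial ℤ) = Polynomial.C 2 := rfl
          rw [h2']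
          exact Polynomial.degree_C_mul_X_le 2
        · exact Polynomial.degree_C_le.trans zero_le_one
      refine lt_of_le_of_lt (Polynomial.degree_pow_le_of_le j h1) ?_
      rw [mul_one]
      exact_mod_cast hj
    have := hM _ hdeg
    simpa using this
  have k1 := key 1 (by norm_num)
  have k2 := key 2 (by norm_num)
  have k3 := key 3 (by norm_num)
  have k4 := key 4 (by norm_num)
  have k5 := key 5 (by norm_num)
  simp only [Finset.sum_range_succ, Finset.sum_range_zero, zero_add, Nat.reduceAdd] at k1 k2 k3 k4 k5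
  clear key hM hy
  generalize y 0 = a0 at *
  generalize y 1 = a1 at *
  generalize y 2 = a2 at *
  generalize y 3 = a3 at *
  generalize y 4 = a4 at *
  generalize y 5 = a5 at *
  generalize y 6 = a6 at *
  obtain ⟨c1, hc1⟩ : ∃ c1, c1 = 2 * a1 - a0 - a6 := ⟨_, rfl⟩
  obtain ⟨c2, hc2⟩ : ∃ c2, c2 = 2 * a2 - a0 - a6 := ⟨_, rfl⟩
  obtain ⟨c3, hc3⟩ : ∃ c3, c3 = 2 * a3 - a0 - a6 := ⟨_, rfl⟩
  obtain ⟨c4, hc4⟩ : ∃ c4, c4 = 2 * a4 - a0 - a6 := ⟨_, rfl⟩
  obtain ⟨c5, hc5⟩ : ∃ c5, c5 = 2 * a5 - a0 - a6 := ⟨_, rfl⟩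
  obtain ⟨A, hA⟩ : ∃ A, A = a6 - a0 - 1 := ⟨_, rfl⟩
  have t0 : 2 * (a0 + 1) - (a0 + 1 + a6) = -A := by omega
  have t6 : 2 * a6 - (a0 + 1 + a6) = A := by omega
  have t1 : 2 * a1 - (a0 + 1 + a6) = c1 - 1 := by omega
  have t1' : 2 * (a1 + 1) - (a0 + 1 + a6) = c1 + 1 := by omega
  have t2 : 2 * a2 - (a0 + 1 + a6) = c2 - 1 := by omega
  have t2' : 2 * (a2 + 1) - (a0 + 1 + a6) = c2 + 1 := by omega
  have t3 : 2 * a3 - (a0 + 1 + a6) = c3 - 1 := by omega
  have t3' : 2 * (a3 + 1) - (a0 + 1 + a6) = c3 + 1 := by omega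
  have t4 : 2 * a4 - (a0 + 1 + a6) = c4 - 1 := by omega
  have t4' : 2 * (a4 + 1) - (a0 + 1 + a6) = c4 + 1 := by omega
  have t5 : 2 * a5 - (a0 + 1 + a6) = c5 - 1 := by omega
  have t5' : 2 * (a5 + 1) - (a0 + 1 + a6) = c5 + 1 := by omega
  rw [t0, t1, t1', t2, t2', t3, t3', t4, t4', t5, t5', t6] at k1 k2 k3 k4 k5
  have p1 : c1 - c2 + c3 - c4 + c5 = 0 := by
    have h : 2 * (c1 - c2 + c3 - c4 + c5) = 0 := by linear_combination -k1
    omega
  have p3 : c1 ^ 3 - c2 ^ 3 + c3 ^ 3 - c4 ^ 3 + c5 ^ 3 = 0 := by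
    have h : 2 * (c1 ^ 3 - c2 ^ 3 + c3 ^ 3 - c4 ^ 3 + c5 ^ 3) = 0 := by
      linear_combination -k3 - 6 * p1
    omega
  have p5 : c1 ^ 5 - c2 ^ 5 + c3 ^ 5 - c4 ^ 5 + c5 ^ 5 = 0 := by
    have h : 2 * (c1 ^ 5 - c2 ^ 5 + c3 ^ 5 - c4 ^ 5 + c5 ^ 5) = 0 := by
      linear_combination -k5 - 10 * p1 - 20 * p3
    omega
  obtain ⟨e4, e3, e5⟩ := odd_five (by omega) (by omega) (by omega) (by omega) p1 p3 p5
  obtain ⟨s, hs⟩ : ∃ s, s = c4 := ⟨_, rfl⟩
  obtain ⟨r, hr⟩ : ∃ r, r = c5 := ⟨_, rfl⟩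
  have f1 : c1 = -r := by omega
  have f2 : c2 = -s := by omega
  have hs4 : 4 ≤ s := by omega
  have hr4 : s < r := by omega
  have hApos : 0 < A := by omega
  rw [f1, f2, e3, ← hs, ← hr] at k2 k4
  have hA2 : A ^ 2 = 2 * r ^ 2 - 2 * s ^ 2 + 1 := by
    have h : 2 * (A ^ 2 - (2 * r ^ 2 - 2 * s ^ 2 + 1)) = 0 := by linear_combination k2
    omega
  have hfac : (r ^ 2 - s ^ 2) * (r ^ 2 - 3 * s ^ 2 - 4) = 0 := by
    have h : 4 * ((r ^ 2 - s ^ 2) * (r ^ 2 - 3 * s ^ 2 - 4)) = 0 := by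
      linear_combination k4 - 2 * (A ^ 2 + 2 * r ^ 2 - 2 * s ^ 2 + 1) * hA2
    omega
  have hrs : r ^ 2 - s ^ 2 ≠ 0 := by
    have h : 0 < (r - s) * (r + s) := mul_pos (by omega) (by omega)
    have h' : r ^ 2 - s ^ 2 = (r - s) * (r + s) := by ring
    omega
  have hr2 : r ^ 2 - 3 * s ^ 2 - 4 = 0 := (mul_eq_zero.1 hfac).resolve_left hrs
  have hA3 : A ^ 2 = 4 * s ^ 2 + 9 := by linear_combination hA2 + 2 * hr2
  have hlow : 2 * s < A := by
    by_contra h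
    have h1 : 0 ≤ (2 * s - A) * (2 * s + A) := mul_nonneg (by omega) (by omega)
    have h2 : (2 * s - A) * (2 * s + A) = -9 := by linear_combination -hA3
    omega
  have hupp : A < 2 * s + 1 := by
    by_contra h
    have h1 : 0 ≤ (A - (2 * s + 1)) * (A + (2 * s + 1)) := mul_nonneg (by omega) (by omega)
    have h2 : (A - (2 * s + 1)) * (A + (2 * s + 1)) = 8 - 4 * s := by linear_combination hA3
    omega
  omega

end Pool.Agent.MP658x
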