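import Pool.Agent.Lib.MP_658dbf_an_X.Defs

/-!
# MP_658dbf_an, project X: energy after removal of one layer
-/

set_option autoImplicit false

namespace Pool.Agent.MP658x

open Finset

variable {κ : ℕ → ℝ} {w : ℝ} {N : ℕ} {S S' : ℤ → ℤ} {p t : ℤ}

private theorem EDiffA_sum {I : Finset ℤ} {p t : ℤ} (hp : p ∈ I) (ht : t ∈ I) (F : ℤ → ℝ) :
    ∑ m ∈ I, F m * ((if m = p then (1 : ℝ) else 0) - if m = t then (1 : ℝ) else 0) =
      F p - F t := by
  simp only [mul_sub, Finset.sum_sub_distrib, mul_ite, mul_one, mul_zero, Finset.sum_ite_eq',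
    hp, ht, if_true]

/-- `Dl S n = Dl S' n + [n = p] - [n = t]`; expand the double sum, `ac κ w (-d) = ac κ w d`,
`ac κ w 0 = w`, `ac κ w (t - p) = -κ (t - p)`. -/
theorem E_layer (hp : 0 ≤ p) (hpt : p < t) (ht : t ≤ N)
    (h : ∀ n, S n = S' n + if p ≤ n ∧ n < t then 1 else 0) :
    E κ w (N + 1) (Dl S) = E κ w (N + 1) (Dl S') + 2 * w + 2 * κ (t - p).toNat +
      2 * ∑ n ∈ Ico (0 : ℤ) ((N + 1 : ℕ) : ℤ),
        (Dl S' n : ℝ) * (ac κ w (n - p) - ac κ w (n - t)) := by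
  have hD : ∀ n, (Dl S n : ℝ) = (Dl S' n : ℝ) +
      ((if n = p then (1 : ℝ) else 0) - if n = t then (1 : ℝ) else 0) := by
    intro n
    have hZ : Dl S n = Dl S' n + ((if n = p then 1 else 0) - if n = t then 1 else 0) := by
      unfold Dl
      rw [h n, h (n - 1)]
      split_ifs <;> omega
    rw [hZ]
    push_cast
    rfl
  obtain ⟨I, hI⟩ : ∃ I, I = Ico (0 : ℤ) ((N + 1 : ℕ) : ℤ) := ⟨_, rfl⟩
  have hpI : p ∈ I := by
    rw [hI, Finset.mem_Ico]; push_cast; constructor <;> omega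
  have htI : t ∈ I := by
    rw [hI, Finset.mem_Ico]; push_cast; constructor <;> omega
  have hsym : ∀ d : ℤ, ac κ w (-d) = ac κ w d := by
    intro d
    unfold ac
    simp only [neg_eq_zero, Int.natAbs_neg]
  have hsym' : ∀ a b : ℤ, ac κ w (a - b) = ac κ w (b - a) := by
    intro a b
    rw [← hsym, neg_sub]
  unfold E
  rw [← hI]
  obtain ⟨e, he⟩ : ∃ e : ℤ → ℝ, e = fun n =>
      ((if n = p then (1 : ℝ) else 0) - if n = t then (1 : ℝ) else 0) := ⟨_, rfl⟩
  have hes : ∀ F : ℤ → ℝ, ∑ m ∈ I, F m * e m = F p - F t := by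
    intro F
    rw [he]
    exact EDiffA_sum hpI htI F
  have hD' : ∀ n, (Dl S n : ℝ) = (Dl S' n : ℝ) + e n := by
    intro n
    rw [hD, he]
  -- expand
  have hexp : ∀ m n : ℤ, ac κ w (m - n) * ((Dl S m : ℝ) * Dl S n) =
      ac κ w (m - n) * ((Dl S' m : ℝ) * Dl S' n) +
      (Dl S' m : ℝ) * (ac κ w (m - n) * e n) +
      (Dl S' n : ℝ) * ac κ w (m - n) * e m +
      (ac κ w (m - n) * e n) * e m := by
    intro m n
    rw [hD' m, hD' n]
    ring
  simp only [hexp, Finset.sum_add_distrib]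
  have h2 : ∑ m ∈ I, ∑ n ∈ I, (Dl S' m : ℝ) * (ac κ w (m - n) * e n) =
      ∑ n ∈ I, (Dl S' n : ℝ) * (ac κ w (n - p) - ac κ w (n - t)) := by
    refine Finset.sum_congr rfl fun m _ => ?_
    rw [← Finset.mul_sum, hes (fun n => ac κ w (m - n))]
  have h3 : ∑ m ∈ I, ∑ n ∈ I, (Dl S' n : ℝ) * ac κ w (m - n) * e m =
      ∑ n ∈ I, (Dl S' n : ℝ) * (ac κ w (n - p) - ac κ w (n - t)) := by
    rw [Finset.sum_comm]
    refine Finset.sum_congr rfl fun n _ => ?_
    rw [hes (fun m => (Dl S' n : ℝ) * ac κ w (m - n)), hsym' p n, hsym' t n]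
    ring
  have h4 : ∑ m ∈ I, ∑ n ∈ I, (ac κ w (m - n) * e n) * e m =
      2 * w + 2 * κ (t - p).toNat := by
    have h5 : ∀ m ∈ I, ∑ n ∈ I, (ac κ w (m - n) * e n) * e m =
        (ac κ w (m - p) - ac κ w (m - t)) * e m := by
      intro m _
      rw [← Finset.sum_mul, hes (fun n => ac κ w (m - n))]
    rw [Finset.sum_congr rfl h5, hes (fun m => ac κ w (m - p) - ac κ w (m - t))]
    have h6 : ac κ w (p - p) = w := by simp [ac]
    have h7 : ac κ w (t - t) = w := by simp [ac]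
    have h8 : ac κ w (t - p) = -κ (t - p).toNat := by
      have h9 : t - p ≠ 0 := by omega
      have h10 : (t - p).natAbs = (t - p).toNat := by omega
      simp only [ac, h9, if_false, h10]
    rw [h6, h7, hsym' p t, h8]
    ring
  rw [h2, h3, h4]
  ring

theorem E_neg (q : ℤ → ℤ) : E κ w N (fun n => -q n) = E κ w N q := by
  unfold E
  refine Finset.sum_congr rfl fun m _ => Finset.sum_congr rfl fun n _ => ?_
  push_cast
  ring

end Pool.Agent.MP658x
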