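import Pool.Agent.Lib.MP_658dbf_an_X.Defs

/-!
# MP_658dbf_an, project X: the family of positions for `n = 6`
-/

set_option autoImplicit false

namespace Pool.Agent.MP658x

open Finset
open Pool.Agent.MP658dbf (sgn dF)

/-- the properties wanted of the positions: clusters of sizes `1,2,2,2,2,2,1`, the distances in the
pairs are `1, 1, 2, 1, 1`, everything else is at distance `≥ D` -/
def Good6 (D : ℕ) (p : ℕ → ℕ) : Prop :=
  (∀ i, i + 1 < 12 → i % 2 = 1 → p (i + 1) = p i + if i = 5 then 2 else 1) ∧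
  (∀ i, i + 1 < 12 → i % 2 = 0 → p i + D ≤ p (i + 1)) ∧
  (∀ k < 6, ∑ i ∈ range 12, sgn 6 i * (((p i).descFactorial k : ℕ) : ℤ) = 0)

private theorem Fam6_pell (D : ℕ) : ∃ s t : ℕ, D ≤ s ∧ D ≤ t ∧
    s ^ 2 + s = 3 * t ^ 2 + 3 * t := by
  induction D with
  | zero => exact ⟨0, 0, le_rfl, le_rfl, rfl⟩
  | succ D ih =>
    obtain ⟨s, t, hs, ht, h⟩ := ih
    refine ⟨2 * s + 3 * t + 2, s + 2 * t + 1, by omega, by omega, ?_⟩
    nlinarith

/-- `(s, t) ↦ (2 s + 3 t + 2, s + 2 t + 1)` preserves the equation and `2 t' - s' = t`, `s' - t' - 1 =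
s + t`. Start with `(0, 0)`; `t` is strictly increasing. -/
theorem pell6 (D : ℕ) : ∃ s t : ℕ, s + D ≤ 2 * t ∧ t + 1 + D ≤ s ∧ D + 1 ≤ t ∧
    s ^ 2 + s = 3 * t ^ 2 + 3 * t := by
  obtain ⟨s, t, hs, ht, h⟩ := Fam6_pell D
  refine ⟨2 * s + 3 * t + 2, s + 2 * t + 1, by omega, by omega, by omega, ?_⟩
  nlinarith

private theorem Fam6_moments (r u : ℕ)
    (hz : (u : ℤ) ^ 2 = 2 * (r : ℤ) ^ 2 + 2 * r * u + 2 * r + u) (k : ℕ) (hk : k < 6) :
    ∑ i ∈ range 12, sgn 6 i * (((([0, r, r + 1, r + u, r + u + 1, 2 * r + 2 * u,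
      2 * r + 2 * u + 2, 3 * r + 3 * u + 1, 3 * r + 3 * u + 2, 3 * r + 4 * u + 1,
      3 * r + 4 * u + 2, 4 * r + 4 * u + 2] : List ℕ).getD i 0).descFactorial k : ℕ) : ℤ)
      = 0 := by
  interval_cases k
  · simp [Finset.sum_range_succ, sgn]
  · simp [Finset.sum_range_succ, sgn]
    ring
  · simp only [Finset.sum_range_succ, Finset.sum_range_zero, sgn, dF, Nat.descFactorial_zero]
    simp
    linear_combination (-4 : ℤ) * hz
  · simp only [Finset.sum_range_succ, Finset.sum_range_zero, sgn, dF, Nat.descFactorial_zero]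
    simp
    linear_combination (-24 * (u : ℤ) - 24 * r) * hz
  · simp only [Finset.sum_range_succ, Finset.sum_range_zero, sgn, dF, Nat.descFactorial_zero]
    simp
    linear_combination (-124 * (u : ℤ) ^ 2 - 232 * r * u + 28 * u - 112 * (r : ℤ) ^ 2 + 32 * r
      - 4) * hz
  · simp only [Finset.sum_range_succ, Finset.sum_range_zero, sgn, dF, Nat.descFactorial_zero]
    simp
    linear_combination (-600 * (u : ℤ) ^ 3 - 1640 * r * (u : ℤ) ^ 2 + 420 * (u : ℤ) ^ 2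
      - 1520 * (r : ℤ) ^ 2 * u + 800 * r * u - 100 * u - 480 * (r : ℤ) ^ 3 + 400 * (r : ℤ) ^ 2
      - 120 * r + 20) * hz

/-- Positions `0, 2t-s, 2t-s+1, t, t+1, 2t, 2t+2, 3t+1, 3t+2, 2t+1+s, 2t+2+s, 4t+2` with `s² + s =
3 t² + 3 t` (write `2 t = s + r`); compare `good5` in `MP_658dbf_an/Families.lean`. The moments of order
`< 6` vanish (checked by machine for `(s, t) = (9, 5), (35, 20), …`). -/
theorem good6 (D : ℕ) : ∃ p, Good6 D p := by
  obtain ⟨s, t, h1, h2, h3, h⟩ := pell6 D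
  obtain ⟨r, hr⟩ : ∃ r, 2 * t = s + r := ⟨2 * t - s, by omega⟩
  obtain ⟨u, hu⟩ : ∃ u, t = r + u := ⟨t - r, by omega⟩
  have hs : s = r + 2 * u := by omega
  subst hs
  subst hu
  have hz : (u : ℤ) ^ 2 = 2 * (r : ℤ) ^ 2 + 2 * r * u + 2 * r + u := by
    have h4 : ((r : ℤ) + 2 * u) ^ 2 + (r + 2 * u) = 3 * (r + u) ^ 2 + 3 * (r + u) := by
      exact_mod_cast h
    linarith
  have hrD : D ≤ r := by omega
  have huD : D + 1 ≤ u := by omega
  refine ⟨fun i => ([0, r, r + 1, r + u, r + u + 1, 2 * r + 2 * u,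
      2 * r + 2 * u + 2, 3 * r + 3 * u + 1, 3 * r + 3 * u + 2, 3 * r + 4 * u + 1,
      3 * r + 4 * u + 2, 4 * r + 4 * u + 2] : List ℕ).getD i 0, ?_, ?_, ?_⟩
  · intro i hi h; have hi2 : i < 11 := by omega
    clear hi; interval_cases i <;> simp at h ⊢
  · intro i hi h; have hi2 : i < 11 := by omega
    clear hi; interval_cases i <;> simp at h ⊢ <;> omega
  · intro k hk
    exact Fam6_moments r u hz k hk

end Pool.Agent.MP658x
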