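import Pool.Agent.Lib.MP_658dbf_an.Final
import Pool.Agent.Lib.MP_658dbf_an_X.Fam6
import Pool.Agent.Lib.MP_658dbf_an_X.KerFacts

/-!
# MP_658dbf_an, project X: the upper bound on `(6, 7]`
-/

set_option autoImplicit false

namespace Pool.Agent.MP658x

open Finset
open Pool.Agent.MP658dbf (sgn kap wh wInt wInf qp)

/-- the pairs at distance `1` -/
private def Upper6_adj (i j : ℕ) : Prop :=
  (i + 1 = j ∧ i % 2 = 1 ∧ i ≠ 5) ∨ (j + 1 = i ∧ j % 2 = 1 ∧ j ≠ 5)

private instance Upper6_adj_dec (i j : ℕ) : Decidable (Upper6_adj i j) := by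
  unfold Upper6_adj; infer_instance

/-- the pair at distance `2` -/
private def Upper6_mid (i j : ℕ) : Prop := (i = 5 ∧ j = 6) ∨ (i = 6 ∧ j = 5)

private instance Upper6_mid_dec (i j : ℕ) : Decidable (Upper6_mid i j) := by
  unfold Upper6_mid; infer_instance

private theorem Upper6_mono {D : ℕ} {p : ℕ → ℕ} (hp : Good6 D p) (i j : ℕ) (hij : i ≤ j)
    (hj : j < 12) : p i ≤ p j := by
  induction j, hij using Nat.le_induction with
  | base => exact le_rfl
  | succ m hm ih =>
    have h1 := ih (by omega)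
    rcases Nat.mod_two_eq_zero_or_one m with h | h
    · have := hp.2.1 m hj h; omega
    · have := hp.1 m hj h; omega

private theorem Upper6_far {D : ℕ} {p : ℕ → ℕ} (hp : Good6 D p) (i j : ℕ) (hij : i < j)
    (hj : j < 12) (hc : (i + 1) / 2 ≠ (j + 1) / 2) : p i + D ≤ p j := by
  rcases Nat.mod_two_eq_zero_or_one i with h | h
  · have h1 := hp.2.1 i (by omega) h
    have h2 := Upper6_mono hp (i + 1) j (by omega) hj
    omega
  · have h0 : i + 2 ≤ j := by omega
    have h1 := hp.2.1 (i + 1) (by omega) (by omega)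
    have h2 := Upper6_mono hp (i + 2) j (by omega) hj
    have h3 := Upper6_mono hp i (i + 1) (by omega) (by omega)
    have : i + 1 + 1 = i + 2 := by ring
    rw [this] at h1
    omega

private theorem Upper6_term {μ : ℝ} (hμ : 0 < μ) (hμ1 : μ ≤ 1) {D : ℕ} (hD : 1 ≤ D) {p : ℕ → ℕ}
    (hp : Good6 D p) (i j : ℕ) (hi : i < 12) (hj : j < 12) :
    (sgn 6 i : ℝ) * sgn 6 j * wh μ (Int.natAbs ((p i : ℤ) - p j)) ≤
      (if i = j then wh μ 0 else 0) + (if Upper6_adj i j then -kap μ 1 else 0) +
        (if Upper6_mid i j then -kap μ 2 else 0) + kap μ D := by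
  have hk := Pool.Agent.MP658dbf.kap_nonneg hμ hμ1 D
  -- the ordered case
  have main : ∀ i j, i < j → j < 12 →
      (sgn 6 i : ℝ) * sgn 6 j * wh μ (Int.natAbs ((p i : ℤ) - p j)) ≤
      (if Upper6_adj i j then -kap μ 1 else 0) + (if Upper6_mid i j then -kap μ 2 else 0) +
        kap μ D := by
    intro i j hij hj
    by_cases hc : (i + 1) / 2 = (j + 1) / 2
    · have hj1 : j = i + 1 := by omega
      have hi1 : i % 2 = 1 := by omega
      subst hj1
      have h2 : sgn 6 i = sgn 6 (i + 1) := by
        unfold sgn; rw [hc]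
      have h3 : (sgn 6 i : ℝ) * sgn 6 (i + 1) = 1 := by
        rw [← h2]; exact_mod_cast Pool.Agent.MP658dbf.sgn_mul_self 6 i
      by_cases h5 : i = 5
      · have hnadj : ¬ Upper6_adj i (i + 1) := by unfold Upper6_adj; omega
        have hmid : Upper6_mid i (i + 1) := by unfold Upper6_mid; omega
        have hstep := hp.1 i hj hi1
        rw [if_pos h5] at hstep
        rw [if_neg hnadj, if_pos hmid, hstep]
        have h1 : Int.natAbs ((p i : ℤ) - ((p i + 2 : ℕ) : ℤ)) = 2 := by
          push_cast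
          have : (p i : ℤ) - (p i + 2) = -2 := by ring
          rw [this]; rfl
        rw [h1, h3, Pool.Agent.MP658dbf.kap_pos μ two_ne_zero]
        linarith
      · have hadj : Upper6_adj i (i + 1) := Or.inl ⟨rfl, hi1, h5⟩
        have hnmid : ¬ Upper6_mid i (i + 1) := by unfold Upper6_mid; omega
        have hstep := hp.1 i hj hi1
        rw [if_neg h5] at hstep
        rw [if_pos hadj, if_neg hnmid, hstep]
        have h1 : Int.natAbs ((p i : ℤ) - ((p i + 1 : ℕ) : ℤ)) = 1 := by
          push_cast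
          have : (p i : ℤ) - (p i + 1) = -1 := by ring
          rw [this]; rfl
        rw [h1, h3, Pool.Agent.MP658dbf.kap_pos μ one_ne_zero]
        linarith
    · have hfar := Upper6_far hp i j hij hj hc
      have hnadj : ¬ Upper6_adj i j := by unfold Upper6_adj; omega
      have hnmid : ¬ Upper6_mid i j := by unfold Upper6_mid; omega
      rw [if_neg hnadj, if_neg hnmid, zero_add, zero_add]
      obtain ⟨d, hd⟩ : ∃ d : ℕ, p j = p i + d := ⟨p j - p i, by omega⟩
      have h1 : Int.natAbs ((p i : ℤ) - (p j : ℤ)) = d := by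
        rw [hd]; push_cast
        have : (p i : ℤ) - (p i + d) = -d := by ring
        rw [this]; simp
      have hDd : D ≤ d := by omega
      have h2 := Pool.Agent.MP658dbf.kap_anti' hμ hμ1 hD hDd
      have h3 := Pool.Agent.MP658dbf.kap_nonneg hμ hμ1 d
      have h4 := Pool.Agent.MP658dbf.kap_pos μ (by omega : d ≠ 0)
      rw [h1]
      rcases Pool.Agent.MP658dbf.sgn_cases 6 i with a | a <;>
        rcases Pool.Agent.MP658dbf.sgn_cases 6 j with b | b <;> rw [a, b] <;>
        push_cast <;> linarith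
  rcases lt_trichotomy i j with h | h | h
  · rw [if_neg h.ne, zero_add]; exact main i j h hj
  · subst h
    have hnadj : ¬ Upper6_adj i i := by unfold Upper6_adj; omega
    have hnmid : ¬ Upper6_mid i i := by unfold Upper6_mid; omega
    rw [if_pos rfl, if_neg hnadj, if_neg hnmid]
    have h3 : (sgn 6 i : ℝ) * sgn 6 i = 1 := by
      exact_mod_cast Pool.Agent.MP658dbf.sgn_mul_self 6 i
    rw [h3]; simp; exact hk
  · rw [if_neg h.ne', zero_add]
    have h1 := main j i h hi
    have h2 : (Upper6_adj i j) ↔ (Upper6_adj j i) := by unfold Upper6_adj; omega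
    have h2' : (Upper6_mid i j) ↔ (Upper6_mid j i) := by unfold Upper6_mid; omega
    have h3 : Int.natAbs ((p i : ℤ) - p j) = Int.natAbs ((p j : ℤ) - p i) := by
      rw [← Int.natAbs_neg]; congr 1; ring
    simp only [h2, h2']
    rw [h3, mul_comm (sgn 6 i : ℝ)]
    exact h1

/-- Double sum over `i, j < 12`: diagonal `12 w_0`; the pairs `(i, i+1)`, `i` odd, have equal signs and
distance `1` (4 pairs) resp. `2` (`i = 5`); all other pairs have distance `≥ D`. Compare `term_le` and
`energy_le` in `MP_658dbf_an/Upper.lean`. -/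
theorem energy6 {μ : ℝ} (hμ : 0 < μ) (hμ1 : μ ≤ 1) {D : ℕ} (hD : 3 ≤ D) {p : ℕ → ℕ}
    (hp : Good6 D p) :
    ∑ i ∈ range 12, ∑ j ∈ range 12,
        (sgn 6 i : ℝ) * sgn 6 j * wh μ (Int.natAbs ((p i : ℤ) - p j)) ≤
      12 * wh μ 0 - 8 * kap μ 1 - 2 * kap μ 2 + 144 * kap μ D := by
  calc _ ≤ ∑ i ∈ Finset.range 12, ∑ j ∈ Finset.range 12,
        ((if i = j then wh μ 0 else 0) + (if Upper6_adj i j then -kap μ 1 else 0) +
          (if Upper6_mid i j then -kap μ 2 else 0) + kap μ D) := by
        apply Finset.sum_le_sum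
        intro i hi
        apply Finset.sum_le_sum
        intro j hj
        exact Upper6_term hμ hμ1 (by omega) hp i j (Finset.mem_range.mp hi)
          (Finset.mem_range.mp hj)
    _ = _ := by
        simp_rw [Finset.sum_add_distrib]
        have h1 : ∑ i ∈ Finset.range 12, ∑ j ∈ Finset.range 12,
            (if i = j then wh μ 0 else 0) = 12 * wh μ 0 := by
          have : ∀ i ∈ Finset.range 12, ∑ j ∈ Finset.range 12,
              (if i = j then wh μ 0 else 0) = wh μ 0 := by
            intro i hi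
            rw [Finset.sum_ite_eq, if_pos hi]
          rw [Finset.sum_congr rfl this]
          simp
        have hcnt : ∑ i ∈ Finset.range 12, ∑ j ∈ Finset.range 12,
            (if Upper6_adj i j then 1 else 0) = 8 := by decide
        have hcnt2 : ∑ i ∈ Finset.range 12, ∑ j ∈ Finset.range 12,
            (if Upper6_mid i j then 1 else 0) = 2 := by decide
        have h2 : ∑ i ∈ Finset.range 12, ∑ j ∈ Finset.range 12,
            (if Upper6_adj i j then -kap μ 1 else 0) = -(8 : ℝ) * kap μ 1 := by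
          have hc : (8 : ℝ) = ((8 : ℕ) : ℝ) := by norm_num
          rw [hc, ← hcnt]
          push_cast
          rw [← Finset.sum_neg_distrib, Finset.sum_mul]
          apply Finset.sum_congr rfl
          intro i hi
          rw [← Finset.sum_neg_distrib, Finset.sum_mul]
          apply Finset.sum_congr rfl
          intro j hj
          split_ifs <;> simp
        have h3 : ∑ i ∈ Finset.range 12, ∑ j ∈ Finset.range 12,
            (if Upper6_mid i j then -kap μ 2 else 0) = -(2 : ℝ) * kap μ 2 := by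
          have hc : (2 : ℝ) = ((2 : ℕ) : ℝ) := by norm_num
          rw [hc, ← hcnt2]
          push_cast
          rw [← Finset.sum_neg_distrib, Finset.sum_mul]
          apply Finset.sum_congr rfl
          intro i hi
          rw [← Finset.sum_neg_distrib, Finset.sum_mul]
          apply Finset.sum_congr rfl
          intro j hj
          split_ifs <;> simp
        rw [h1, h2, h3]
        simp
        ring

private theorem Upper6_monic {D : ℕ} (hD : 1 ≤ D) {p : ℕ → ℕ} (hp : Good6 D p) :
    (qp 6 p).Monic := by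
  unfold qp
  rw [show 2 * 6 = 11 + 1 from rfl, Finset.sum_range_succ, add_comm]
  have hs : sgn 6 11 = 1 := by
    unfold sgn
    norm_num
  rw [hs, Polynomial.C_1, one_mul]
  apply Polynomial.monic_X_pow_add
  have hlt : ∀ i ∈ Finset.range 11, (Polynomial.C (sgn 6 i) * Polynomial.X ^ (p i)).degree
      < ((p 11 : ℕ) : WithBot ℕ) := by
    intro i hi
    have hi' := Finset.mem_range.mp hi
    have h1 : p i < p 11 := by
      have h2 := Upper6_mono hp (i + 1) 11 (by omega) (by omega)
      have h3 : p i < p (i + 1) := by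
        rcases Nat.mod_two_eq_zero_or_one i with h | h
        · have := hp.2.1 i (by omega) h; omega
        · have := hp.1 i (by omega) h
          split_ifs at this <;> omega
      omega
    calc _ ≤ ((p i : ℕ) : WithBot ℕ) := Polynomial.degree_C_mul_X_pow_le _ _
      _ < _ := by exact_mod_cast h1
  apply lt_of_le_of_lt (Polynomial.degree_sum_le _ _)
  rw [Finset.sup_lt_iff]
  · exact hlt
  · exact WithBot.bot_lt_coe _

/-- `monic_qp`, `dvd_of_moments`, `wInt_of_mul` (as in `exists_upper`) -/
theorem exists_upper6 {μ : ℝ} (hμ : 0 < μ) (hμ1 : μ ≤ 1) {D : ℕ} (hD : 3 ≤ D) :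
    ∃ P : Polynomial ℤ, P.Monic ∧ wInt (6 + μ) P ≤ (2 * Real.pi) *
      (12 * wh μ 0 - 8 * kap μ 1 - 2 * kap μ 2 + 144 * kap μ D) := by
  obtain ⟨p, hp⟩ := good6 D
  have hmon := Upper6_monic (by omega) hp
  obtain ⟨P, hP⟩ := Pool.Agent.MP658dbf.dvd_of_moments 6 p hp.2.2
  have hPm : P.Monic := by
    have h1 : ((Polynomial.X - 1 : Polynomial ℤ) ^ 6).Monic := by
      apply Polynomial.Monic.pow
      have := Polynomial.monic_X_sub_C (1 : ℤ)
      simpa using this
    rw [hP] at hmon
    exact h1.of_mul_monic_left hmon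
  refine ⟨P, hPm, ?_⟩
  have h6 := Pool.Agent.MP658dbf.wInt_of_mul hμ 6 p P hP
  have h7 : (((6 : ℕ) : ℝ) + μ) = 6 + μ := by norm_num
  rw [h7] at h6
  rw [h6]
  apply mul_le_mul_of_nonneg_left _ (by positivity)
  exact energy6 hμ hμ1 hD hp

/-- `D → ∞` (`kap_le`), as in `wInf_eq_of_good` -/
theorem wInf_upper6 {μ : ℝ} (hμ : 0 < μ) (hμ1 : μ ≤ 1) :
    wInf (6 + μ) ≤ (2 * Real.pi) * (12 * wh μ 0 - 8 * kap μ 1 - 2 * kap μ 2) := by
  apply le_of_forall_pos_le_add
  intro ε hε
  set C := (2 * Real.pi) * (144 * (2 * wh μ 0)) with hC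
  obtain ⟨D0, hD0⟩ := exists_nat_gt (C / ε)
  set D := D0 + 3 with hDdef
  have hD1 : 3 ≤ D := by omega
  obtain ⟨P, hPm, hP⟩ := exists_upper6 hμ hμ1 hD1
  refine (Pool.Agent.MP658dbf.wInf_le _ P hPm).trans (hP.trans ?_)
  rw [mul_add]
  have h1 := Pool.Agent.MP658dbf.kap_le hμ hμ1 (by omega : 1 ≤ D)
  have hDpos : (0:ℝ) < D := by
    have : 0 < D := by omega
    exact_mod_cast this
  have hDgt : C / ε < D := by
    rw [hDdef]; push_cast; linarith
  have h2 : (2 * Real.pi) * (144 * kap μ D) ≤ C / D := by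
    rw [hC]
    calc (2 * Real.pi) * (144 * kap μ D)
        ≤ (2 * Real.pi) * (144 * (2 * wh μ 0 / D)) := by
          apply mul_le_mul_of_nonneg_left _ (by positivity)
          exact mul_le_mul_of_nonneg_left h1 (by positivity)
      _ = _ := by ring
  have h3 : C / D ≤ ε := by
    rw [div_lt_iff₀ hε] at hDgt
    rw [div_le_iff₀ hDpos]
    linarith
  linarith

end Pool.Agent.MP658x
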