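import Pool.Agent.Lib.MP_658dbf_an_X.Lower
import Pool.Agent.Lib.MP_658dbf_an_X.Dio6
import Pool.Agent.Lib.MP_658dbf_an_X.Upper6

/-!
# MP_658dbf_an, project X: the exact value on `(6, 4 + √6]` and bounds on `(6, 7]`
-/

set_option autoImplicit false

namespace Pool.Agent.MP658x

open Finset
open Pool.Agent.MP658dbf (kap tl wh wInt wInf En dl fnz cl)

/-- `Bd` in terms of `wh μ 0` (`tl_one`, `kap_one`) -/
theorem Bd_kap {μ : ℝ} (hμ : 0 < μ) (k : ℕ) :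
    Bd (kap μ) (tl μ) k = 2 * (k + μ) * wh μ 0 / (1 + μ) := by
  unfold Bd
  have h1 := MP658dbf.tl_one hμ
  have h2 := MP658dbf.kap_one hμ
  have h3 : (1 + μ) ≠ 0 := by linarith
  have h4 : kap μ 1 = μ * wh μ 0 / (1 + μ) := by
    rw [eq_div_iff h3]
    linarith
  have h5 : 4 * (k : ℝ) * tl μ 1 = 2 * k * wh μ 0 := by
    rw [← h1]
    ring
  rw [h4, h5]
  field_simp
  ring

/-- the two closed forms -/
private theorem kap_two {μ : ℝ} (hμ : 0 < μ) :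
    kap μ 1 = μ * wh μ 0 / (1 + μ) ∧
      kap μ 2 = μ * (1 - μ) * wh μ 0 / ((1 + μ) * (2 + μ)) := by
  have h2 := MP658dbf.kap_one hμ
  have h3 : (1 + μ) ≠ 0 := by linarith
  have h3' : (2 + μ) ≠ 0 := by linarith
  have h4 : kap μ 1 = μ * wh μ 0 / (1 + μ) := by
    rw [eq_div_iff h3]
    linarith
  refine ⟨h4, ?_⟩
  have h5 := MP658dbf.kap_rec hμ (n := 1) one_ne_zero
  norm_num at h5
  rw [h4] at h5
  rw [eq_div_iff (mul_ne_zero h3 h3')]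
  have h6 : (1 - μ) * (μ * wh μ 0 / (1 + μ)) * (1 + μ) = μ * (1 - μ) * wh μ 0 := by
    field_simp
  have h7 : (1 + 1 + μ) = 2 + μ := by ring
  rw [← h6, ← h5]
  ring

/-- `lower_cases` with `m = 5`, `dio6`, `wInt_eq`, `fnz_cl`, `wInf_ge` -/
theorem wInf_lower6 {μ : ℝ} (hμ : 0 < μ) (hμ1 : μ ≤ 1) :
    (2 * Real.pi) * (Bd (kap μ) (tl μ) 6 +
      min (2 * (kap μ 1 - kap μ 2)) (4 * tl μ 3)) ≤ wInf (6 + μ) := by
  apply MP658dbf.wInf_ge
  intro P hP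
  have h1 := MP658dbf.wInt_eq hμ 6 P
  have h1' : wInt (6 + μ) P = (2 * Real.pi) * En (kap μ) (wh μ 0) (dl^[6] (cl P)) := by
    simpa using h1
  rw [h1']
  refine mul_le_mul_of_nonneg_left ?_ (by positivity)
  have h2 := MP658dbf.tl_one hμ
  have h3 := lower_cases (ker_kap hμ hμ1) 5 (MP658dbf.fnz_cl hP.ne_zero)
  norm_num at h3
  rw [h2] at h3
  rcases h3 with h | h | ⟨y, hy, hm, -⟩
  · refine le_trans ?_ h
    have := min_le_left (2 * (kap μ 1 - kap μ 2)) (4 * tl μ 3)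
    linarith
  · refine le_trans ?_ h
    have := min_le_right (2 * (kap μ 1 - kap μ 2)) (4 * tl μ 3)
    linarith
  · exact absurd hm (dio6 hy)

/-- `2 (κ_1 - κ_2) ≤ 4 T_3` iff `μ² + 4 μ ≤ 2`: `κ_1 = μ w/(1+μ)`, `κ_2 = κ_1 (1-μ)/(2+μ)`, `T_3 = w (1-μ)
(2-μ)/(2 (1+μ) (2+μ))`. -/
theorem min_left {μ : ℝ} (hμ : 0 < μ) (hμ1 : μ ^ 2 + 4 * μ ≤ 2) :
    2 * (kap μ 1 - kap μ 2) ≤ 4 * tl μ 3 := by
  obtain ⟨h1, h2⟩ := kap_two hμ
  have h3 := MP658dbf.tl_one hμ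
  have h4 := MP658dbf.tl_rec hμ 1
  have h5 := MP658dbf.tl_rec hμ 2
  norm_num at h4 h5
  have h6 : tl μ 3 = wh μ 0 / 2 - kap μ 1 - kap μ 2 := by linarith
  have hw := MP658dbf.wh_zero_pos hμ
  have h7 : 4 * tl μ 3 - 2 * (kap μ 1 - kap μ 2) =
      2 * wh μ 0 * (2 - (μ ^ 2 + 4 * μ)) / ((1 + μ) * (2 + μ)) := by
    rw [h6, h1, h2]
    have h8 : (1 + μ) ≠ 0 := by linarith
    have h9 : (2 + μ) ≠ 0 := by linarith
    field_simp
    ring
  have h10 : 0 ≤ 2 * wh μ 0 * (2 - (μ ^ 2 + 4 * μ)) / ((1 + μ) * (2 + μ)) := by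
    apply div_nonneg
    · exact mul_nonneg (by linarith) (by linarith)
    · positivity
  linarith

/-- the value for `6 < λ ≤ 4 + √6`, `μ = λ - 6` -/
theorem wInf_six {μ : ℝ} (hμ : 0 < μ) (hμ1 : μ ^ 2 + 4 * μ ≤ 2) :
    wInf (6 + μ) = 12 * Real.pi * (μ ^ 2 + 3 * μ + 4) * Real.Gamma (2 * μ + 1) /
      (Real.Gamma (μ + 1) * Real.Gamma (μ + 3)) := by
  have hμ2 : μ ≤ 1 := by nlinarith
  have hlow := wInf_lower6 hμ hμ2
  have hup := wInf_upper6 hμ hμ2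
  rw [min_eq_left (min_left hμ hμ1), Bd_kap hμ 6] at hlow
  obtain ⟨h1, h2⟩ := kap_two hμ
  have h8 : (1 + μ) ≠ 0 := by linarith
  have h9 : (2 + μ) ≠ 0 := by linarith
  have hG := Real.Gamma_pos_of_pos (show 0 < μ + 1 by linarith)
  have e1 : 12 * wh μ 0 - 8 * kap μ 1 - 2 * kap μ 2 =
      6 * (μ ^ 2 + 3 * μ + 4) * wh μ 0 / ((1 + μ) * (2 + μ)) := by
    rw [h1, h2]
    field_simp
    ring
  have e2 : 2 * (((6 : ℕ) : ℝ) + μ) * wh μ 0 / (1 + μ) + 2 * (kap μ 1 - kap μ 2) =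
      6 * (μ ^ 2 + 3 * μ + 4) * wh μ 0 / ((1 + μ) * (2 + μ)) := by
    rw [h1, h2]
    push_cast
    field_simp
    ring
  rw [e1] at hup
  rw [e2] at hlow
  have e3 : Real.Gamma (μ + 3) = (μ + 2) * ((μ + 1) * Real.Gamma (μ + 1)) := by
    have g1 := Real.Gamma_add_one (s := μ + 1) (by linarith)
    have g2 := Real.Gamma_add_one (s := μ + 2) (by linarith)
    have g3 : μ + 1 + 1 = μ + 2 := by ring
    have g4 : μ + 2 + 1 = μ + 3 := by ring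
    rw [g3] at g1
    rw [g4] at g2
    rw [g2, g1]
  have e4 : (2 * Real.pi) * (6 * (μ ^ 2 + 3 * μ + 4) * wh μ 0 / ((1 + μ) * (2 + μ))) =
      12 * Real.pi * (μ ^ 2 + 3 * μ + 4) * Real.Gamma (2 * μ + 1) /
      (Real.Gamma (μ + 1) * Real.Gamma (μ + 3)) := by
    rw [e3, MP658dbf.wh_zero hμ]
    have g1 : (μ + 1) ≠ 0 := by linarith
    have g2 : (μ + 2) ≠ 0 := by linarith
    field_simp
    ring
  rw [← e4]
  exact le_antisymm hup hlow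

/-- strictness on `(6, 7)` -/
theorem wInf_six_strict {μ : ℝ} (hμ : 0 < μ) (hμ1 : μ < 1) :
    (2 * Real.pi) * (2 * (6 + μ) * wh μ 0 / (1 + μ)) < wInf (6 + μ) := by
  have hlow := wInf_lower6 hμ hμ1.le
  rw [Bd_kap hμ 6] at hlow
  refine lt_of_lt_of_le ?_ hlow
  refine mul_lt_mul_of_pos_left ?_ (by positivity)
  have h1 := (kap_strict hμ hμ1 (n := 1) le_rfl).2
  have h2 := tl_strict hμ hμ1 3
  have h3 : 0 < min (2 * (kap μ 1 - kap μ 2)) (4 * tl μ 3) := by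
    refine lt_min ?_ (by linarith)
    have : kap μ (1 + 1) < kap μ 1 := h1
    norm_num at this
    linarith
  push_cast
  linarith

end Pool.Agent.MP658x
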