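import Mathlib

/-!
# MP_658dbf_an, project X: the totient of `2 k`, `k ≥ 7`
-/

set_option autoImplicit false

namespace Pool.Agent.MP658x

open Finset

private theorem tot6_cop {a n : ℕ} (ha : a % 2 = 1) (x y : ℤ)
    (h : x * (a : ℤ) + y * (n : ℤ) = 8) : Nat.Coprime n a := by
  have h1 : Nat.Coprime a 8 := by
    have h2 : Nat.Coprime a 2 := (Nat.coprime_two_right).2 (Nat.odd_iff.2 ha)
    exact Nat.Coprime.pow_right 3 h2
  have h3 : IsCoprime (a : ℤ) ((8 : ℕ) : ℤ) := Nat.isCoprime_iff_coprime.2 h1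
  obtain ⟨u, v, huv⟩ := h3
  have h4 : IsCoprime (a : ℤ) (n : ℤ) := by
    refine ⟨u + v * x, v * y, ?_⟩
    push_cast at huv
    linear_combination huv + v * h
  exact (Nat.isCoprime_iff_coprime.1 h4).symm

private theorem tot6_six {n a b c d e f : ℕ} (h1 : a < b) (h2 : b < c) (h3 : c < d)
    (h4 : d < e) (h5 : e < f) (h6 : f < n) (ha : Nat.Coprime n a) (hb : Nat.Coprime n b)
    (hc : Nat.Coprime n c) (hd : Nat.Coprime n d) (he : Nat.Coprime n e)
    (hf : Nat.Coprime n f) : 6 ≤ n.totient := by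
  have hsub : ({a, b, c, d, e, f} : Finset ℕ) ⊆ (range n).filter n.Coprime := by
    intro x hx
    simp only [Finset.mem_insert, Finset.mem_singleton] at hx
    rw [Finset.mem_filter, Finset.mem_range]
    rcases hx with h | h | h | h | h | h
    · subst h; exact ⟨by omega, ha⟩
    · subst h; exact ⟨by omega, hb⟩
    · subst h; exact ⟨by omega, hc⟩
    · subst h; exact ⟨by omega, hd⟩
    · subst h; exact ⟨by omega, he⟩
    · subst h; exact ⟨by omega, hf⟩
  have hcard : ({a, b, c, d, e, f} : Finset ℕ).card = 6 := by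
    rw [Finset.card_insert_of_notMem, Finset.card_insert_of_notMem,
      Finset.card_insert_of_notMem, Finset.card_insert_of_notMem,
      Finset.card_insert_of_notMem, Finset.card_singleton]
    all_goals simp only [Finset.mem_insert, Finset.mem_singleton]; omega
  rw [Nat.totient_eq_card_coprime, ← hcard]
  exact Finset.card_le_card hsub

/-- `k` odd: `1, k ± 2, k ± 4, 2k - 1`; `k = 2 m`, `m` even: `1, m ± 1, 2 m ± 1, …`; `m` odd, `m ≥ 5`:
`1, m ± 2, 2 m ± 1, …` are coprime to `2 k`. -/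
theorem six_le_totient {k : ℕ} (hk : 7 ≤ k) : 6 ≤ (2 * k).totient := by
  rcases Nat.even_or_odd' k with ⟨m, hm | hm⟩
  · rcases Nat.even_or_odd' m with ⟨j, hj | hj⟩
    · obtain ⟨i, rfl⟩ : ∃ i, j = i + 2 := ⟨j - 2, by omega⟩
      have hn : 2 * k = 8 * i + 16 := by omega
      rw [hn]
      refine tot6_six (a := 1) (b := 2 * i + 3) (c := 2 * i + 5) (d := 4 * i + 7)
        (e := 4 * i + 9) (f := 8 * i + 15) (by omega) (by omega) (by omega) (by omega)
        (by omega) (by omega) (tot6_cop (by omega) 8 0 ?_) (tot6_cop (by omega) (-8) 2 ?_)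
        (tot6_cop (by omega) 8 (-2) ?_) (tot6_cop (by omega) (-8) 4 ?_)
        (tot6_cop (by omega) 8 (-4) ?_) (tot6_cop (by omega) (-8) 8 ?_)
      all_goals push_cast; ring
    · obtain ⟨i, rfl⟩ : ∃ i, j = i + 2 := ⟨j - 2, by omega⟩
      have hn : 2 * k = 8 * i + 20 := by omega
      rw [hn]
      refine tot6_six (a := 1) (b := 2 * i + 3) (c := 2 * i + 7) (d := 4 * i + 9)
        (e := 4 * i + 11) (f := 8 * i + 19) (by omega) (by omega) (by omega) (by omega)
        (by omega) (by omega) (tot6_cop (by omega) 8 0 ?_) (tot6_cop (by omega) (-4) 1 ?_)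
        (tot6_cop (by omega) 4 (-1) ?_) (tot6_cop (by omega) (-8) 4 ?_)
        (tot6_cop (by omega) 8 (-4) ?_) (tot6_cop (by omega) (-8) 8 ?_)
      all_goals push_cast; ring
  · obtain ⟨i, rfl⟩ : ∃ i, m = i + 3 := ⟨m - 3, by omega⟩
    have hn : 2 * k = 4 * i + 14 := by omega
    rw [hn]
    refine tot6_six (a := 1) (b := 2 * i + 3) (c := 2 * i + 5) (d := 2 * i + 9)
      (e := 2 * i + 11) (f := 4 * i + 13) (by omega) (by omega) (by omega) (by omega)
      (by omega) (by omega) (tot6_cop (by omega) 8 0 ?_) (tot6_cop (by omega) (-2) 1 ?_)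
      (tot6_cop (by omega) (-4) 2 ?_) (tot6_cop (by omega) 4 (-2) ?_)
      (tot6_cop (by omega) 2 (-1) ?_) (tot6_cop (by omega) (-8) 8 ?_)
    all_goals push_cast; ring

end Pool.Agent.MP658x
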