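import Pool.Agent.Lib.MP_658dbf_an_X.XiClose
import Pool.Agent.Lib.MP_658dbf_an_X.Tot6

/-!
# MP_658dbf_an, project X: for `k ≥ 7` there are only finitely many block patterns
-/

set_option autoImplicit false

namespace Pool.Agent.MP658x

open Finset

/-- `norm_arg` with `M = (k + C) A`, `δ = C / A` would give `1 ≤ (k + C)² C⁴ / A²`, false for large `A` -/
theorem finite_patterns {k : ℕ} (hk : 7 ≤ k) : ∃ D : ℕ, ∀ y : ℕ → ℤ,
    (∀ i < k, y i + 2 ≤ y (i + 1)) → Mom k y → y k - y 0 ≤ D := by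
  obtain ⟨C, A₀, hC, hA₀, hxi⟩ := xi_close k (by omega)
  -- choose the bound
  set M₁ : ℝ := max (max A₀ (C + 1)) ((k + C) * C ^ 2 + 1) with hM₁
  obtain ⟨D, hD⟩ := exists_nat_gt (M₁ + 1)
  refine ⟨D, fun y hy hm => ?_⟩
  by_contra hcon
  push Not at hcon
  set A : ℝ := ((y k - y 0 - 1 : ℤ) : ℝ) with hA
  have hAD : M₁ ≤ A := by
    have h1 : (D : ℤ) + 1 ≤ y k - y 0 := hcon
    have h2 : (D : ℤ) ≤ y k - y 0 - 1 := by omega
    have h3 : ((D : ℤ) : ℝ) ≤ A := by
      rw [hA]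
      exact_mod_cast h2
    have h4 : ((D : ℤ) : ℝ) = (D : ℝ) := by push_cast; rfl
    rw [h4] at h3
    linarith
  have hA1 : A₀ ≤ A := le_trans (le_trans (le_max_left _ _) (le_max_left _ _)) hAD
  have hA2 : C + 1 ≤ A := le_trans (le_trans (le_max_right _ _) (le_max_left _ _)) hAD
  have hA3 : (k + C) * C ^ 2 + 1 ≤ A := le_trans (le_max_right _ _) hAD
  have hApos : 0 < A := by linarith
  have hk7 : (7 : ℝ) ≤ k := by exact_mod_cast hk
  have hCA : C / A ≤ 1 := by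
    rw [div_le_one hApos]
    linarith
  have hCA0 : 0 ≤ C / A := div_nonneg hC hApos.le
  have hj := hxi y hy hm hA1
  have hA1' : (1 : ℝ) ≤ A := by linarith
  have key : ∀ j : ℕ, 1 ≤ j → j ≤ 2 * k - 1 → (j = 1 ∨ j = 2 * k - 1) →
      ‖xi (2 * k) (ccs k y) j‖ ≤ k * A + C / A ∧ k * A - C / A ≤ ‖xi (2 * k) (ccs k y) j‖ := by
    intro j h1 h2 h3
    have h4 := hj j h1 h2
    rw [if_pos h3] at h4
    have h5 : ‖((y k - y 0 - 1 : ℤ) : ℂ) * (-(k : ℂ))‖ = k * A := by
      rw [norm_mul, norm_neg, Complex.norm_natCast, Complex.norm_intCast, abs_of_pos hApos,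
        mul_comm]
    have h6 := norm_sub_norm_le (xi (2 * k) (ccs k y) j) (((y k - y 0 - 1 : ℤ) : ℂ) * (-(k : ℂ)))
    have h7 := norm_sub_norm_le (((y k - y 0 - 1 : ℤ) : ℂ) * (-(k : ℂ))) (xi (2 * k) (ccs k y) j)
    rw [norm_sub_rev] at h7
    rw [h5] at h6 h7
    constructor <;> linarith
  have hkA : 7 * A ≤ k * A := mul_le_mul_of_nonneg_right hk7 hApos.le
  have hξ1 := key 1 le_rfl (by omega) (Or.inl rfl)
  have hξ2 := key (2 * k - 1) (by omega) le_rfl (Or.inr rfl)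
  have hMle : k * A + C / A ≤ (k + C) * A := by
    have : C / A ≤ C * A := by
      rw [div_le_iff₀ hApos]
      nlinarith [mul_nonneg hC hApos.le]
    linarith
  have h1 := norm_arg (n := 2 * k) (by omega) (six_le_totient hk) (ccs k y)
    (M := (k + C) * A) (δ := C / A) (by
      intro h0
      rw [h0, norm_zero] at hξ1
      linarith [hξ1.2]) (by nlinarith) hCA (hξ1.1.trans hMle) (hξ2.1.trans hMle) (by
      intro j h2 h3 _
      have h4 := hj j h2.le (by omega)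
      rw [if_neg (by omega), mul_zero, sub_zero] at h4
      exact h4)
  -- contradiction
  have h2 : ((k + C) * A) ^ 2 * (C / A) ^ 4 = ((k + C) * C ^ 2 / A) ^ 2 := by
    field_simp
  rw [h2] at h1
  have h3 : (k + C) * C ^ 2 / A < 1 := by
    rw [div_lt_one hApos]
    linarith
  have h4 : 0 ≤ (k + C) * C ^ 2 / A := by positivity
  have h5 : ((k + C) * C ^ 2 / A) ^ 2 < 1 := by
    rw [sq_lt_one_iff₀ h4]
    exact h3
  linarith

end Pool.Agent.MP658x
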