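import Pool.Agent.Lib.MP_658dbf_an_X.Final6
import Pool.Agent.Lib.MP_658dbf_an_X.FinitePat

/-!
# MP_658dbf_an, project X: strictness of the lower bound for all non-integers `> 6`
-/

set_option autoImplicit false

namespace Pool.Agent.MP658x

open Finset
open Pool.Agent.MP658dbf (kap tl wh wInt wInf En dl fnz cl)

/-- `lower_cases` with `m = k - 1`, `finite_patterns` (take `d = max D 1`), `kap_strict`, `tl_strict` -/
theorem wInf_strict {μ : ℝ} (hμ : 0 < μ) (hμ1 : μ < 1) {k : ℕ} (hk : 6 ≤ k) :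
    (2 * Real.pi) * (2 * (k + μ) * wh μ 0 / (1 + μ)) < wInf (k + μ) := by
  rcases Nat.eq_or_lt_of_le hk with h6 | h7
  · subst h6
    exact_mod_cast wInf_six_strict hμ hμ1
  obtain ⟨D, hD⟩ := finite_patterns (k := k) (by omega)
  set d := max D 1 with hd
  set c := min (2 * (kap μ 1 - kap μ 2)) (min (4 * tl μ 3) (2 * kap μ d)) with hc
  have hc0 : 0 < c := by
    have h1 := (kap_strict hμ hμ1 (n := 1) le_rfl).2
    have h2 := tl_strict hμ hμ1 3
    have h3 := (kap_strict hμ hμ1 (n := d) (le_max_right _ _)).1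
    norm_num at h1
    refine lt_min (by linarith) (lt_min (by linarith) (by linarith))
  have hlow : (2 * Real.pi) * (Bd (kap μ) (tl μ) k + c) ≤ wInf (k + μ) := by
    apply MP658dbf.wInf_ge
    intro P hP
    rw [MP658dbf.wInt_eq hμ k P]
    refine mul_le_mul_of_nonneg_left ?_ (by positivity)
    obtain ⟨m, rfl⟩ : ∃ m, k = m + 1 := ⟨k - 1, by omega⟩
    have h3 := lower_cases (ker_kap hμ hμ1.le) m (MP658dbf.fnz_cl hP.ne_zero)
    rw [MP658dbf.tl_one hμ] at h3
    rcases h3 with h | h | ⟨y, hy, hm, h⟩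
    · refine le_trans ?_ h
      have := min_le_left (2 * (kap μ 1 - kap μ 2)) (min (4 * tl μ 3) (2 * kap μ d))
      linarith
    · refine le_trans ?_ h
      have h5 := min_le_right (2 * (kap μ 1 - kap μ 2)) (min (4 * tl μ 3) (2 * kap μ d))
      have h6 := min_le_left (4 * tl μ 3) (2 * kap μ d)
      linarith
    · have h4 := h d (le_max_right _ _) (by
        have h8 := hD y hy hm
        have h9 : (D : ℤ) ≤ (d : ℤ) := by exact_mod_cast le_max_left D 1
        linarith)
      refine le_trans ?_ h4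
      have h5 := min_le_right (2 * (kap μ 1 - kap μ 2)) (min (4 * tl μ 3) (2 * kap μ d))
      have h6 := min_le_right (4 * tl μ 3) (2 * kap μ d)
      linarith
  rw [Bd_kap hμ k] at hlow
  refine lt_of_lt_of_le ?_ hlow
  refine mul_lt_mul_of_pos_left ?_ (by positivity)
  linarith

/-- every single polynomial is strictly above the bound -/
theorem wInt_strict {μ : ℝ} (hμ : 0 < μ) (hμ1 : μ < 1) {k : ℕ} (hk : 1 ≤ k) {P : Polynomial ℤ}
    (hP : P ≠ 0) : (2 * Real.pi) * (2 * (k + μ) * wh μ 0 / (1 + μ)) < wInt (k + μ) P := by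
  obtain ⟨m, rfl⟩ : ∃ m, k = m + 1 := ⟨k - 1, by omega⟩
  rw [MP658dbf.wInt_eq hμ (m + 1) P, ← Bd_kap hμ (m + 1)]
  refine mul_lt_mul_of_pos_left ?_ (by positivity)
  have h1 := (kap_strict hμ hμ1 (n := 1) le_rfl).2
  have h2 := tl_strict hμ hμ1 3
  norm_num at h1
  have h3 := lower_cases (ker_kap hμ hμ1.le) m (MP658dbf.fnz_cl hP)
  rw [MP658dbf.tl_one hμ] at h3
  rcases h3 with h | h | ⟨y, hy, hm, h⟩
  · linarith
  · linarith
  · have h4 := (kap_strict hμ hμ1 (n := max (y (m + 1) - y 0).toNat 1) (le_max_right _ _)).1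
    have h5 := h (max (y (m + 1) - y 0).toNat 1) (le_max_right _ _) (by
      have h6 : (y (m + 1) - y 0) ≤ ((y (m + 1) - y 0).toNat : ℤ) := Int.self_le_toNat _
      have h7 : (((y (m + 1) - y 0).toNat : ℕ) : ℤ) ≤ ((max (y (m + 1) - y 0).toNat 1 : ℕ) : ℤ) := by
        exact_mod_cast le_max_left _ _
      linarith)
    linarith

end Pool.Agent.MP658x
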