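import Mathlib

/-!
# MP_658dbf_an, project X: the norm argument
-/

set_option autoImplicit false

namespace Pool.Agent.MP658x

open Finset

/-- `∑_{i < n} c i e^{2 π i i j / n}` -/
noncomputable def xi (n : ℕ) (c : ℕ → ℤ) (j : ℕ) : ℂ :=
  ∑ i ∈ range n, (c i : ℂ) * Complex.exp (2 * Real.pi * Complex.I * (i * j : ℕ) / n)

private theorem NormArg_xi_eq (n : ℕ) (c : ℕ → ℤ) (j : ℕ) :
    xi n c j = ∑ i ∈ range n, (c i : ℂ) *
      (Complex.exp (2 * Real.pi * Complex.I * ((j : ℂ) / (n : ℂ)))) ^ i := by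
  unfold xi
  refine Finset.sum_congr rfl fun i _ => ?_
  rw [← Complex.exp_nat_mul]
  congr 2
  push_cast
  ring

private theorem NormArg_one_le_gen {n : ℕ} (hn : 3 ≤ n) (c : ℕ → ℤ)
    (h1 : xi n c 1 ≠ 0) (K : Type) [Field K] [Algebra ℚ K] [IsCyclotomicExtension {n} ℚ K] :
    1 ≤ ∏ μ ∈ primitiveRoots n ℂ, ‖∑ i ∈ range n, (c i : ℂ) * μ ^ i‖ := by
  have : NeZero n := ⟨by omega⟩
  have hfd : FiniteDimensional ℚ K := IsCyclotomicExtension.finiteDimensional {n} ℚ K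
  have hz : IsPrimitiveRoot (IsCyclotomicExtension.zeta n ℚ K) n :=
    IsCyclotomicExtension.zeta_spec n ℚ K
  set z := IsCyclotomicExtension.zeta n ℚ K with hzdef
  have hirr : Irreducible (Polynomial.cyclotomic n ℚ) :=
    Polynomial.cyclotomic.irreducible_rat (by omega)
  set a : K := ∑ i ∈ range n, (c i : K) * z ^ i with ha
  have hint : IsIntegral ℤ a := by
    refine IsIntegral.sum _ fun i _ => ?_
    refine IsIntegral.mul ?_ ((hz.isIntegral (by omega)).pow i)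
    exact isIntegral_algebraMap (R := ℤ) (A := K) (x := c i)
  have hnormint : IsIntegral ℤ (Algebra.norm ℚ a) := Algebra.isIntegral_norm ℚ hint
  obtain ⟨N, hN⟩ := IsIntegrallyClosed.isIntegral_iff.1 hnormint
  have hσa : ∀ σ : K →ₐ[ℚ] ℂ, σ a = ∑ i ∈ range n, (c i : ℂ) * (σ z) ^ i := by
    intro σ
    rw [ha, map_sum]
    refine Finset.sum_congr rfl fun i _ => ?_
    rw [map_mul, map_pow, map_intCast]
  have hprod : algebraMap ℚ ℂ (Algebra.norm ℚ a)
      = ∏ μ ∈ primitiveRoots n ℂ, ∑ i ∈ range n, (c i : ℂ) * μ ^ i := by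
    rw [Algebra.norm_eq_prod_embeddings ℚ ℂ]
    rw [← Finset.prod_coe_sort (primitiveRoots n ℂ)
      (fun μ => ∑ i ∈ range n, (c i : ℂ) * μ ^ i)]
    refine Fintype.prod_equiv (hz.embeddingsEquivPrimitiveRoots ℂ hirr) _ _ fun σ => ?_
    rw [hσa, hz.embeddingsEquivPrimitiveRoots_apply_coe ℂ hirr σ]
  have hne : (∏ μ ∈ primitiveRoots n ℂ, ∑ i ∈ range n, (c i : ℂ) * μ ^ i) ≠ 0 := by
    rw [← hprod]
    intro h
    have h0 : Algebra.norm ℚ a = 0 := by
      simpa using h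
    have ha0 : a = 0 := Algebra.norm_eq_zero_iff.1 h0
    have hp : Complex.exp (2 * Real.pi * Complex.I * (((1 : ℕ) : ℂ) / (n : ℂ)))
        ∈ primitiveRoots n ℂ := by
      rw [mem_primitiveRoots (by omega)]
      exact Complex.isPrimitiveRoot_exp_of_coprime 1 n (by omega) (by simp)
    let σ := (hz.embeddingsEquivPrimitiveRoots ℂ hirr).symm ⟨_, hp⟩
    have hσ : σ z = Complex.exp (2 * Real.pi * Complex.I * (((1 : ℕ) : ℂ) / (n : ℂ))) := by
      have h2 := hz.embeddingsEquivPrimitiveRoots_apply_coe ℂ hirr σ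
      rw [← h2]
      simp [σ]
    apply h1
    rw [NormArg_xi_eq, ← hσ, ← hσa, ha0, map_zero]
  have hN0 : N ≠ 0 := by
    rintro rfl
    apply hne
    rw [← hprod, ← hN]
    simp
  have hcast : algebraMap ℚ ℂ (Algebra.norm ℚ a) = (N : ℂ) := by
    rw [← hN]; simp
  rw [← norm_prod, ← hprod, hcast, Complex.norm_intCast]
  exact_mod_cast Int.one_le_abs hN0

private theorem NormArg_one_le {n : ℕ} (hn : 3 ≤ n) (c : ℕ → ℤ)
    (h1 : xi n c 1 ≠ 0) :
    1 ≤ ∏ μ ∈ primitiveRoots n ℂ, ‖∑ i ∈ range n, (c i : ℂ) * μ ^ i‖ := by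
  have : NeZero n := ⟨by omega⟩
  have : NeZero ((n : ℕ) : ℚ) := ⟨by
    have : n ≠ 0 := by omega
    exact_mod_cast this⟩
  exact @NormArg_one_le_gen n hn c h1 (CyclotomicField n ℚ) _ _
    (CyclotomicField.isCyclotomicExtension n ℚ)

/-- Norm from the `n`-th cyclotomic field: `∏_{j coprime to n} xi n c j` is an integer (`Algebra.norm_eq_
prod_embeddings` for `∑ c i ζ^i`, or the resultant of `∑ c i X^i` and the cyclotomic polynomial), it is
not zero since `xi n c 1 ≠ 0`. There are at least `4` factors of absolute value `≤ δ ≤ 1` and two of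
absolute value `≤ M`. -/
theorem norm_arg {n : ℕ} (hn : 3 ≤ n) (h6 : 6 ≤ n.totient) (c : ℕ → ℤ) (h1 : xi n c 1 ≠ 0)
    {M δ : ℝ} (hM : 1 ≤ M) (hδ : δ ≤ 1)
    (hM1 : ‖xi n c 1‖ ≤ M) (hM2 : ‖xi n c (n - 1)‖ ≤ M)
    (hδ2 : ∀ j, 1 < j → j < n - 1 → j.Coprime n → ‖xi n c j‖ ≤ δ) : 1 ≤ M ^ 2 * δ ^ 4 := by
  have hn0 : n ≠ 0 := by omega
  set e : ℕ → ℂ := fun j => Complex.exp (2 * Real.pi * Complex.I * ((j : ℂ) / (n : ℂ))) with he
  have hexi : ∀ j, xi n c j = ∑ i ∈ range n, (c i : ℂ) * (e j) ^ i := fun j => NormArg_xi_eq n c j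
  have hprim : ∀ j, j.Coprime n → e j ∈ primitiveRoots n ℂ := by
    intro j hj
    rw [mem_primitiveRoots (by omega)]
    exact Complex.isPrimitiveRoot_exp_of_coprime j n hn0 hj
  have hinj : ∀ i j, i < n → j < n → e i = e j → i = j := by
    intro i j hi hj h
    have hprim1 : IsPrimitiveRoot (Complex.exp (2 * Real.pi * Complex.I / n)) n :=
      Complex.isPrimitiveRoot_exp n hn0
    have hpow : ∀ k, e k = (Complex.exp (2 * Real.pi * Complex.I / n)) ^ k := by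
      intro k
      simp only [he]
      rw [← Complex.exp_nat_mul]
      congr 1
      ring
    rw [hpow, hpow] at h
    exact hprim1.pow_inj hi hj h
  have hone := NormArg_one_le hn c h1
  set F : ℂ → ℝ := fun μ => ‖∑ i ∈ range n, (c i : ℂ) * μ ^ i‖ with hF
  have hFe : ∀ j, F (e j) = ‖xi n c j‖ := fun j => by rw [hexi]
  have hcop : (n - 1).Coprime n := by
    have : n.Coprime (n - 1) := by
      have h := (Nat.coprime_self_sub_right (m := 1) (n := n) (by omega)).2 (by simp)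
      exact h
    exact this.symm
  have m1 : e 1 ∈ primitiveRoots n ℂ := hprim 1 (by simp)
  have m2 : e (n - 1) ∈ primitiveRoots n ℂ := hprim (n - 1) hcop
  have hne : e (n - 1) ≠ e 1 := by
    intro h
    have := hinj _ _ (by omega) (by omega) h
    omega
  have m2' : e (n - 1) ∈ (primitiveRoots n ℂ).erase (e 1) := Finset.mem_erase.2 ⟨hne, m2⟩
  set R := ((primitiveRoots n ℂ).erase (e 1)).erase (e (n - 1)) with hR
  have hcard : 4 ≤ R.card := by
    rw [hR, Finset.card_erase_of_mem m2', Finset.card_erase_of_mem m1, Complex.card_primitiveRoots]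
    omega
  have hRle : ∀ μ ∈ R, F μ ≤ δ := by
    intro μ hμ
    rw [hR, Finset.mem_erase, Finset.mem_erase] at hμ
    obtain ⟨hμ2, hμ1, hμ⟩ := hμ
    rw [mem_primitiveRoots (by omega), Complex.isPrimitiveRoot_iff _ _ hn0] at hμ
    obtain ⟨j, hj, hjc, hje⟩ := hμ
    have hμe : e j = μ := hje
    have hj0 : j ≠ 0 := by
      rintro rfl
      simp at hjc
      omega
    have hj1 : j ≠ 1 := by
      rintro rfl
      exact hμ1 hμe.symm
    have hj2 : j ≠ n - 1 := by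
      rintro rfl
      exact hμ2 hμe.symm
    rw [← hμe, hFe]
    exact hδ2 j (by omega) (by omega) hjc
  have hFnn : ∀ μ, 0 ≤ F μ := fun μ => norm_nonneg _
  have hδ0 : 0 ≤ δ := by
    obtain ⟨μ, hμ⟩ : R.Nonempty := Finset.card_pos.1 (by omega)
    exact (hFnn μ).trans (hRle μ hμ)
  have hsplit : ∏ μ ∈ primitiveRoots n ℂ, F μ = F (e 1) * (F (e (n - 1)) * ∏ μ ∈ R, F μ) := by
    rw [hR, Finset.mul_prod_erase _ _ m2', Finset.mul_prod_erase _ _ m1]
  have hRprod : ∏ μ ∈ R, F μ ≤ δ ^ 4 := by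
    calc ∏ μ ∈ R, F μ ≤ ∏ _μ ∈ R, δ := Finset.prod_le_prod (fun μ _ => hFnn μ) hRle
      _ = δ ^ R.card := by rw [Finset.prod_const]
      _ ≤ δ ^ 4 := pow_le_pow_of_le_one hδ0 hδ hcard
  have hRnn : 0 ≤ ∏ μ ∈ R, F μ := Finset.prod_nonneg fun μ _ => hFnn μ
  have hM0 : 0 ≤ M := by linarith
  calc (1 : ℝ) ≤ ∏ μ ∈ primitiveRoots n ℂ, F μ := hone
    _ = F (e 1) * (F (e (n - 1)) * ∏ μ ∈ R, F μ) := hsplit
    _ ≤ M * (M * δ ^ 4) := by
        refine mul_le_mul (by rw [hFe]; exact hM1) ?_ (mul_nonneg (hFnn _) hRnn) hM0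
        exact mul_le_mul (by rw [hFe]; exact hM2) hRprod hRnn hM0
    _ = M ^ 2 * δ ^ 4 := by ring

end Pool.Agent.MP658x
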