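import Pool.Agent.Lib.MP_658dbf_an_X.PatOf
import Pool.Agent.Lib.MP_658dbf_an_X.NormArg

/-!
# MP_658dbf_an, project X: Fourier coefficients of the Chebyshev nodes
-/

set_option autoImplicit false

namespace Pool.Agent.MP658x

open Finset

/-- the symmetric extension of `cc` to `i < 2 k` -/
def ccs (k : ℕ) (y : ℕ → ℤ) (i : ℕ) : ℤ := if i ≤ k then cc k y i else cc k y (2 * k - i)

private theorem Fourier_geom {N : ℕ} {ζ : ℂ} (hN : 0 < N) (hζ : IsPrimitiveRoot ζ N) (m : ℕ) :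
    ∑ i ∈ range N, (ζ ^ m) ^ i = if N ∣ m then (N : ℂ) else 0 := by
  by_cases h : N ∣ m
  · rw [if_pos h]
    have h1 : ζ ^ m = 1 := (hζ.pow_eq_one_iff_dvd m).2 h
    simp [h1]
  · rw [if_neg h]
    have h1 : ζ ^ m ≠ 1 := fun h2 => h ((hζ.pow_eq_one_iff_dvd m).1 h2)
    rw [geom_sum_eq h1, ← pow_mul, mul_comm m N, pow_mul, hζ.pow_eq_one, one_pow, sub_self,
      zero_div]

/-- `∑_{i < 2k} (-cos (π i / k)) e^{π i i j / k} = -k` for `j = 1, 2k - 1` and `= 0` for `1 < j < 2k - 1` -/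
theorem tau_fourier {k j : ℕ} (hk : 2 ≤ k) (hj : 1 ≤ j) (hj2 : j ≤ 2 * k - 1) :
    ∑ i ∈ range (2 * k), ((-Real.cos (i * Real.pi / k) : ℝ) : ℂ) *
      Complex.exp (2 * Real.pi * Complex.I * (i * j : ℕ) / (2 * k : ℕ)) =
      if j = 1 ∨ j = 2 * k - 1 then -(k : ℂ) else 0 := by
  have hN : 0 < 2 * k := by omega
  have hk0 : (k : ℂ) ≠ 0 := by
    have : k ≠ 0 := by omega
    exact_mod_cast this
  have hζ := Complex.isPrimitiveRoot_exp (2 * k) hN.ne'
  set ζ : ℂ := Complex.exp (2 * Real.pi * Complex.I / (2 * k : ℕ)) with hζd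
  have hζ0 : ζ ≠ 0 := Complex.exp_ne_zero _
  have hterm : ∀ i ∈ range (2 * k), ((-Real.cos (i * Real.pi / k) : ℝ) : ℂ) *
      Complex.exp (2 * Real.pi * Complex.I * (i * j : ℕ) / (2 * k : ℕ)) =
      (-1 / 2) * ((ζ ^ (j + 1)) ^ i + (ζ ^ (j - 1)) ^ i) := by
    intro i _
    have e1 : Complex.exp (2 * Real.pi * Complex.I * (i * j : ℕ) / (2 * k : ℕ)) =
        ζ ^ (i * j) := by
      rw [hζd, ← Complex.exp_nat_mul]
      congr 1
      ring
    have e2 : Complex.exp ((i : ℂ) * Real.pi / k * Complex.I) = ζ ^ i := by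
      rw [hζd, ← Complex.exp_nat_mul]
      congr 1
      push_cast
      field_simp
    have e3 : Complex.exp (-((i : ℂ) * Real.pi / k) * Complex.I) = (ζ ^ i)⁻¹ := by
      rw [neg_mul, Complex.exp_neg, e2]
    have e4 : ((-Real.cos (i * Real.pi / k) : ℝ) : ℂ) = (-1 / 2) * (ζ ^ i + (ζ ^ i)⁻¹) := by
      push_cast
      rw [Complex.cos, e2, e3]
      ring
    rw [e4, e1]
    have e5 : ζ ^ (i * j) = (ζ ^ (j - 1)) ^ i * ζ ^ i := by
      rw [← pow_mul, ← pow_add]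
      congr 1
      obtain ⟨l, rfl⟩ : ∃ l, j = l + 1 := ⟨j - 1, by omega⟩
      rw [Nat.add_sub_cancel]
      ring
    have e6 : (ζ ^ (j + 1)) ^ i = (ζ ^ (j - 1)) ^ i * ζ ^ i * ζ ^ i := by
      rw [← pow_mul, ← pow_mul, ← pow_add, ← pow_add]
      congr 1
      obtain ⟨l, rfl⟩ : ∃ l, j = l + 1 := ⟨j - 1, by omega⟩
      rw [Nat.add_sub_cancel]
      ring
    rw [e5, e6]
    have h0 : ζ ^ i ≠ 0 := pow_ne_zero _ hζ0
    field_simp
  rw [Finset.sum_congr rfl hterm, ← Finset.mul_sum, Finset.sum_add_distrib,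
    Fourier_geom hN hζ, Fourier_geom hN hζ]
  have d1 : 2 * k ∣ j + 1 ↔ j = 2 * k - 1 := by
    constructor
    · intro h
      have := Nat.le_of_dvd (by omega) h
      omega
    · intro h
      exact ⟨1, by omega⟩
  have d2 : 2 * k ∣ j - 1 ↔ j = 1 := by
    constructor
    · intro h
      rcases Nat.eq_zero_or_pos (j - 1) with h0 | h0
      · omega
      · have := Nat.le_of_dvd h0 h
        omega
    · intro h
      rw [h]
      exact ⟨0, by omega⟩
  by_cases c1 : j = 1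
  · have c2 : j ≠ 2 * k - 1 := by omega
    rw [if_neg (fun h => c2 (d1.1 h)), if_pos (d2.2 c1), if_pos (Or.inl c1)]
    push_cast
    ring
  · by_cases c2 : j = 2 * k - 1
    · rw [if_pos (d1.2 c2), if_neg (fun h => c1 (d2.1 h)), if_pos (Or.inr c2)]
      push_cast
      ring
    · rw [if_neg (fun h => c2 (d1.1 h)), if_neg (fun h => c1 (d2.1 h)),
        if_neg (by tauto)]
      ring

end Pool.Agent.MP658x
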