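import Pool.Agent.Lib.MP_658dbf_an_X.TVar

/-!
# MP_658dbf_an, project X: the leftmost top plateau
-/

set_option autoImplicit false

namespace Pool.Agent.MP658x

open Finset

variable {κ T : ℕ → ℝ} {N : ℕ} {S S' : ℤ → ℤ} {p t h : ℤ}

/-- `[p, t)` is the leftmost plateau of height `h = max |S|` -/
structure Top (N : ℕ) (S : ℤ → ℤ) (h p t : ℤ) : Prop where
  sup : Sup N S
  lip : ∀ n, |Dl S n| ≤ 1
  uni : Uni S
  max : ∀ n, |S n| ≤ h
  eqp : S p = h
  left : ∀ n < p, S n < h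
  lt : p < t
  net : S t ≠ h
  plat : ∀ n, p ≤ n → n < t → S n = h

/-- `|Dl f| ≤ 1` gives Lipschitz bounds -/
theorem lip_le {f : ℤ → ℤ} (hl : ∀ n, |Dl f n| ≤ 1) {a b : ℤ} (hab : a ≤ b) :
    |f b - f a| ≤ b - a := by
  induction b, hab using Int.leInduction with
  | base => simp
  | succ b hb ih =>
    have h1 := hl (b + 1)
    unfold Dl at h1
    rw [add_sub_cancel_right] at h1
    rw [abs_le] at h1 ih ⊢
    constructor <;> linarith [h1.1, h1.2, ih.1, ih.2]

private theorem layerA_val (hT : Top N S h p t)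
    (hS' : ∀ n, S n = S' n + if p ≤ n ∧ n < t then 1 else 0) :
    S (p - 1) = h - 1 ∧ S t = h - 1 ∧ S' p = h - 1 ∧ S' (p - 1) = h - 1 ∧ S' t = h - 1 ∧
      S' (t - 1) = h - 1 := by
  have h1 := hT.lip p
  have h2 := hT.left (p - 1) (by omega)
  have h3 := hT.eqp
  have h4 := hT.lip t
  have h5 := hT.plat (t - 1) (by have := hT.lt; omega) (by omega)
  have h6 := hT.max t
  have h7 := hT.net
  unfold Dl at h1 h4
  rw [abs_le] at h1 h4 h6
  have e1 : S (p - 1) = h - 1 := by omega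
  have e2 : S t = h - 1 := by
    have : S t < h := lt_of_le_of_ne h6.2 h7
    omega
  have e3 := hS' p
  rw [if_pos ⟨le_rfl, hT.lt⟩] at e3
  have e4 := hS' (p - 1)
  rw [if_neg (by omega)] at e4
  have e5 := hS' t
  rw [if_neg (by omega)] at e5
  have e6 := hS' (t - 1)
  rw [if_pos ⟨by have := hT.lt; omega, by omega⟩] at e6
  refine ⟨e1, e2, by omega, by omega, by omega, by omega⟩

/-- `S'` is again 1-Lipschitz: `Dl S' p = 0` and `Dl S' t = 0` (`S (p-1) = h-1`, `S t = h-1`). -/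
theorem top_lip (hh : 1 ≤ h) (hT : Top N S h p t)
    (hS' : ∀ n, S n = S' n + if p ≤ n ∧ n < t then 1 else 0) (n : ℤ) :
    |Dl S' n| ≤ 1 ∧ Dl S' p = 0 ∧ Dl S' t = 0 := by
  obtain ⟨e1, e2, e3, e4, e5, e6⟩ := layerA_val hT hS'
  have hp : Dl S' p = 0 := by unfold Dl; omega
  have ht : Dl S' t = 0 := by unfold Dl; omega
  refine ⟨?_, hp, ht⟩
  by_cases h1 : n = p
  · rw [h1, hp]; simp
  by_cases h2 : n = t
  · rw [h2, ht]; simp
  have h3 : Dl S' n = Dl S n := by
    unfold Dl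
    rw [hS' n, hS' (n - 1)]
    by_cases h4 : p ≤ n ∧ n < t
    · rw [if_pos h4, if_pos (by omega)]
      ring
    · rw [if_neg h4, if_neg (by omega)]
      ring
  rw [h3]
  exact hT.lip n

/-- `S' (p + j) - S' (p - 1 - j) ≤ j`. We have `S' (p - 1 - j) ≥ h - 1 - j` by `top_lip` (`S' (p-1) =
h-1`). If `S' (p + j) ≤ h - 1` we are done. Otherwise `S' (p + j) = h`, so `p + j > t` and `S (p + j)
= h` (values of `S'` on `[p, t)` are `h - 1`), `S t < h`: (U) with `a = p`, `c = t`, `b = p + j` gives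
`z` in between with `S z < 0`, so `j ≥ 2 h + 2` (`lip_le` twice) and `S' (p + j) - S' (p - 1 - j) ≤
2 h ≤ j`. -/
theorem top_D1 (hh : 1 ≤ h) (hT : Top N S h p t)
    (hS' : ∀ n, S n = S' n + if p ≤ n ∧ n < t then 1 else 0) (j : ℕ) :
    S' (p + j) - S' (p - 1 - j) ≤ j := by
  obtain ⟨e1, e2, e3, e4, e5, e6⟩ := layerA_val hT hS'
  have hl : ∀ n, |Dl S' n| ≤ 1 := fun n => (top_lip hh hT hS' n).1
  have h1 := lip_le hl (show p - 1 - (j : ℤ) ≤ p - 1 by omega)
  rw [abs_le] at h1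
  by_cases h2 : S' (p + j) ≤ h - 1
  · omega
  have h3 := hS' (p + j)
  have h4 := hT.max (p + j)
  rw [abs_le] at h4
  have h5 : ¬ (p ≤ p + (j : ℤ) ∧ p + (j : ℤ) < t) := by
    intro h6
    have h7 := hT.plat _ h6.1 h6.2
    rw [if_pos h6] at h3
    omega
  rw [if_neg h5] at h3
  have h6 : S (p + j) = h := by omega
  have h7 : t < p + j := by
    rcases lt_trichotomy t (p + (j : ℤ)) with h | h | h
    · exact h
    · rw [← h] at h6
      omega
    · exact absurd ⟨by omega, h⟩ h5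
  have h8 := hT.eqp
  obtain ⟨z, hz1, hz2, hz3⟩ := hT.uni 1 p t (p + j) (Or.inl rfl) hT.lt h7 (by omega) (by omega)
  have h9 := lip_le hT.lip hz1.le
  have h10 := lip_le hT.lip hz2.le
  rw [abs_le] at h9 h10
  have h11 := hS' (p - 1 - j)
  rw [if_neg (by omega)] at h11
  have h12 := hT.max (p - 1 - j)
  rw [abs_le] at h12
  omega

/-- `S' (t - 1 - j) ≤ h - 1` (left of `t` all values of `S'` are `≤ h - 1`) and `S' (t + j) ≥ h - 1 - j`
(`S' t = S t = h - 1`). -/
theorem top_D2 (hh : 1 ≤ h) (hT : Top N S h p t)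
    (hS' : ∀ n, S n = S' n + if p ≤ n ∧ n < t then 1 else 0) (j : ℕ) :
    S' (t - 1 - j) - S' (t + j) ≤ j := by
  obtain ⟨e1, e2, e3, e4, e5, e6⟩ := layerA_val hT hS'
  have hl : ∀ n, |Dl S' n| ≤ 1 := fun n => (top_lip hh hT hS' n).1
  have h1 := lip_le hl (show t ≤ t + (j : ℤ) by omega)
  rw [abs_le] at h1
  have h2 := hS' (t - 1 - j)
  have h3 : S' (t - 1 - j) ≤ h - 1 := by
    by_cases h4 : p ≤ t - 1 - (j : ℤ)
    · rw [if_pos ⟨h4, by omega⟩] at h2
      have h5 := hT.plat _ h4 (by omega)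
      omega
    · rw [if_neg (by omega)] at h2
      have h5 := hT.left (t - 1 - j) (by omega)
      omega
  omega

end Pool.Agent.MP658x
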