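import Pool.Agent.Lib.MP_658dbf_an_X.EDiff
import Pool.Agent.Lib.MP_658dbf_an_X.KerFacts
import Pool.Agent.Lib.MP_658dbf_an_X.LayerA

/-!
# MP_658dbf_an, project X: removal of a layer does not increase the energy
-/

set_option autoImplicit false

namespace Pool.Agent.MP658x

open Finset

variable {κ T : ℕ → ℝ} {N : ℕ} {S S' : ℤ → ℤ} {p t h : ℤ}

/-- `E_layer`, `E_abel` at `p` and at `t` (the terms `(w + κ 1) (..)` vanish by `top_lip`), `abel1`
resp. `abel2`; `T 1 = κ 1 + κ 2 + T 3`. Note `0 ≤ p`, `t ≤ N`, `Sup N S'`. -/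
theorem layer_step (hK : Ker κ T) (hh : 1 ≤ h) (hT : Top N S h p t)
    (hS' : ∀ n, S n = S' n + if p ≤ n ∧ n < t then 1 else 0) :
    E κ (2 * T 1) (N + 1) (Dl S') ≤ E κ (2 * T 1) (N + 1) (Dl S) ∧
      ((∀ n, |S' n| ≤ 1) →
        E κ (2 * T 1) (N + 1) (Dl S') + 4 * T 3 ≤ E κ (2 * T 1) (N + 1) (Dl S)) := by
  have hpt := hT.lt
  have hp0 : 0 ≤ p := by
    by_contra hc
    have h1 := hT.sup p (Or.inl (by omega))
    rw [hT.eqp] at h1
    omega
  have htN : t ≤ N := by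
    by_contra hc
    have h1 := hT.sup (t - 1) (Or.inr (by omega))
    rw [hT.plat (t - 1) (by omega) (by omega)] at h1
    omega
  have hsup : Sup N S' := by
    intro n hn
    have h1 := hS' n
    rw [hT.sup n hn] at h1
    have h2 : ¬ (p ≤ n ∧ n < t) := by omega
    rw [if_neg h2] at h1
    omega
  obtain ⟨-, hDp, hDt⟩ := top_lip hh hT hS' p
  have hEl := E_layer (κ := κ) (w := 2 * T 1) hp0 hpt htN hS'
  have hAp := E_abel (κ := κ) (w := 2 * T 1) hsup hp0 (by omega)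
  have hAt := E_abel (κ := κ) (w := 2 * T 1) hsup (by omega : 0 ≤ t) htN
  have z1 : (S' p : ℝ) - S' (p - 1) = 0 := by
    unfold Dl at hDp
    exact_mod_cast hDp
  have z2 : (S' t : ℝ) - S' (t - 1) = 0 := by
    unfold Dl at hDt
    exact_mod_cast hDt
  rw [z1, mul_zero, zero_sub] at hAp
  rw [z2, mul_zero, zero_sub] at hAt
  have hsum : ∑ n ∈ Ico (0 : ℤ) ((N + 1 : ℕ) : ℤ),
        (Dl S' n : ℝ) * (ac κ (2 * T 1) (n - p) - ac κ (2 * T 1) (n - t)) =
      -(∑ j ∈ Icc 1 N, (κ j - κ (j + 1)) * ((S' (p + j) : ℝ) - S' (p - 1 - j))) -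
        ∑ j ∈ Icc 1 N, (κ j - κ (j + 1)) * ((S' (t - 1 - j) : ℝ) - S' (t + j)) := by
    simp only [mul_sub (Dl S' _ : ℝ) _ _, sum_sub_distrib]
    rw [hAp, hAt, ← sum_neg_distrib (f := fun j : ℕ =>
      (κ j - κ (j + 1)) * ((S' (t + j) : ℝ) - S' (t - 1 - j)))]
    congr 1
    refine sum_congr rfl fun j _ => ?_
    ring
  rw [hsum] at hEl
  have hκ := hK.nonneg (t - p).toNat
  have hT1 : T 1 = κ 1 + κ 2 + T 3 := by
    rw [hK.trec 1, hK.trec 2]
    ring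
  have d1 : ∀ j : ℕ, 1 ≤ j → ((S' (p + j) : ℝ) - S' (p - 1 - j)) ≤ j := fun j _ => by
    exact_mod_cast top_D1 hh hT hS' j
  have d2 : ∀ j : ℕ, 1 ≤ j → ((S' (t - 1 - j) : ℝ) - S' (t + j)) ≤ j := fun j _ => by
    exact_mod_cast top_D2 hh hT hS' j
  constructor
  · have a1 := abel1 hK N (fun j => (S' (p + j) : ℝ) - S' (p - 1 - j)) d1
    have a2 := abel1 hK N (fun j => (S' (t - 1 - j) : ℝ) - S' (t + j)) d2
    linarith
  · intro hS1
    have e1 : ∀ a b : ℤ, ((S' a : ℝ) - S' b) ≤ 2 := by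
      intro a b
      have h1 := abs_le.1 (hS1 a)
      have h2 := abs_le.1 (hS1 b)
      have h3 : S' a - S' b ≤ 2 := by omega
      exact_mod_cast h3
    have a1 := abel2 hK N (fun j => (S' (p + j) : ℝ) - S' (p - 1 - j)) d1 (fun j _ => e1 _ _)
    have a2 := abel2 hK N (fun j => (S' (t - 1 - j) : ℝ) - S' (t + j)) d2 (fun j _ => e1 _ _)
    linarith

end Pool.Agent.MP658x
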