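import Pool.Agent.Lib.MP_658dbf_an_X.LayerKeep
import Pool.Agent.Lib.MP_658dbf_an_X.Base
import Pool.Agent.Lib.MP_658dbf_an_X.Layer

/-!
# MP_658dbf_an, project X: the case `max |S| ≥ 2`
-/

set_option autoImplicit false

namespace Pool.Agent.MP658x

open Finset

variable {κ T : ℕ → ℝ} {N k : ℕ} {S : ℤ → ℤ} {σ x : ℤ}

/-- the statement for one function -/
private def LIc (κ T : ℕ → ℝ) (N k : ℕ) (S : ℤ → ℤ) : Prop :=
  Bd κ T k + 4 * T 3 ≤ E κ (2 * T 1) (N + 1) (Dl S)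

/-- one step, the maximum is attained with the sign `+` -/
private theorem li_step (hK : Ker κ T) (hS : Sup N S) (hl : ∀ n, |Dl S n| ≤ 1) (hU : Uni S)
    (hk : 1 ≤ k) (hσ : Sn σ) (hc : Ch S k σ x) {h : ℤ} (hh : 2 ≤ h) (hmax : ∀ n, |S n| ≤ h)
    (hex : ∃ n, S n = h)
    (ih : ∀ S' : ℤ → ℤ, Sup N S' → (∀ n, |Dl S' n| ≤ 1) → Uni S' → Ch S' k σ x →
      (∃ n, 2 ≤ |S' n|) →
      ∑ n ∈ Ico (0 : ℤ) (N : ℤ), |S' n| < ∑ n ∈ Ico (0 : ℤ) (N : ℤ), |S n| → LIc κ T N k S') :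
    LIc κ T N k S := by
  have hh1 : 1 ≤ h := by omega
  obtain ⟨p, t, hT⟩ := exists_top hS hl hU hh1 hmax hex
  set S' : ℤ → ℤ := fun n => S n - if p ≤ n ∧ n < t then 1 else 0 with hS'def
  have hS' : ∀ n, S n = S' n + if p ≤ n ∧ n < t then 1 else 0 := by
    intro n
    rw [hS'def]
    ring
  obtain ⟨h1, h2⟩ := layer_step hK hh1 hT hS'
  have h3 := keep_sup hh1 hT hS'
  have h4 : ∀ n, |Dl S' n| ≤ 1 := fun n => (top_lip hh1 hT hS' n).1
  have h5 := keep_ch hh hT hS' hc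
  unfold LIc
  by_cases h6 : ∀ n, |S' n| ≤ 1
  · have h7 := h2 h6
    have h8 := base_k hK h3 h6 h4 hk hσ h5 (d := N + 1) (by omega) (by
      intro a b ha hb
      have h9 : ¬ (a < 0 ∨ (N : ℤ) ≤ a) := fun h' => ha (h3 a h')
      have h10 : ¬ (b < 0 ∨ (N : ℤ) ≤ b) := fun h' => hb (h3 b h')
      push_cast
      omega)
    have h9 := hK.nonneg (N + 1)
    linarith
  · push Not at h6
    obtain ⟨n, hn⟩ := h6
    have h7 := ih S' h3 h4 (keep_uni hh hT hS') h5 ⟨n, by omega⟩ (keep_sum hh1 hT hS')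
    unfold LIc at h7
    linarith

private theorem li_max (hS : Sup N S) (h2 : ∃ n, 2 ≤ |S n|) :
    ∃ h : ℤ, 2 ≤ h ∧ (∀ n, |S n| ≤ h) ∧ ∃ n, |S n| = h := by
  obtain ⟨n, hn⟩ := h2
  have hmem : n ∈ Ico (0 : ℤ) (N : ℤ) := by
    rw [mem_Ico]
    by_contra h'
    have h3 : S n = 0 := hS n (by omega)
    rw [h3, abs_zero] at hn
    omega
  obtain ⟨n0, hn0, hmax⟩ := exists_max_image (Ico (0 : ℤ) (N : ℤ)) (fun n => |S n|) ⟨n, hmem⟩
  refine ⟨|S n0|, hn.trans (hmax n hmem), fun m => ?_, n0, rfl⟩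
  by_cases hm : m ∈ Ico (0 : ℤ) (N : ℤ)
  · exact hmax m hm
  · rw [mem_Ico] at hm
    rw [hS m (by omega), abs_zero]
    exact abs_nonneg _

private theorem li_all (hK : Ker κ T) (hk : 1 ≤ k) : ∀ (M : ℕ) (S : ℤ → ℤ) (σ x : ℤ),
    Sup N S → (∀ n, |Dl S n| ≤ 1) → Uni S → Sn σ → Ch S k σ x → (∃ n, 2 ≤ |S n|) →
    ∑ n ∈ Ico (0 : ℤ) (N : ℤ), |S n| ≤ M → LIc κ T N k S := by
  intro M
  induction M using Nat.strong_induction_on with
  | _ M ih =>
    intro S σ x hS hl hU hσ hc h2 hM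
    have ih' : ∀ τ : ℤ, Sn τ → ∀ S' : ℤ → ℤ, Sup N S' → (∀ n, |Dl S' n| ≤ 1) → Uni S' →
        Ch S' k τ x → (∃ n, 2 ≤ |S' n|) →
        ∑ n ∈ Ico (0 : ℤ) (N : ℤ), |S' n| < ∑ n ∈ Ico (0 : ℤ) (N : ℤ), |S n| →
        LIc κ T N k S' := by
      intro τ hτ S' h1 h3 h4 h5 h6 h7
      have h8 : 0 ≤ ∑ n ∈ Ico (0 : ℤ) (N : ℤ), |S' n| := sum_nonneg fun _ _ => abs_nonneg _
      refine ih (∑ n ∈ Ico (0 : ℤ) (N : ℤ), |S' n|).toNat (by omega) S' τ x h1 h3 h4 hτ h5 h6 ?_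
      rw [Int.toNat_of_nonneg h8]
    obtain ⟨h, hh, hmax, n, hn⟩ := li_max hS h2
    rcases abs_choice (S n) with h3 | h3
    · exact li_step hK hS hl hU hk hσ hc hh hmax ⟨n, by omega⟩ (ih' σ hσ)
    · have hD : Dl (fun n => -S n) = fun n => -Dl S n := by
        funext n
        unfold Dl
        ring
      have h4 : LIc κ T N k (fun n => -S n) := by
        refine li_step hK (σ := -σ) (x := x) ?_ ?_ (uni_neg hU) hk (Sn_neg hσ) (ch_neg hc) hh ?_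
          ⟨n, by omega⟩ ?_
        · intro m hm
          show -S m = 0
          rw [hS m hm, neg_zero]
        · intro m
          rw [hD, abs_neg]
          exact hl m
        · intro m
          rw [abs_neg]
          exact hmax m
        · simp only [abs_neg]
          exact ih' (-σ) (Sn_neg hσ)
      unfold LIc at h4 ⊢
      rw [hD, E_neg] at h4
      exact h4

/-- Strong induction on `∑ |S|`. Let `h = max |S| ≥ 2`; replace `S` by `-S` if `h` is not a value of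
`S` (`E_neg`, `uni_neg`, `ch_neg`). Remove the leftmost plateau (`exists_top`, `layer_step`, `keep_*`).
If `|S'| ≤ 1` everywhere: `base_k` (with `d = N + 1`, drop `κ_d ≥ 0`) and the second part of
`layer_step`; otherwise the induction hypothesis and the first part. -/
theorem layer_ind (hK : Ker κ T) (hS : Sup N S) (hl : ∀ n, |Dl S n| ≤ 1) (hU : Uni S)
    (hk : 1 ≤ k) (hσ : Sn σ) (hc : Ch S k σ x) (h2 : ∃ n, 2 ≤ |S n|) :
    Bd κ T k + 4 * T 3 ≤ E κ (2 * T 1) (N + 1) (Dl S) := by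
  have h8 : 0 ≤ ∑ n ∈ Ico (0 : ℤ) (N : ℤ), |S n| := sum_nonneg fun _ _ => abs_nonneg _
  exact li_all hK hk (∑ n ∈ Ico (0 : ℤ) (N : ℤ), |S n|).toNat S σ x hS hl hU hσ hc h2
    (by rw [Int.toNat_of_nonneg h8])

end Pool.Agent.MP658x
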