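import Pool.Agent.Lib.MP_658dbf_an_X.LayerA

/-!
# MP_658dbf_an, project X: removal of a layer keeps the chains
-/

set_option autoImplicit false

namespace Pool.Agent.MP658x

open Finset

variable {N k : ℕ} {S S' : ℤ → ℤ} {p t h σ x : ℤ}

theorem keep_max (hh : 1 ≤ h) (hT : Top N S h p t)
    (hS' : ∀ n, S n = S' n + if p ≤ n ∧ n < t then 1 else 0) (n : ℤ) : |S' n| ≤ h := by
  have h1 := hS' n
  by_cases hn : p ≤ n ∧ n < t
  · rw [if_pos hn, hT.plat n hn.1 hn.2] at h1
    rw [abs_le]
    omega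
  · rw [if_neg hn, add_zero] at h1
    rw [← h1]
    exact hT.max n

/-- the signs are kept for `h ≥ 2`; induction on the length of the chain -/
theorem keep_ch (hh : 2 ≤ h) (hT : Top N S h p t)
    (hS' : ∀ n, S n = S' n + if p ≤ n ∧ n < t then 1 else 0) (hc : Ch S k σ x) :
    Ch S' k σ x := by
  induction k generalizing σ x with
  | zero => trivial
  | succ k ih =>
    obtain ⟨y, hy, hpos, hc'⟩ := hc
    refine ⟨y, hy, ?_, ih hc'⟩
    have h1 := hS' y
    by_cases hn : p ≤ y ∧ y < t
    · have h2 := hT.plat y hn.1 hn.2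
      rw [if_pos hn, h2] at h1
      rw [h2] at hpos
      have h3 : S' y = h - 1 := by omega
      have hσ : 0 < σ := by
        by_contra hcon
        push Not at hcon
        nlinarith
      rw [h3]
      nlinarith
    · rw [if_neg hn, add_zero] at h1
      rw [← h1]
      exact hpos

/-- the sum of the absolute values drops -/
theorem keep_sum (hh : 1 ≤ h) (hT : Top N S h p t)
    (hS' : ∀ n, S n = S' n + if p ≤ n ∧ n < t then 1 else 0) :
    ∑ n ∈ Ico (0 : ℤ) (N : ℤ), |S' n| < ∑ n ∈ Ico (0 : ℤ) (N : ℤ), |S n| := by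
  have hval : ∀ n, p ≤ n → n < t → |S' n| < |S n| := by
    intro n h1 h2
    have h3 := hS' n
    rw [if_pos ⟨h1, h2⟩, hT.plat n h1 h2] at h3
    rw [hT.plat n h1 h2, show S' n = h - 1 by omega, abs_of_nonneg (by omega),
      abs_of_nonneg (by omega)]
    omega
  refine Finset.sum_lt_sum ?_ ⟨p, ?_, hval p le_rfl hT.lt⟩
  · intro n _
    by_cases hn : p ≤ n ∧ n < t
    · exact (hval n hn.1 hn.2).le
    · have h3 := hS' n
      rw [if_neg hn, add_zero] at h3
      rw [h3]
  · rw [Finset.mem_Ico]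
    by_contra hcon
    have h4 := hT.sup p (by omega)
    rw [hT.eqp] at h4
    omega

theorem uni_neg (hU : Uni S) : Uni (fun n => -S n) := by
  intro s a c b hs hac hcb h1 h2
  obtain ⟨z, hz1, hz2, hz3⟩ := hU (-s) a c b (Sn_neg hs) hac hcb
    (by
      have h3 : s * -S c < s * -S a := h1
      linarith)
    (by
      have h3 : s * -S c < s * -S b := h2
      linarith)
  refine ⟨z, hz1, hz2, ?_⟩
  show s * -S z < 0
  linarith

theorem ch_neg (h : Ch S k σ x) : Ch (fun n => -S n) k (-σ) x := by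
  induction k generalizing σ x with
  | zero => trivial
  | succ k ih =>
    obtain ⟨y, hy, hpos, hc'⟩ := h
    refine ⟨y, hy, ?_, ih hc'⟩
    show 0 < -σ * -S y
    linarith

end Pool.Agent.MP658x
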