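import Pool.Agent.Lib.MP_658dbf_an_X.LayerA

/-!
# MP_658dbf_an, project X: existence of the top plateau, its removal keeps (U)
-/

set_option autoImplicit false

namespace Pool.Agent.MP658x

open Finset

variable {N k : ℕ} {S S' : ℤ → ℤ} {p t h σ x : ℤ}

/-- the leftmost plateau exists: `p` the least point with `S p = h`, `t` the least point `> p` with
`S t ≠ h` (finite support, `h ≥ 1`) -/
theorem exists_top (hS : Sup N S) (hl : ∀ n, |Dl S n| ≤ 1) (hU : Uni S) (hh : 1 ≤ h)
    (hmax : ∀ n, |S n| ≤ h) (hex : ∃ n, S n = h) : ∃ p t, Top N S h p t := by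
  obtain ⟨p, hp, hpl⟩ := Int.exists_least_of_bdd (P := fun n => S n = h)
    ⟨0, fun z hz => by
      by_contra hc
      have h1 := hS z (Or.inl (by omega))
      have h2 : S z = h := hz
      omega⟩ hex
  obtain ⟨t, ht, htl⟩ := Int.exists_least_of_bdd (P := fun n => p < n ∧ S n ≠ h)
    ⟨p, fun z hz => hz.1.le⟩ ⟨max (N : ℤ) (p + 1), by
      refine ⟨by omega, ?_⟩
      rw [hS _ (Or.inr (le_max_left _ _))]
      omega⟩
  refine ⟨p, t, ⟨hS, hl, hU, hmax, hp, ?_, ht.1, ht.2, ?_⟩⟩
  · intro n hn
    have h1 : S n ≤ h := (le_abs_self _).trans (hmax n)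
    rcases lt_or_eq_of_le h1 with h2 | h2
    · exact h2
    · have := hpl n h2
      omega
  · intro n hn1 hn2
    rcases lt_or_eq_of_le hn1 with h2 | h2
    · by_contra hc
      have := htl n ⟨h2, hc⟩
      omega
    · rw [← h2]
      exact hp

theorem keep_sup (hh : 1 ≤ h) (hT : Top N S h p t)
    (hS' : ∀ n, S n = S' n + if p ≤ n ∧ n < t then 1 else 0) : Sup N S' := by
  intro n hn
  have h1 := hT.sup n hn
  have h2 := hS' n
  split_ifs at h2 with hc
  · have := hT.plat n hc.1 hc.2
    omega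
  · omega

/-- Case `s = 1`: if `c ∉ [p, t)`, use (U) for `S` at the same points (`S c = S' c`, `S a ≥ S' a`,
`S b ≥ S' b`, and `S z < 0` gives `S' z < 0`). If `c ∈ [p, t)`: `S' c = h - 1 < S' a` forces `S' a = h`,
`a ∉ [p, t)`, `a < p`: contradiction with `left`. Case `s = -1`: if `c ∈ [p, t)` then `z = c` works,
as `S' c = h - 1 ≥ 1`. If `c ∉ [p, t)` and `a ∈ [p, t)` or `b ∈ [p, t)`: `S' c > h - 1 ≥ 1`, `z = c`
works. Otherwise (U) for `S` gives `z` with `S z > 0`, and `S' z > 0` (`S' z = S z` or `h - 1`). -/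
theorem keep_uni (hh : 2 ≤ h) (hT : Top N S h p t)
    (hS' : ∀ n, S n = S' n + if p ≤ n ∧ n < t then 1 else 0) : Uni S' := by
  have hin : ∀ n, p ≤ n → n < t → S' n = h - 1 := by
    intro n h1 h2
    have h3 := hS' n
    rw [if_pos ⟨h1, h2⟩, hT.plat n h1 h2] at h3
    omega
  have hout : ∀ n, ¬ (p ≤ n ∧ n < t) → S' n = S n := by
    intro n h1
    have h3 := hS' n
    rw [if_neg h1] at h3
    omega
  have hle : ∀ n, S' n ≤ S n := by
    intro n
    have h3 := hS' n
    split_ifs at h3 <;> omega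
  have hmx : ∀ n, S n ≤ h := fun n => (le_abs_self _).trans (hT.max n)
  intro s a c b hs hac hcb h1 h2
  rcases hs with rfl | rfl
  · simp only [one_mul] at h1 h2 ⊢
    by_cases hc : p ≤ c ∧ c < t
    · exfalso
      have e1 := hin c hc.1 hc.2
      have e2 := hle a
      have e3 := hmx a
      rcases lt_or_ge a p with e4 | e4
      · have := hT.left a e4
        omega
      · have := hin a e4 (by omega)
        omega
    · have e1 := hout c hc
      obtain ⟨z, hz1, hz2, hz3⟩ := hT.uni 1 a c b (Or.inl rfl) hac hcb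
        (by have := hle a; linarith) (by have := hle b; linarith)
      exact ⟨z, hz1, hz2, by have := hle z; linarith⟩
  · by_cases hc : p ≤ c ∧ c < t
    · exact ⟨c, hac, hcb, by have := hin c hc.1 hc.2; linarith⟩
    · by_cases ha : p ≤ a ∧ a < t
      · exact ⟨c, hac, hcb, by have := hin a ha.1 ha.2; linarith⟩
      · by_cases hb : p ≤ b ∧ b < t
        · exact ⟨c, hac, hcb, by have := hin b hb.1 hb.2; linarith⟩
        · rw [hout c hc, hout a ha] at h1
          rw [hout c hc, hout b hb] at h2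
          obtain ⟨z, hz1, hz2, hz3⟩ := hT.uni (-1) a c b (Or.inr rfl) hac hcb h1 h2
          refine ⟨z, hz1, hz2, ?_⟩
          by_cases hz : p ≤ z ∧ z < t
          · have := hin z hz.1 hz.2
            linarith
          · rw [hout z hz]
            exact hz3

end Pool.Agent.MP658x
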