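import Pool.Agent.Lib.MP_658dbf_an_X.Bridge2

/-!
# MP_658dbf_an, project X: sums over a block pattern
-/

set_option autoImplicit false

namespace Pool.Agent.MP658x

open Finset
open Pool.Agent.MP658dbf (K En dla dl fnz)

variable {N k : ℕ} {S : ℤ → ℤ} {δ : ℤ}

/-- `blk` is a sum of indicator functions of intervals; `∑ Dl 1_{(a, b)} n g n = g (a + 1) - g b` -/
theorem blk_sum {y : ℕ → ℤ} (hy : ∀ i < k, y i + 2 ≤ y (i + 1)) (h0 : -1 ≤ y 0) (hN : y k ≤ N)
    (hS : ∀ n, S n = blk δ y k n) (g : ℤ → ℤ) :
    ∑ n ∈ Ico (0 : ℤ) ((N + 1 : ℕ) : ℤ), Dl S n * g n =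
      δ * ∑ i ∈ range k, (-1 : ℤ) ^ i * (g (y i + 1) - g (y (i + 1))) := by
  have hlow : ∀ i ≤ k, -1 ≤ y i := by
    intro i
    induction i with
    | zero => exact fun _ => h0
    | succ i ih =>
      intro hi
      have h1 := ih (by omega)
      have h2 := hy i (by omega)
      omega
  have hup : ∀ j i : ℕ, i + j = k → y i ≤ N := by
    intro j
    induction j with
    | zero =>
      intro i hi
      rw [add_zero] at hi
      rw [hi]
      exact hN
    | succ j ih =>
      intro i hi
      have h1 := ih (i + 1) (by omega)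
      have h2 := hy i (by omega)
      omega
  have hD : ∀ n, Dl S n * g n = ∑ i ∈ range k, δ * ((-1 : ℤ) ^ i *
      (((if n = y i + 1 then g n else 0)) - if n = y (i + 1) then g n else 0)) := by
    intro n
    unfold Dl
    rw [hS n, hS (n - 1)]
    unfold blk
    rw [← sum_sub_distrib, sum_mul]
    refine sum_congr rfl fun i hi => ?_
    rw [mem_range] at hi
    have h1 := hy i hi
    by_cases c1 : n = y i + 1
    · have c2 : ¬ n = y (i + 1) := by omega
      have c3 : y i < n ∧ n < y (i + 1) := by omega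
      have c4 : ¬ (y i < n - 1 ∧ n - 1 < y (i + 1)) := by omega
      rw [if_pos c1, if_neg c2, if_pos c3, if_neg c4]
      ring
    · by_cases c2 : n = y (i + 1)
      · have c3 : ¬ (y i < n ∧ n < y (i + 1)) := by omega
        have c4 : y i < n - 1 ∧ n - 1 < y (i + 1) := by omega
        rw [if_neg c1, if_pos c2, if_neg c3, if_pos c4]
        ring
      · rw [if_neg c1, if_neg c2]
        by_cases c3 : y i < n ∧ n < y (i + 1)
        · have c4 : y i < n - 1 ∧ n - 1 < y (i + 1) := by omega
          rw [if_pos c3, if_pos c4]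
          ring
        · have c4 : ¬ (y i < n - 1 ∧ n - 1 < y (i + 1)) := by omega
          rw [if_neg c3, if_neg c4]
          ring
  simp only [hD]
  rw [sum_comm, mul_sum]
  refine sum_congr rfl fun i hi => ?_
  rw [mem_range] at hi
  have h1 := hy i hi
  have m1 : y i + 1 ∈ Ico (0 : ℤ) ((N + 1 : ℕ) : ℤ) := by
    rw [mem_Ico]
    have := hlow i (by omega)
    have := hup (k - (i + 1)) (i + 1) (by omega)
    push_cast
    omega
  have m2 : y (i + 1) ∈ Ico (0 : ℤ) ((N + 1 : ℕ) : ℤ) := by
    rw [mem_Ico]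
    have := hlow i (by omega)
    have := hup (k - (i + 1)) (i + 1) (by omega)
    push_cast
    omega
  rw [← mul_sum, ← mul_sum, sum_sub_distrib, sum_ite_eq', sum_ite_eq', if_pos m1, if_pos m2]

end Pool.Agent.MP658x
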