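import Pool.Agent.Lib.MP_658dbf_an_X.MomentsA
import Pool.Agent.Lib.MP_658dbf_an_X.MomentsB

/-!
# MP_658dbf_an, project X: the moment conditions for the block pattern
-/

set_option autoImplicit false

namespace Pool.Agent.MP658x

open Finset
open Pool.Agent.MP658dbf (K En dla dl fnz)

variable {N k : ℕ} {S : ℤ → ℤ} {δ : ℤ}

/-- the block pattern of a multiple of `(1 - z)^(m+1)` satisfies the moment conditions -/
theorem mom_of_blk {m : ℕ} {p : List ℤ} {y : ℕ → ℤ} (hδ : Sn δ)
    (hy : ∀ i < m + 1, y i + 2 ≤ y (i + 1)) (h0 : -1 ≤ y 0)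
    (hN : y (m + 1) ≤ (dl^[m] p).length) (hS : ∀ n, fl (dl^[m] p) n = blk δ y (m + 1) n) :
    Mom (m + 1) y := by
  have hlen : ∀ k, (dl^[k] p).length = p.length + k := by
    intro k
    induction k with
    | zero => simp
    | succ k ih => rw [Function.iterate_succ_apply', length_dl, ih]; omega
  intro g hg
  have hg' : g.degree < ((m + 1 : ℕ) : WithBot ℕ) := hg
  have h1 := mom_iter (N := p.length) (k := m + 1) (fl p) (sup_fl p) g hg'
  have h2 := blk_sum (N := p.length + m) (k := m + 1) (δ := δ) (S := fl (dl^[m] p)) hy h0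
    (by rw [← hlen m]; exact hN) hS (fun n => g.eval n)
  have h3 : Dl (fl (dl^[m] p)) = Dl^[m + 1] (fl p) := by
    rw [fl_iter, Function.iterate_succ_apply']
  rw [h3] at h2
  have h4 : ((p.length + m + 1 : ℕ) : ℤ) = ((p.length + (m + 1) : ℕ) : ℤ) := by push_cast; ring
  rw [h4, h1] at h2
  rcases mul_eq_zero.1 h2.symm with h5 | h5
  · rcases hδ with h | h <;> omega
  · exact h5

end Pool.Agent.MP658x
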