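import Pool.Agent.Lib.MP_658dbf_an_X.Dicho
import Pool.Agent.Lib.MP_658dbf_an_X.Blocks
import Pool.Agent.Lib.MP_658dbf_an_X.Moments
import Pool.Agent.Lib.MP_658dbf_an_X.LayerInd

/-!
# MP_658dbf_an, project X: the lower bounds
-/

set_option autoImplicit false

namespace Pool.Agent.MP658x

open Finset
open Pool.Agent.MP658dbf (kap tl wh wInt wInf En dl fnz cl)

variable {κ T : ℕ → ℝ}

/-- a nonzero value of a block pattern lies strictly between the end points -/
private theorem blk_range {δ : ℤ} {y : ℕ → ℤ} {k : ℕ} (hy : ∀ i < k, y i + 2 ≤ y (i + 1)) {n : ℤ}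
    (hn : blk δ y k n ≠ 0) : y 0 < n ∧ n < y k := by
  have hmono : ∀ i j, i ≤ j → j ≤ k → y i ≤ y j := by
    intro i j hij
    induction j, hij using Nat.le_induction with
    | base => intro _; exact le_rfl
    | succ j hj ih =>
      intro hjk
      have := ih (by omega)
      have := hy j (by omega)
      omega
  unfold blk at hn
  obtain ⟨i, hi, hne⟩ := exists_ne_zero_of_sum_ne_zero hn
  rw [mem_range] at hi
  split_ifs at hne with hc
  · have h1 := hmono 0 i (by omega) (by omega)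
    have h2 := hmono (i + 1) k (by omega) le_rfl
    omega
  · exact absurd rfl hne

/-- Assembly. `dichotomy`: first case `caseA`. Second case: `S = fl (dl^[m] p)`, `Q = Dl S = fl
(dl^[m+1] p)`, `En = E` by `En_fl`; the chain of `S` by `chain_iter`; `B_lip`, `B_uni`, `B_uniQ`. If some
`|S n| ≥ 2`: `layer_ind`. Otherwise `blocks` and `mom_of_blk`; energy by `base_k` with any `d ≥ y k - y 0`
(if `S a, S b ≠ 0` then `y 0 < a, b < y k`). -/
theorem lower_cases (hK : Ker κ T) (m : ℕ) {p : List ℤ} (hp : fnz p ≠ 0) :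
    Bd κ T (m + 1) + 2 * (κ 1 - κ 2) ≤ En κ (2 * T 1) (dl^[m + 1] p) ∨
    Bd κ T (m + 1) + 4 * T 3 ≤ En κ (2 * T 1) (dl^[m + 1] p) ∨
    ∃ y : ℕ → ℤ, (∀ i < m + 1, y i + 2 ≤ y (i + 1)) ∧ Mom (m + 1) y ∧
      ∀ d : ℕ, 1 ≤ d → y (m + 1) - y 0 ≤ d →
        Bd κ T (m + 1) + 2 * κ d ≤ En κ (2 * T 1) (dl^[m + 1] p) := by
  rcases dichotomy m p with hA | hTV
  · left
    exact caseA hK (by omega) hp hA
  right
  set N := (dl^[m] p).length with hN
  set S := fl (dl^[m] p) with hSdef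
  have hS : Sup N S := sup_fl _
  have hlen : (dl^[m + 1] p).length ≤ N + 1 := by
    rw [Function.iterate_succ_apply', length_dl]
  have hQ : fl (dl^[m + 1] p) = Dl S := by
    rw [Function.iterate_succ_apply', fl_dl]
  have hE : En κ (2 * T 1) (dl^[m + 1] p) = E κ (2 * T 1) (N + 1) (Dl S) := by
    rw [En_fl κ (2 * T 1) _ hlen, hQ]
  obtain ⟨σ, x, hσ, hc⟩ := chain_iter hp m
  have hk : 1 ≤ m + 1 := by omega
  have hl := B_lip hS hk hσ hc hTV
  have hU := B_uni hS hk hσ hc hTV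
  rw [hE]
  by_cases h2 : ∃ n, 2 ≤ |S n|
  · left
    exact layer_ind hK hS hl hU hk hσ hc h2
  · right
    push Not at h2
    have h1 : ∀ n, |S n| ≤ 1 := fun n => by
      have := h2 n
      omega
    obtain ⟨δ, y, hδ, hy, hy0, hyN, hblk⟩ := blocks hS h1 hk hσ hc hTV
    refine ⟨y, hy, mom_of_blk hδ hy hy0 hyN hblk, fun d hd hdd => ?_⟩
    refine base_k hK hS h1 hl hk hσ hc hd ?_
    intro a b ha hb
    rw [hblk] at ha hb
    have h3 := blk_range hy ha
    have h4 := blk_range hy hb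
    omega

end Pool.Agent.MP658x
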