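import Pool.Agent.Lib.MP_658dbf_an_X.Bridge2

/-!
# MP_658dbf_an, project X: moments of iterated differences
-/

set_option autoImplicit false

namespace Pool.Agent.MP658x

open Finset
open Pool.Agent.MP658dbf (K En dla dl fnz)

variable {N k : ℕ} {S : ℤ → ℤ} {δ : ℤ}

private theorem momA_sup {M : ℕ} {f : ℤ → ℤ} (hf : Sup M f) : Sup (M + 1) (Dl f) := by
  intro n hn
  unfold Dl
  rw [hf n (by push_cast at hn; omega), hf (n - 1) (by push_cast at hn; omega)]
  rfl

private theorem momA_supk (f : ℤ → ℤ) (hf : Sup N f) (k : ℕ) : Sup (N + k) (Dl^[k] f) := by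
  induction k with
  | zero => exact hf
  | succ k ih =>
    rw [Function.iterate_succ_apply']
    exact momA_sup ih

private theorem momA_deg (g : Polynomial ℤ) {k : ℕ} (hg : g.degree < ((k + 1 : ℕ) : WithBot ℕ)) :
    (g - g.comp (Polynomial.X + Polynomial.C 1)).degree < (k : WithBot ℕ) := by
  by_cases h0 : g = 0
  · rw [h0]
    simp
  · have h1 : (Polynomial.X + Polynomial.C (1 : ℤ)).natDegree = 1 := Polynomial.natDegree_X_add_C 1
    have h2 : (g.comp (Polynomial.X + Polynomial.C 1)).leadingCoeff = g.leadingCoeff := by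
      rw [Polynomial.leadingCoeff_comp (by rw [h1]; norm_num), Polynomial.leadingCoeff_X_add_C,
        one_pow, mul_one]
    have h3 : g.comp (Polynomial.X + Polynomial.C 1) ≠ 0 := by
      rw [← Polynomial.leadingCoeff_ne_zero, h2, Polynomial.leadingCoeff_ne_zero]
      exact h0
    have h4 : g.degree = (g.comp (Polynomial.X + Polynomial.C 1)).degree := by
      rw [Polynomial.degree_eq_natDegree h0, Polynomial.degree_eq_natDegree h3,
        Polynomial.natDegree_comp, h1, mul_one]
    have h5 := Polynomial.degree_sub_lt_left h4 h0 h2.symm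
    have h6 : g.degree ≤ (k : WithBot ℕ) := by
      rw [Polynomial.degree_eq_natDegree h0] at hg ⊢
      exact_mod_cast Nat.lt_succ_iff.mp (by exact_mod_cast hg)
    exact lt_of_lt_of_le h5 h6

/-- Summation by parts. -/
private theorem momA_parts {M : ℕ} {f : ℤ → ℤ} (hf : Sup M f) (g : ℤ → ℤ) :
    ∑ n ∈ Ico (0 : ℤ) ((M + 1 : ℕ) : ℤ), Dl f n * g n =
      ∑ n ∈ Ico (0 : ℤ) (M : ℤ), f n * (g n - g (n + 1)) := by
  have e1 : ∑ n ∈ Ico (0 : ℤ) ((M + 1 : ℕ) : ℤ), f n * g n =
      ∑ n ∈ Ico (0 : ℤ) (M : ℤ), f n * g n := by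
    symm
    refine sum_subset (fun n hn => ?_) (fun n hn hn' => ?_)
    · rw [mem_Ico] at hn ⊢
      push_cast
      omega
    · rw [mem_Ico] at hn hn'
      rw [hf n (by push_cast at hn; omega), zero_mul]
  have e2 : ∑ n ∈ Ico (0 : ℤ) ((M + 1 : ℕ) : ℤ), f (n - 1) * g n =
      ∑ n ∈ Ico (0 : ℤ) (M : ℤ), f n * g (n + 1) := by
    symm
    have e3 : ∑ n ∈ Ico (0 : ℤ) (M : ℤ), f n * g (n + 1) =
        ∑ n ∈ Ico (1 : ℤ) ((M + 1 : ℕ) : ℤ), f (n - 1) * g n := by
      refine sum_bij (fun n _ => n + 1) (fun n hn => ?_) (fun a _ b _ h => by omega)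
        (fun n hn => ⟨n - 1, ?_, by omega⟩) (fun n hn => by rw [add_sub_cancel_right])
      · rw [mem_Ico] at hn ⊢
        push_cast
        omega
      · rw [mem_Ico] at hn ⊢
        push_cast at hn
        omega
    rw [e3]
    refine sum_subset (fun n hn => ?_) (fun n hn hn' => ?_)
    · rw [mem_Ico] at hn ⊢
      omega
    · rw [mem_Ico] at hn hn'
      rw [hf (n - 1) (by omega), zero_mul]
  unfold Dl
  simp only [sub_mul, mul_sub, sum_sub_distrib]
  rw [e1, e2]

/-- Induction on `k` generalizing `g`: summation by parts `∑ Dl f n g n = ∑ f n (g n - g (n + 1))` and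
`degree (g - g.comp (X + 1)) < k` if `degree g < k + 1`. -/
theorem mom_iter (f : ℤ → ℤ) (hf : Sup N f) (g : Polynomial ℤ) (hg : g.degree < k) :
    ∑ n ∈ Ico (0 : ℤ) ((N + k : ℕ) : ℤ), (Dl^[k] f) n * g.eval n = 0 := by
  induction k generalizing g with
  | zero =>
    have h0 : g = 0 := by
      by_contra hne
      rw [Polynomial.degree_eq_natDegree hne, Nat.cast_lt] at hg
      omega
    simp [h0]
  | succ k ih =>
    rw [Function.iterate_succ_apply', show N + (k + 1) = N + k + 1 from rfl,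
      momA_parts (momA_supk f hf k) (fun n => g.eval n)]
    refine Eq.trans (sum_congr rfl fun n _ => ?_) (ih _ (momA_deg g hg))
    simp [Polynomial.eval_comp]

end Pool.Agent.MP658x
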