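import Pool.Agent.Lib.MP_658dbf_an_X.PatDefs

/-!
# MP_658dbf_an, project X: equal power sums and products
-/

set_option autoImplicit false

namespace Pool.Agent.MP658x

open Finset Polynomial

private theorem NewtonA_esymm {k : ℕ} (u v : Fin k → ℝ)
    (h : ∀ j < k, ∑ i, u i ^ j = ∑ i, v i ^ j) (m : ℕ) (hm : m < k) :
    MvPolynomial.aeval u (MvPolynomial.esymm (Fin k) ℝ m) =
      MvPolynomial.aeval v (MvPolynomial.esymm (Fin k) ℝ m) := by
  induction m using Nat.strong_induction_on with
  | _ m ih =>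
    rcases Nat.eq_zero_or_pos m with rfl | hpos
    · simp
    · have key : ∀ w : Fin k → ℝ, (m : ℝ) * MvPolynomial.aeval w
          (MvPolynomial.esymm (Fin k) ℝ m) =
          (-1) ^ (m + 1) * ∑ a ∈ antidiagonal m with a.1 < m, (-1) ^ a.1 *
            MvPolynomial.aeval w (MvPolynomial.esymm (Fin k) ℝ a.1) * ∑ i, w i ^ a.2 := by
        intro w
        have h1 := congrArg (MvPolynomial.aeval w) (MvPolynomial.mul_esymm_eq_sum (Fin k) ℝ m)
        simp only [map_mul, map_natCast, map_pow, map_neg, map_one, map_sum,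
          MvPolynomial.psum, MvPolynomial.aeval_X] at h1
        exact h1
      have h2 : (m : ℝ) * MvPolynomial.aeval u (MvPolynomial.esymm (Fin k) ℝ m) =
          (m : ℝ) * MvPolynomial.aeval v (MvPolynomial.esymm (Fin k) ℝ m) := by
        rw [key u, key v]
        congr 1
        refine sum_congr rfl fun a ha => ?_
        rw [mem_filter, HasAntidiagonal.mem_antidiagonal] at ha
        rw [ih a.1 ha.2 (by omega), h a.2 (by omega)]
      have hm0 : (m : ℝ) ≠ 0 := by
        have : m ≠ 0 := by omega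
        exact_mod_cast this
      exact mul_left_cancel₀ hm0 h2

/-- Newton identities (`MvPolynomial.mul_esymm_eq_sum` or `psum_eq_mul_esymm_sub_sum`, evaluated at `u`
and `v`): the elementary symmetric functions of order `< k` agree, hence the monic polynomials
`∏ (X - u i)` and `∏ (X - v i)` differ by a constant. -/
theorem prod_sub_const {k : ℕ} (u v : Fin k → ℝ)
    (h : ∀ j < k, ∑ i, u i ^ j = ∑ i, v i ^ j) :
    ∃ c : ℝ, ∏ i, (X - C (u i)) = ∏ i, (X - C (v i)) + C c := by
  have key : ∀ w : Fin k → ℝ, ∏ i, (X - C (w i)) =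
      (∑ j ∈ range k, (-1 : ℝ[X]) ^ j *
        (C (MvPolynomial.aeval w (MvPolynomial.esymm (Fin k) ℝ j)) * X ^ (k - j))) +
      C ((-1) ^ k * MvPolynomial.aeval w (MvPolynomial.esymm (Fin k) ℝ k)) := by
    intro w
    have h1 := Multiset.prod_X_sub_X_eq_sum_esymm (Finset.univ.val.map w)
    rw [Multiset.map_map] at h1
    have hcard : Multiset.card ((Finset.univ : Finset (Fin k)).val.map w) = k := by simp
    rw [hcard] at h1
    have h2 : ∏ i, (X - C (w i)) =
        (Multiset.map ((fun t => X - C t) ∘ w) (Finset.univ : Finset (Fin k)).val).prod := rfl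
    rw [h2, h1, sum_range_succ]
    simp only [MvPolynomial.aeval_esymm_eq_multiset_esymm]
    congr 1
    simp
  refine ⟨(-1) ^ k * MvPolynomial.aeval u (MvPolynomial.esymm (Fin k) ℝ k) -
    (-1) ^ k * MvPolynomial.aeval v (MvPolynomial.esymm (Fin k) ℝ k), ?_⟩
  rw [key u, key v, C_sub]
  have h3 : ∀ j ∈ range k, (-1 : ℝ[X]) ^ j *
        (C (MvPolynomial.aeval u (MvPolynomial.esymm (Fin k) ℝ j)) * X ^ (k - j)) =
      (-1 : ℝ[X]) ^ j *
        (C (MvPolynomial.aeval v (MvPolynomial.esymm (Fin k) ℝ j)) * X ^ (k - j)) := by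
    intro j hj
    rw [NewtonA_esymm u v h j (mem_range.1 hj)]
  rw [sum_congr rfl h3]
  ring

end Pool.Agent.MP658x
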