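import Pool.Agent.Lib.MP_658dbf_an_X.NewtonA

/-!
# MP_658dbf_an, project X: the polynomial `F` of a pattern
-/

set_option autoImplicit false

namespace Pool.Agent.MP658x

open Finset Polynomial

/-- Apply `prod_sub_const` to `u i = if i even then Lp i else Rp i`, `v i = if i even then Rp i else
Lp i`; `F = (∏ (X - u i) + ∏ (X - v i)) / 2`, so that `F + c = ∏ (X - u i)`, `F - c = ∏ (X - v i)`. -/
theorem pat_F {k : ℕ} {ε : ℝ} {β : ℕ → ℝ} (hk : 1 ≤ k) (hP : Pat k ε β) :
    ∃ (F : ℝ[X]) (c : ℝ), F.Monic ∧ F.natDegree = k ∧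
      (∀ i < k, F.eval (Lp ε β i) = -((-1) ^ i * c) ∧ F.eval (Rp k ε β i) = (-1) ^ i * c) ∧
      ∀ x : ℝ, F.eval x ^ 2 - c ^ 2 =
        ∏ i ∈ range k, ((x - Lp ε β i) * (x - Rp k ε β i)) := by
  obtain ⟨u, hu⟩ : ∃ u : ℕ → ℝ, u = fun i => if Even i then Lp ε β i else Rp k ε β i := ⟨_, rfl⟩
  obtain ⟨v, hv⟩ : ∃ v : ℕ → ℝ, v = fun i => if Even i then Rp k ε β i else Lp ε β i := ⟨_, rfl⟩
  have hpow : ∀ j < k, ∑ i : Fin k, u i ^ j = ∑ i : Fin k, v i ^ j := by
    intro j hj
    have h1 := hP.mom (X ^ j) (by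
      rw [degree_X_pow]
      exact_mod_cast hj)
    rw [← Finset.sum_range (fun i => u i ^ j), ← Finset.sum_range (fun i => v i ^ j), ← sub_eq_zero,
      ← sum_sub_distrib]
    rw [← h1]
    refine sum_congr rfl fun i _ => ?_
    rw [hu, hv]
    simp only [eval_pow, eval_X]
    rcases Nat.even_or_odd i with he | ho
    · rw [if_pos he, if_pos he, he.neg_one_pow, one_mul]
    · have hne : ¬ Even i := Nat.not_even_iff_odd.2 ho
      rw [if_neg hne, if_neg hne, ho.neg_one_pow]
      ring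
  obtain ⟨c₀, hc⟩ := prod_sub_const (fun i : Fin k => u i) (fun i : Fin k => v i) hpow
  obtain ⟨U, hU⟩ : ∃ U : ℝ[X], U = ∏ i : Fin k, (X - C (u i)) := ⟨_, rfl⟩
  obtain ⟨V, hV⟩ : ∃ V : ℝ[X], V = ∏ i : Fin k, (X - C (v i)) := ⟨_, rfl⟩
  rw [← hU, ← hV] at hc
  have hVm : V.Monic := by
    rw [hV]
    exact monic_prod_of_monic _ _ fun i _ => monic_X_sub_C _
  have hVd : V.natDegree = k := by
    rw [hV, natDegree_prod_of_monic _ _ fun i _ => monic_X_sub_C _]
    simp
  have hVdeg : V.degree = k := by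
    rw [degree_eq_natDegree hVm.ne_zero, hVd]
  have hlt : (C (c₀ / 2)).degree < V.degree := by
    rw [hVdeg]
    refine lt_of_le_of_lt degree_C_le ?_
    exact_mod_cast hk
  have hUev : ∀ x : ℝ, U.eval x = ∏ i ∈ range k, (x - u i) := by
    intro x
    rw [hU, eval_prod, Finset.prod_range (fun i => x - u i)]
    simp
  have hVev : ∀ x : ℝ, V.eval x = ∏ i ∈ range k, (x - v i) := by
    intro x
    rw [hV, eval_prod, Finset.prod_range (fun i => x - v i)]
    simp
  have hUu : ∀ i < k, U.eval (u i) = 0 := fun i hi => by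
    rw [hUev]
    exact prod_eq_zero (mem_range.2 hi) (sub_self _)
  have hVv : ∀ i < k, V.eval (v i) = 0 := fun i hi => by
    rw [hVev]
    exact prod_eq_zero (mem_range.2 hi) (sub_self _)
  have hUV : ∀ x : ℝ, U.eval x = V.eval x + c₀ := fun x => by
    rw [hc, eval_add, eval_C]
  have hF : ∀ x : ℝ, (V + C (c₀ / 2)).eval x = V.eval x + c₀ / 2 := fun x => by
    rw [eval_add, eval_C]
  refine ⟨V + C (c₀ / 2), c₀ / 2, hVm.add_of_left hlt, ?_, ?_, ?_⟩
  · rw [natDegree_add_eq_left_of_degree_lt hlt, hVd]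
  · intro i hi
    have h1 := hUu i hi
    have h2 := hVv i hi
    rw [hUV] at h1
    rw [hu] at h1
    rw [hv] at h2
    simp only at h1 h2
    rw [hF, hF]
    rcases Nat.even_or_odd i with he | ho
    · rw [if_pos he] at h1 h2
      rw [he.neg_one_pow]
      constructor <;> linarith
    · have hne : ¬ Even i := Nat.not_even_iff_odd.2 ho
      rw [if_neg hne] at h1 h2
      rw [ho.neg_one_pow]
      constructor <;> linarith
  · intro x
    have h1 : (V + C (c₀ / 2)).eval x ^ 2 - (c₀ / 2) ^ 2 = U.eval x * V.eval x := by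
      rw [hF, hUV]
      ring
    rw [h1, hUev, hVev, ← prod_mul_distrib]
    refine prod_congr rfl fun i _ => ?_
    rw [hu, hv]
    rcases Nat.even_or_odd i with he | ho
    · simp only [if_pos he]
    · have hne : ¬ Even i := Nat.not_even_iff_odd.2 ho
      simp only [if_neg hne]
      ring

end Pool.Agent.MP658x
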