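import Pool.Agent.Lib.MP_658dbf_an_X.NewtonC

/-!
# MP_658dbf_an, project X: `F` is almost bounded by `c`
-/

set_option autoImplicit false

namespace Pool.Agent.MP658x

open Finset Polynomial

private theorem beta_gap {k : ℕ} {ε : ℝ} {β : ℕ → ℝ} (hP : Pat k ε β) {i : ℕ} :
    ∀ n : ℕ, i + n + 1 ≤ k → β i + 3 * ε ≤ β (i + n + 1) := by
  intro n
  induction n with
  | zero => intro h; exact hP.gap i (by omega)
  | succ n ih =>
    intro h
    have h1 := ih (by omega)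
    have h2 := hP.gap (i + n + 1) (by omega)
    have h3 := hP.pos
    have e : i + (n + 1) + 1 = i + n + 1 + 1 := by omega
    rw [e]
    linarith

private theorem beta_lt {k : ℕ} {ε : ℝ} {β : ℕ → ℝ} (hP : Pat k ε β) {i j : ℕ} (hij : i < j)
    (hj : j ≤ k) : β i + 3 * ε ≤ β j := by
  obtain ⟨n, rfl⟩ := Nat.exists_eq_add_of_lt hij
  exact beta_gap hP n hj

private theorem beta_mem {k : ℕ} {ε : ℝ} {β : ℕ → ℝ} (hP : Pat k ε β) {i : ℕ} (hi : i ≤ k) :
    -1 ≤ β i ∧ β i ≤ 1 := by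
  have h0 := hP.pos
  constructor
  · rcases Nat.eq_zero_or_pos i with rfl | h
    · rw [hP.zero]
    · have := beta_lt hP h hi
      rw [hP.zero] at this
      linarith
  · rcases Nat.lt_or_ge i k with h | h
    · have := beta_lt hP h le_rfl
      rw [hP.top] at this
      linarith
    · have : i = k := by omega
      rw [this, hP.top]

/-- The product is `(x² - 1) ∏_{0<i<k} ((x - β i)² - ε²)`. At most one of the factors with `0 < i < k` is
negative (the intervals `[β i - ε, β i + ε]` are disjoint: `gap`). If none is, the product is `≤ 0`. If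
`|x - β i| < ε`: the product is `(1 - x²) (ε² - (x - β i)²) ∏ (others ≥ 0, ≤ 4) ≤ 4 ^ k ε²`. -/
theorem prod_le {k : ℕ} {ε : ℝ} {β : ℕ → ℝ} (hk : 1 ≤ k) (hP : Pat k ε β) {x : ℝ}
    (hx : x ∈ Set.Icc (-1 : ℝ) 1) :
    ∏ i ∈ range k, ((x - Lp ε β i) * (x - Rp k ε β i)) ≤ 4 ^ k * ε ^ 2 := by
  obtain ⟨m, rfl⟩ : ∃ m, k = m + 1 := ⟨k - 1, by omega⟩
  have hε := hP.pos
  obtain ⟨hx1, hx2⟩ := hx
  have e1 : ∏ i ∈ range (m + 1), ((x - Lp ε β i) * (x - Rp (m + 1) ε β i)) =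
      (x ^ 2 - 1) * ∏ i ∈ range m, ((x - β (i + 1)) ^ 2 - ε ^ 2) := by
    rw [prod_mul_distrib, prod_range_succ', prod_range_succ (fun i => x - Rp (m + 1) ε β i)]
    have h1 : x - Lp ε β 0 = x + 1 := by simp [Lp]
    have h2 : x - Rp (m + 1) ε β m = x - 1 := by simp [Rp]
    rw [h1, h2]
    have h3 : (∏ i ∈ range m, ((x - β (i + 1)) ^ 2 - ε ^ 2)) =
        (∏ i ∈ range m, (x - Lp ε β (i + 1))) * ∏ i ∈ range m, (x - Rp (m + 1) ε β i) := by
      rw [← prod_mul_distrib]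
      refine prod_congr rfl fun i hi => ?_
      have hi' := mem_range.mp hi
      have h4 : Lp ε β (i + 1) = β (i + 1) + ε := by simp [Lp]
      have h5 : Rp (m + 1) ε β i = β (i + 1) - ε := by
        unfold Rp
        rw [if_neg (by omega)]
      rw [h4, h5]
      ring
    rw [h3]
    ring
  rw [e1]
  have hR : 0 ≤ 4 ^ (m + 1) * ε ^ 2 := by positivity
  have hx3 : x ^ 2 - 1 ≤ 0 := by nlinarith
  by_cases hall : ∀ i ∈ range m, 0 ≤ (x - β (i + 1)) ^ 2 - ε ^ 2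
  · refine le_trans ?_ hR
    exact mul_nonpos_of_nonpos_of_nonneg hx3 (prod_nonneg hall)
  · push Not at hall
    obtain ⟨j, hj, hjn⟩ := hall
    have hjm := mem_range.mp hj
    have hab : |x - β (j + 1)| < ε := by
      refine lt_of_pow_lt_pow_left₀ 2 hε.le ?_
      rw [sq_abs]
      linarith
    rw [abs_lt] at hab
    have hoth : ∀ i ∈ (range m).erase j, 0 ≤ (x - β (i + 1)) ^ 2 - ε ^ 2 ∧
        (x - β (i + 1)) ^ 2 - ε ^ 2 ≤ 4 := by
      intro i hi
      rw [mem_erase, mem_range] at hi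
      have hb := beta_mem hP (i := i + 1) (by omega)
      constructor
      · rcases Nat.lt_or_gt_of_ne hi.1 with h | h
        · have h1 := beta_lt hP (i := i + 1) (j := j + 1) (by omega) (by omega)
          nlinarith
        · have h1 := beta_lt hP (i := j + 1) (j := i + 1) (by omega) (by omega)
          nlinarith
      · nlinarith [sq_nonneg ε]
    have hprod : ∏ i ∈ (range m).erase j, ((x - β (i + 1)) ^ 2 - ε ^ 2) ≤ 4 ^ (m + 1) := by
      calc ∏ i ∈ (range m).erase j, ((x - β (i + 1)) ^ 2 - ε ^ 2)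
          ≤ ∏ _i ∈ (range m).erase j, (4 : ℝ) :=
            prod_le_prod (fun i hi => (hoth i hi).1) fun i hi => (hoth i hi).2
        _ = 4 ^ ((range m).erase j).card := by rw [prod_const]
        _ ≤ 4 ^ (m + 1) := by
            refine pow_le_pow_right₀ (by norm_num) ?_
            have := card_le_card (erase_subset j (range m))
            rw [card_range] at this
            omega
    have hprod0 : 0 ≤ ∏ i ∈ (range m).erase j, ((x - β (i + 1)) ^ 2 - ε ^ 2) :=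
      prod_nonneg fun i hi => (hoth i hi).1
    rw [← mul_prod_erase (range m) _ hj]
    have h1 : (x ^ 2 - 1) * (((x - β (j + 1)) ^ 2 - ε ^ 2) *
        ∏ i ∈ (range m).erase j, ((x - β (i + 1)) ^ 2 - ε ^ 2)) =
        ((1 - x ^ 2) * (ε ^ 2 - (x - β (j + 1)) ^ 2)) *
        ∏ i ∈ (range m).erase j, ((x - β (i + 1)) ^ 2 - ε ^ 2) := by ring
    rw [h1, mul_comm (4 ^ (m + 1))]
    have h2 : (1 - x ^ 2) * (ε ^ 2 - (x - β (j + 1)) ^ 2) ≤ ε ^ 2 := by
      have h3 : 1 - x ^ 2 ≤ 1 := by nlinarith [sq_nonneg x]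
      have h4 : 0 ≤ 1 - x ^ 2 := by linarith
      have h5 : 0 ≤ ε ^ 2 - (x - β (j + 1)) ^ 2 := by linarith
      have h6 : ε ^ 2 - (x - β (j + 1)) ^ 2 ≤ ε ^ 2 := by nlinarith [sq_nonneg (x - β (j + 1))]
      calc (1 - x ^ 2) * (ε ^ 2 - (x - β (j + 1)) ^ 2)
          ≤ 1 * (ε ^ 2 - (x - β (j + 1)) ^ 2) := mul_le_mul_of_nonneg_right h3 h5
        _ ≤ ε ^ 2 := by rw [one_mul]; exact h6
    exact mul_le_mul h2 hprod hprod0 (by positivity)

/-- `F² ≤ c² + 4^k ε²` on `[-1, 1]` and the extremal property of the Chebyshev polynomials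
(`Polynomial.Chebyshev.leadingCoeff_le_of_forall_abs_le_one` for `F / M`, `M² = c² + 4^k ε²`): `M ≥
2^(1-k)`. -/
theorem c_lower {k : ℕ} {ε : ℝ} {β : ℕ → ℝ} (hk : 1 ≤ k) (hP : Pat k ε β) {F : ℝ[X]} {c : ℝ}
    (hF : F.Monic) (hd : F.natDegree = k)
    (hp : ∀ x : ℝ, F.eval x ^ 2 - c ^ 2 =
      ∏ i ∈ range k, ((x - Lp ε β i) * (x - Rp k ε β i))) :
    4 - 16 ^ k * ε ^ 2 * 4 ≤ (2 ^ k * c) ^ 2 := by
  have hε := hP.pos
  have hM0 : 0 < c ^ 2 + 4 ^ k * ε ^ 2 := by positivity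
  set M : ℝ := Real.sqrt (c ^ 2 + 4 ^ k * ε ^ 2) with hM
  have hMpos : 0 < M := Real.sqrt_pos.mpr hM0
  have hMsq : M ^ 2 = c ^ 2 + 4 ^ k * ε ^ 2 := Real.sq_sqrt hM0.le
  have hb : ∀ x ∈ Set.Icc (-1 : ℝ) 1, |(C (1 / M) * F).eval x| ≤ 1 := by
    intro x hx
    rw [eval_mul, eval_C, abs_mul, abs_of_pos (by positivity : 0 < 1 / M), one_div,
      inv_mul_le_iff₀ hMpos, mul_one]
    refine abs_le_of_sq_le_sq ?_ hMpos.le
    rw [hMsq]
    have h1 := hp x
    have h2 := prod_le hk hP hx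
    linarith
  have hdeg : (C (1 / M) * F).degree ≤ (k : ℕ) := by
    rw [degree_C_mul (by positivity : (1 / M) ≠ 0), ← hd]
    exact degree_le_natDegree
  have h1 := Chebyshev.leadingCoeff_le_of_forall_abs_le_one hdeg hb
  rw [leadingCoeff_mul, leadingCoeff_C, hF.leadingCoeff, mul_one, one_div] at h1
  obtain ⟨m, rfl⟩ : ∃ m, k = m + 1 := ⟨k - 1, by omega⟩
  rw [Nat.add_sub_cancel] at h1
  have h2 : 1 ≤ 2 ^ m * M := by
    rw [inv_le_iff_one_le_mul₀ hMpos] at h1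
    exact h1
  have h3 : (1 : ℝ) ≤ (2 ^ m * M) ^ 2 := by nlinarith
  have h4 : (2 ^ m * M) ^ 2 = 4 ^ m * (c ^ 2 + 4 ^ (m + 1) * ε ^ 2) := by
    rw [mul_pow, hMsq, ← pow_mul, mul_comm m 2, pow_mul]
    norm_num
  have h5 : ((2 : ℝ) ^ (m + 1) * c) ^ 2 = 4 * (4 ^ m * c ^ 2) := by
    rw [mul_pow, ← pow_mul, mul_comm (m + 1) 2, pow_mul, pow_succ]
    norm_num
    ring
  have h6 : (16 : ℝ) ^ (m + 1) = 4 * (4 ^ m * 4 ^ (m + 1)) := by
    have : (16 : ℝ) = 4 * 4 := by norm_num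
    rw [this, mul_pow, pow_succ 4 m]
    ring
  rw [h5, h6]
  rw [h4] at h3
  have h7 : 0 ≤ 4 ^ m * 4 ^ (m + 1) * ε ^ 2 := by positivity
  nlinarith

end Pool.Agent.MP658x
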