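import Pool.Agent.Lib.MP_658dbf_an_X.PatDefs

/-!
# MP_658dbf_an, project X: points where the Chebyshev polynomial is almost extremal
-/

set_option autoImplicit false

namespace Pool.Agent.MP658x

open Finset Polynomial Polynomial.Chebyshev

private theorem PatChebB_near {C ε u : ℝ} (hC : 0 ≤ C) (hε : 0 < ε)
    (hu : 1 - C * ε ^ 2 ≤ Real.cos u) :
    ∃ m : ℤ, |u - 2 * Real.pi * m| ≤ Real.pi * Real.sqrt C * ε := by
  have hpi := Real.pi_pos
  refine ⟨round (u / (2 * Real.pi)), ?_⟩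
  set m := round (u / (2 * Real.pi)) with hm
  have h1 : |u / (2 * Real.pi) - m| ≤ 1 / 2 := abs_sub_round _
  have h2 : |u - 2 * Real.pi * m| ≤ Real.pi := by
    have h3 : u - 2 * Real.pi * m = (2 * Real.pi) * (u / (2 * Real.pi) - m) := by
      field_simp
    rw [h3, abs_mul, abs_of_pos (by positivity : (0 : ℝ) < 2 * Real.pi)]
    nlinarith
  have h4 := Real.cos_le_one_sub_mul_cos_sq h2
  have h5 : Real.cos (u - 2 * Real.pi * m) = Real.cos u := by
    have := Real.cos_sub_int_mul_two_pi u m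
    rw [← this]
    congr 1
    ring
  rw [h5] at h4
  have h6 : 2 / Real.pi ^ 2 * (u - 2 * Real.pi * m) ^ 2 ≤ C * ε ^ 2 := by linarith
  have h7 : (u - 2 * Real.pi * m) ^ 2 ≤ (Real.pi * Real.sqrt C * ε) ^ 2 := by
    have h8 : (Real.pi * Real.sqrt C * ε) ^ 2 = Real.pi ^ 2 * (C * ε ^ 2) := by
      rw [mul_pow, mul_pow, Real.sq_sqrt hC]
      ring
    rw [h8]
    have h9 : (u - 2 * Real.pi * m) ^ 2 =
        Real.pi ^ 2 / 2 * (2 / Real.pi ^ 2 * (u - 2 * Real.pi * m) ^ 2) := by
      field_simp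
    rw [h9]
    have h10 : 0 ≤ C * ε ^ 2 := by positivity
    calc Real.pi ^ 2 / 2 * (2 / Real.pi ^ 2 * (u - 2 * Real.pi * m) ^ 2)
        ≤ Real.pi ^ 2 / 2 * (C * ε ^ 2) := by gcongr
      _ ≤ Real.pi ^ 2 * (C * ε ^ 2) := by
        have : 0 ≤ Real.pi ^ 2 * (C * ε ^ 2) := by positivity
        linarith
  exact abs_le_of_sq_le_sq h7 (by positivity)

private theorem PatChebB_cos (k i : ℕ) (φ : ℝ) :
    (-1) ^ (k + i) * (T ℝ k).eval (-Real.cos φ) = Real.cos (k * φ - i * Real.pi) := by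
  have h1 : -Real.cos φ = Real.cos (Real.pi - φ) := by rw [Real.cos_pi_sub]
  rw [h1]
  have h2 : (T ℝ (k : ℤ)).eval (Real.cos (Real.pi - φ)) =
      Real.cos (((k : ℤ) : ℝ) * (Real.pi - φ)) := by
    rw [T_real_cos]
  rw [h2]
  push_cast
  have h3 : (k : ℝ) * (Real.pi - φ) = (k : ℝ) * Real.pi - k * φ := by ring
  rw [h3, Real.cos_nat_mul_pi_sub, Real.cos_sub_nat_mul_pi, pow_add]
  rw [show (-1 : ℝ) ^ k * (-1) ^ i * ((-1) ^ k * Real.cos (k * φ)) =
    ((-1) ^ k * (-1) ^ k) * ((-1) ^ i * Real.cos (k * φ)) by ring]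
  rw [← pow_add, ← two_mul, pow_mul]
  norm_num

private theorem PatChebB_lip (a b : ℝ) : |Real.cos a - Real.cos b| ≤ |a - b| := by
  have h := Real.lipschitzWith_cos.dist_le_mul a b
  simpa [Real.dist_eq] using h

/-- Points `-1 = x 0 < x 1 < … < x k = 1` with `(-1)^(k+i) T k (x i) ≥ 1 - C ε²` are `O(ε)`-close to the
nodes. `x i = -cos φ i`, `φ i = arccos (-x i)` increasing, `(-1)^(k+i) T k (x i) = cos (k φ i - π i)`
(`T_real_cos`); `1 - cos u ≥ 2 u²/π²` for `|u| ≤ π`: there is an integer `ν i ≡ i` (mod 2) with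
`|k φ i - π ν i| ≤ C₁ ε < π / 4`. `φ` is increasing and the parities differ, so `ν (i+1) ≥ ν i + 1`; `ν 0 =
0`, `ν k = k`, so `ν i = i`; `cos` is 1-Lipschitz. -/
theorem locate (k : ℕ) (hk : 1 ≤ k) (C : ℝ) (hC : 0 ≤ C) : ∃ C' ε₀ : ℝ, 0 ≤ C' ∧ 0 < ε₀ ∧
    ∀ ε : ℝ, 0 < ε → ε ≤ ε₀ → ∀ x : ℕ → ℝ, x 0 = -1 → x k = 1 → (∀ i < k, x i < x (i + 1)) →
      (∀ i ≤ k, 1 - C * ε ^ 2 ≤ (-1) ^ (k + i) * (T ℝ k).eval (x i)) →
      ∀ i ≤ k, |x i - tau k i| ≤ C' * ε := by
  have hpi := Real.pi_pos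
  have hsC := Real.sqrt_nonneg C
  refine ⟨Real.pi * Real.sqrt C, 1 / (4 * (Real.sqrt C + 1)), by positivity, by positivity, ?_⟩
  intro ε hε hε0 x hx0 hxk hmono hval
  have hk0 : (0 : ℝ) < k := by exact_mod_cast hk
  have hk1 : (1 : ℝ) ≤ k := by exact_mod_cast hk
  -- small error
  have hsmall : Real.pi * Real.sqrt C * ε < Real.pi / 4 := by
    have h1 : Real.sqrt C * ε < 1 / 4 := by
      rw [le_div_iff₀ (by positivity)] at hε0
      nlinarith
    nlinarith
  set δ := Real.pi * Real.sqrt C * ε with hδ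
  have hδ0 : 0 ≤ δ := by positivity
  -- monotonicity
  have hle : ∀ i j, i ≤ j → j ≤ k → x i ≤ x j := by
    intro i j hij
    induction j, hij using Nat.le_induction with
    | base => intro _; exact le_rfl
    | succ j _ ih =>
      intro hj
      exact (ih (by omega)).trans (hmono j (by omega)).le
  have hlow : ∀ i ≤ k, -1 ≤ x i := fun i hi => by
    rw [← hx0]; exact hle 0 i (Nat.zero_le _) hi
  have hup : ∀ i ≤ k, x i ≤ 1 := fun i hi => by
    rw [← hxk]; exact hle i k hi le_rfl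
  set φ : ℕ → ℝ := fun i => Real.arccos (-x i) with hφ
  have hcos : ∀ i ≤ k, x i = -Real.cos (φ i) := by
    intro i hi
    simp only [hφ]
    rw [Real.cos_arccos (by linarith [hup i hi]) (by linarith [hlow i hi])]
    ring
  have hφm : ∀ i < k, φ i ≤ φ (i + 1) := by
    intro i hi
    simp only [hφ]
    apply Real.arccos_le_arccos
    linarith [hmono i hi]
  have hφ0 : φ 0 = 0 := by
    simp only [hφ]
    rw [hx0]
    simp
  have hφk : φ k = Real.pi := by
    simp only [hφ]
    rw [hxk]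
    simp
  have hnear : ∀ i, ∃ m : ℤ, i ≤ k →
      |(k : ℝ) * φ i - i * Real.pi - 2 * Real.pi * m| ≤ δ := by
    intro i
    by_cases hi : i ≤ k
    · have h1 := hval i hi
      rw [hcos i hi, PatChebB_cos] at h1
      obtain ⟨m, hm⟩ := PatChebB_near hC hε h1
      exact ⟨m, fun _ => hm⟩
    · exact ⟨0, fun h => absurd h hi⟩
  choose m hm using hnear
  have hm0 : m 0 = 0 := by
    have h1 := hm 0 (Nat.zero_le _)
    rw [hφ0] at h1
    push_cast at h1
    have h2 := abs_le.1 h1
    have h3 : (m 0 : ℝ) < 1 := by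
      by_contra hcon
      push Not at hcon
      nlinarith
    have h4 : (-1 : ℝ) < m 0 := by
      by_contra hcon
      push Not at hcon
      nlinarith
    have h5 : m 0 < 1 := by exact_mod_cast h3
    have h6 : -1 < m 0 := by exact_mod_cast h4
    omega
  have hmk : m k = 0 := by
    have h1 := hm k le_rfl
    rw [hφk] at h1
    have h2 := abs_le.1 h1
    have h3 : (m k : ℝ) < 1 := by
      by_contra hcon
      push Not at hcon
      nlinarith
    have h4 : (-1 : ℝ) < m k := by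
      by_contra hcon
      push Not at hcon
      nlinarith
    have h5 : m k < 1 := by exact_mod_cast h3
    have h6 : -1 < m k := by exact_mod_cast h4
    omega
  have hmm : ∀ i < k, m i ≤ m (i + 1) := by
    intro i hi
    have h1 := abs_le.1 (hm i hi.le)
    have h2 := abs_le.1 (hm (i + 1) hi)
    have h3 := hφm i hi
    push_cast at h2
    have h4 : (-1 : ℝ) < (m (i + 1) : ℝ) - m i := by
      by_contra hcon
      push Not at hcon
      nlinarith
    have h5 : (-1 : ℤ) < m (i + 1) - m i := by exact_mod_cast h4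
    omega
  have hmle : ∀ i j, i ≤ j → j ≤ k → m i ≤ m j := by
    intro i j hij
    induction j, hij using Nat.le_induction with
    | base => intro _; exact le_rfl
    | succ j _ ih =>
      intro hj
      exact (ih (by omega)).trans (hmm j (by omega))
  intro i hi
  have hmi : m i = 0 := by
    have h1 := hmle 0 i (Nat.zero_le _) hi
    have h2 := hmle i k hi le_rfl
    omega
  have h1 := hm i hi
  rw [hmi] at h1
  push_cast at h1
  rw [mul_zero, sub_zero] at h1
  have h2 : |φ i - i * Real.pi / k| ≤ δ := by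
    have h3 : φ i - i * Real.pi / k = ((k : ℝ) * φ i - i * Real.pi) / k := by
      field_simp
    rw [h3, abs_div, abs_of_pos hk0]
    rw [div_le_iff₀ hk0]
    nlinarith
  have h4 : |x i - tau k i| = |Real.cos (φ i) - Real.cos (i * Real.pi / k)| := by
    rw [hcos i hi]
    unfold tau
    rw [← abs_neg]
    congr 1
    ring
  rw [h4]
  exact (PatChebB_lip _ _).trans h2

end Pool.Agent.MP658x
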