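import Pool.Agent.Lib.MP_658dbf_an_X.PatChebA
import Pool.Agent.Lib.MP_658dbf_an_X.PatChebB

/-!
# MP_658dbf_an, project X: the centres are close to the Chebyshev nodes
-/

set_option autoImplicit false

namespace Pool.Agent.MP658x

open Finset Polynomial Polynomial.Chebyshev

/-- `cheb_at` and `locate` for `x i = Lp ε β i` (`i < k`), `x k = 1` -/
theorem close1 (k : ℕ) (hk : 1 ≤ k) : ∃ C ε₀ : ℝ, 0 ≤ C ∧ 0 < ε₀ ∧
    ∀ (ε : ℝ) (β : ℕ → ℝ), Pat k ε β → ε ≤ ε₀ → ∀ i ≤ k, |β i - tau k i| ≤ C * ε := by
  set C0 : ℝ := (k : ℝ) * (4 * 16 ^ k) with hC0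
  have hC0n : 0 ≤ C0 := by positivity
  obtain ⟨C', ε₀, hC', hε₀, hloc⟩ := locate k hk C0 hC0n
  refine ⟨C' + 1, min ε₀ (1 / (C0 + 1)), by linarith, lt_min hε₀ (by positivity), ?_⟩
  intro ε β hP hε i hi
  have hεpos := hP.pos
  have hε1 : ε ≤ ε₀ := hε.trans (min_le_left _ _)
  have hε2 : ε ≤ 1 / (C0 + 1) := hε.trans (min_le_right _ _)
  have hsmall : C0 * ε ^ 2 < 1 := by
    have h1 : ε * (C0 + 1) ≤ 1 := by
      rw [le_div_iff₀ (by linarith)] at hε2
      exact hε2
    have h2 : ε ≤ 1 := by nlinarith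
    nlinarith
  have hcheb := cheb_at hk hP (by rw [← hC0]; exact hsmall)
  set x : ℕ → ℝ := fun i => if i < k then Lp ε β i else 1 with hx
  have hx0 : x 0 = -1 := by
    simp only [hx]
    rw [if_pos (by omega)]
    unfold Lp
    rw [if_pos rfl]
  have hxk : x k = 1 := by simp [hx]
  have hmono : ∀ i < k, x i < x (i + 1) := by
    intro i hi
    have hg := hP.gap i hi
    simp only [hx]
    rw [if_pos hi]
    split_ifs with h1
    · unfold Lp
      rw [if_neg (Nat.succ_ne_zero i)]
      split_ifs with h2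
      · subst h2
        rw [hP.zero] at hg
        norm_num at hg ⊢
        linarith
      · linarith
    · have h3 : i + 1 = k := by omega
      rw [h3, hP.top] at hg
      unfold Lp
      split_ifs with h2
      · norm_num
      · linarith
  have hval : ∀ i ≤ k, 1 - C0 * ε ^ 2 ≤ (-1) ^ (k + i) * (T ℝ k).eval (x i) := by
    intro i hi
    rcases Nat.lt_or_ge i k with h | h
    · simp only [hx]
      rw [if_pos h]
      exact hcheb i h
    · have h1 : i = k := by omega
      subst h1
      rw [hxk, T_eval_one, mul_one, ← two_mul, pow_mul]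
      norm_num
      positivity
  have hclose := hloc ε hεpos hε1 x hx0 hxk hmono hval i hi
  rcases Nat.eq_zero_or_pos i with h0 | h0
  · subst h0
    rw [hP.zero]
    unfold tau
    simp
    positivity
  rcases Nat.lt_or_ge i k with h | h
  · have h1 : x i = β i + ε := by
      simp only [hx]
      rw [if_pos h]
      unfold Lp
      rw [if_neg (by omega)]
    rw [h1] at hclose
    have h2 : β i - tau k i = (β i + ε - tau k i) - ε := by ring
    rw [h2]
    calc |(β i + ε - tau k i) - ε| ≤ |β i + ε - tau k i| + |ε| := abs_sub _ _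
      _ ≤ C' * ε + ε := by
          rw [abs_of_pos hεpos]
          linarith
      _ = (C' + 1) * ε := by ring
  · have h1 : i = k := by omega
    subst h1
    rw [hP.top]
    unfold tau
    have h2 : (i : ℝ) ≠ 0 := by
      have : (0 : ℝ) < i := by exact_mod_cast h0
      exact this.ne'
    rw [mul_div_assoc, mul_div_cancel₀ _ h2, Real.cos_pi]
    norm_num
    positivity

end Pool.Agent.MP658x
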