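import Pool.Agent.Lib.MP_658dbf_an_X.PatBound

/-!
# MP_658dbf_an, project X: the Chebyshev polynomial at the points of a pattern
-/

set_option autoImplicit false

namespace Pool.Agent.MP658x

open Finset Polynomial Polynomial.Chebyshev

private theorem PatChebA_mono {k : ℕ} {ε : ℝ} {β : ℕ → ℝ} (hP : Pat k ε β) :
    ∀ j : ℕ, ∀ i : ℕ, i ≤ j → j ≤ k → β i ≤ β j := by
  intro j
  induction j with
  | zero =>
    intro i hi _
    rw [Nat.le_zero.1 hi]
  | succ j ih =>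
    intro i hi hj
    rcases Nat.lt_or_ge i (j + 1) with h | h
    · have h1 := ih i (by omega) (by omega)
      have h2 := hP.gap j (by omega)
      have h3 := hP.pos
      linarith
    · rw [le_antisymm hi h]

private theorem PatChebA_mem {k : ℕ} {ε : ℝ} {β : ℕ → ℝ} (hP : Pat k ε β) {i : ℕ} (hi : i < k) :
    |Lp ε β i| ≤ 1 ∧ |Rp k ε β i| ≤ 1 := by
  have hpos := hP.pos
  have h0 := hP.zero
  have h1 := hP.top
  constructor
  · unfold Lp
    split_ifs with h
    · simp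
    · have h2 := hP.gap 0 (by omega)
      have h3 := PatChebA_mono hP i (0 + 1) (by omega) (by omega)
      have h4 := hP.gap i hi
      have h5 := PatChebA_mono hP k (i + 1) (by omega) le_rfl
      rw [abs_le]
      constructor <;> linarith
  · unfold Rp
    split_ifs with h
    · simp
    · have h2 := hP.gap i hi
      have h3 := PatChebA_mono hP i 0 (by omega) (by omega)
      have h4 := hP.gap (i + 1) (by omega)
      have h5 := PatChebA_mono hP k (i + 1 + 1) (by omega) le_rfl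
      rw [abs_le]
      constructor <;> linarith

private theorem PatChebA_deg {k : ℕ} {F : ℝ[X]} (hF : F.Monic)
    (hd : F.natDegree = k) : (T ℝ k - C ((2 : ℝ) ^ (k - 1)) * F).degree < k := by
  have h2 : ((2 : ℝ) ^ (k - 1)) ≠ 0 := by positivity
  have hT : (T ℝ (k : ℤ)).degree = (k : WithBot ℕ) := by
    rw [degree_T]
    simp
  have hne : T ℝ (k : ℤ) ≠ 0 := by
    intro h
    rw [h, degree_zero] at hT
    exact absurd hT (WithBot.bot_ne_coe)
  have hq : (C ((2 : ℝ) ^ (k - 1)) * F).degree = (k : WithBot ℕ) := by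
    rw [degree_C_mul h2, degree_eq_natDegree hF.ne_zero, hd]
  have hlc : (T ℝ (k : ℤ)).leadingCoeff = (C ((2 : ℝ) ^ (k - 1)) * F).leadingCoeff := by
    rw [leadingCoeff_T, leadingCoeff_mul, leadingCoeff_C, hF.leadingCoeff]
    simp
  have h3 := degree_sub_lt_left (hT.trans hq.symm) hne hlc
  rwa [hT] at h3

/-- the value of the functional at `T k` -/
private theorem PatChebA_sum {k : ℕ} (hk : 1 ≤ k) {ε : ℝ} {β : ℕ → ℝ} (hP : Pat k ε β)
    {F : ℝ[X]} {c : ℝ} (hF : F.Monic) (hd : F.natDegree = k)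
    (hv : ∀ i < k, F.eval (Lp ε β i) = -((-1) ^ i * c) ∧
      F.eval (Rp k ε β i) = (-1) ^ i * c) :
    ∑ i ∈ range k, (-1 : ℝ) ^ i *
      ((T ℝ k).eval (Lp ε β i) - (T ℝ k).eval (Rp k ε β i)) = -(k * (2 ^ k * c)) := by
  have h1 := hP.mom _ (PatChebA_deg hF hd)
  have h2 : ∀ i ∈ range k, (-1 : ℝ) ^ i *
      ((T ℝ k - C ((2 : ℝ) ^ (k - 1)) * F).eval (Lp ε β i) -
        (T ℝ k - C ((2 : ℝ) ^ (k - 1)) * F).eval (Rp k ε β i)) =
      (-1 : ℝ) ^ i * ((T ℝ k).eval (Lp ε β i) - (T ℝ k).eval (Rp k ε β i)) + 2 ^ k * c := by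
    intro i hi
    obtain ⟨ha, hb⟩ := hv i (mem_range.1 hi)
    simp only [eval_sub, eval_mul, eval_C]
    rw [ha, hb]
    have h3 : (2 : ℝ) ^ k = 2 * 2 ^ (k - 1) := by
      rw [← pow_succ', Nat.sub_add_cancel hk]
    have h4 : (-1 : ℝ) ^ i * (-1 : ℝ) ^ i = 1 := by
      rw [← mul_pow]
      norm_num
    rw [h3]
    linear_combination (2 * 2 ^ (k - 1) * c) * h4
  rw [sum_congr rfl h2, sum_add_distrib, sum_const, card_range, nsmul_eq_mul] at h1
  linarith

/-- a sum of `2 k` terms of modulus at most one which is large in modulus -/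
private theorem PatChebA_terms {k : ℕ} {a b : ℕ → ℝ} {D : ℝ} (ha : ∀ i < k, |a i| ≤ 1)
    (hb : ∀ i < k, |b i| ≤ 1) (hs : 2 * (k : ℝ) - D ≤ ∑ i ∈ range k, (a i + b i)) :
    ∀ i < k, 1 - D ≤ a i := by
  intro i hi
  have h1 : ∑ j ∈ (range k).erase i, (a j + b j) ≤ ∑ j ∈ (range k).erase i, (2 : ℝ) := by
    refine sum_le_sum (fun j hj => ?_)
    have hj' := mem_range.1 (mem_of_mem_erase hj)
    have h2 := (abs_le.1 (ha j hj')).2
    have h3 := (abs_le.1 (hb j hj')).2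
    linarith
  have h2 := add_sum_erase (range k) (fun j => a j + b j) (mem_range.2 hi)
  rw [sum_const, card_erase_of_mem (mem_range.2 hi), card_range, nsmul_eq_mul] at h1
  have h3 := (abs_le.1 (hb i hi)).2
  have h4 : ((k - 1 : ℕ) : ℝ) = (k : ℝ) - 1 := by
    rw [Nat.cast_sub (by omega)]
    simp
  rw [h4] at h1
  linarith

/-- `Λ g = ∑ (-1)^i (g (Lp i) - g (Rp i))` kills degree `< k`, so `Λ (T k) = 2^(k-1) Λ F = -2^k k c`. By
`c_lower` `|2^k c| ≥ 2 - 4 · 16^k ε²` (`(2 - δ)² ≤ 4 - δ` for `0 ≤ δ ≤ 3`; for `δ > 2` trivial). `Λ (T k)` is a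
sum of `2 k` terms of absolute value `≤ 1` (`abs_eval_T_real_le_one`), so each has the sign `η` of the sum
and absolute value `≥ 1 - k 4 · 16^k ε²`. At `Lp 0 = -1` the value is `T k (-1) = (-1)^k`, so `η = (-1)^k` if
`k 4 · 16^k ε² < 1`. -/
theorem cheb_at {k : ℕ} (hk : 1 ≤ k) {ε : ℝ} {β : ℕ → ℝ} (hP : Pat k ε β)
    (hε : (k : ℝ) * (4 * 16 ^ k) * ε ^ 2 < 1) :
    ∀ i < k, 1 - (k : ℝ) * (4 * 16 ^ k) * ε ^ 2 ≤
      (-1) ^ (k + i) * (T ℝ k).eval (Lp ε β i) := by
  obtain ⟨F, c, hF, hd, hv, hp⟩ := pat_F hk hP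
  have hc := c_lower hk hP hF hd hp
  have hsum := PatChebA_sum hk hP hF hd hv
  have hk1 : (1 : ℝ) ≤ (k : ℝ) := by exact_mod_cast hk
  obtain ⟨δ, hδ⟩ : ∃ δ : ℝ, δ = 4 * 16 ^ k * ε ^ 2 := ⟨_, rfl⟩
  have hδ0 : 0 ≤ δ := by rw [hδ]; positivity
  have hkδ : (k : ℝ) * (4 * 16 ^ k) * ε ^ 2 = k * δ := by rw [hδ]; ring
  rw [hkδ] at hε ⊢
  have hδ1 : δ < 1 := by nlinarith
  have hc' : 4 - δ ≤ (2 ^ k * c) ^ 2 := by rw [hδ]; linarith
  have hone : ∀ i : ℕ, |(-1 : ℝ) ^ i| = 1 := fun i => by rw [abs_pow]; simp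
  -- the sign
  obtain ⟨η, hη, hηc⟩ : ∃ η : ℝ, |η| = 1 ∧ 2 - δ ≤ η * -(2 ^ k * c) := by
    rcases le_total 0 (2 ^ k * c) with h | h
    · refine ⟨-1, by simp, ?_⟩
      nlinarith
    · refine ⟨1, by simp, ?_⟩
      nlinarith
  have hterm : ∀ i < k, 1 - k * δ ≤ η * ((-1) ^ i * (T ℝ k).eval (Lp ε β i)) := by
    refine PatChebA_terms (b := fun i => η * (-((-1) ^ i * (T ℝ k).eval (Rp k ε β i)))) ?_ ?_ ?_
    · intro i hi
      rw [abs_mul, abs_mul, hη, hone, one_mul, one_mul]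
      exact abs_eval_T_real_le_one k (PatChebA_mem hP hi).1
    · intro i hi
      rw [abs_mul, abs_neg, abs_mul, hη, hone, one_mul, one_mul]
      exact abs_eval_T_real_le_one k (PatChebA_mem hP hi).2
    · have h1 : ∑ i ∈ range k, (η * ((-1) ^ i * (T ℝ k).eval (Lp ε β i)) +
          η * (-((-1) ^ i * (T ℝ k).eval (Rp k ε β i)))) = η * -(k * (2 ^ k * c)) := by
        rw [← hsum, mul_sum]
        refine sum_congr rfl (fun i _ => ?_)
        ring
      rw [h1]
      have h2 : (k : ℝ) * (2 - δ) ≤ k * (η * -(2 ^ k * c)) :=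
        mul_le_mul_of_nonneg_left hηc (by linarith)
      linarith
  have h0 := hterm 0 (by omega)
  have hL0 : Lp ε β 0 = -1 := by simp [Lp]
  have hT0 : (T ℝ (k : ℤ)).eval (-1) = (-1 : ℝ) ^ k := by
    rw [T_eval_neg_one]
    simp
  rw [hL0, hT0] at h0
  have hηk : η = (-1) ^ k := by
    have h3 : 0 < η * (-1) ^ k := by
      simp only [pow_zero, one_mul] at h0
      linarith
    have h4 : η = 1 ∨ η = -1 := by
      rcases abs_choice η with h | h
      · left; rw [← h, hη]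
      · right; linarith
    rcases neg_one_pow_eq_or ℝ k with h5 | h5
    · rw [h5] at h3 ⊢
      rcases h4 with h | h
      · exact h
      · rw [h] at h3; norm_num at h3
    · rw [h5] at h3 ⊢
      rcases h4 with h | h
      · rw [h] at h3; norm_num at h3
      · exact h
  intro i hi
  have h5 := hterm i hi
  rw [hηk, ← mul_assoc, ← pow_add] at h5
  exact h5

end Pool.Agent.MP658x
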