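import Pool.Agent.Lib.MP_658dbf_an_X.Defs

/-!
# MP_658dbf_an, project X: scaled patterns

`ε = 1 / (y k - y 0 - 1)`; `β i` (`0 < i < k`) is the scaled centre of the pair `y i, y i + 1`, the
pair itself is `β i - ε, β i + ε`; the end points are `-1` and `1`.
-/

set_option autoImplicit false

namespace Pool.Agent.MP658x

open Finset Polynomial

/-- left end of block `i` -/
noncomputable def Lp (ε : ℝ) (β : ℕ → ℝ) (i : ℕ) : ℝ := if i = 0 then -1 else β i + ε

/-- right end of block `i` -/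
noncomputable def Rp (k : ℕ) (ε : ℝ) (β : ℕ → ℝ) (i : ℕ) : ℝ :=
  if i + 1 = k then 1 else β (i + 1) - ε

/-- scaled block patterns with the moment conditions -/
structure Pat (k : ℕ) (ε : ℝ) (β : ℕ → ℝ) : Prop where
  pos : 0 < ε
  zero : β 0 = -1
  top : β k = 1
  gap : ∀ i < k, β i + 3 * ε ≤ β (i + 1)
  mom : ∀ g : ℝ[X], g.degree < k →
    ∑ i ∈ range k, (-1 : ℝ) ^ i * (g.eval (Lp ε β i) - g.eval (Rp k ε β i)) = 0

/-- the Chebyshev nodes in increasing order -/
noncomputable def tau (k i : ℕ) : ℝ := -Real.cos (i * Real.pi / k)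

end Pool.Agent.MP658x
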