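import Pool.Agent.Lib.MP_658dbf_an_X.PatDefs

/-!
# MP_658dbf_an, project X: scaling of an integer pattern
-/

set_option autoImplicit false

namespace Pool.Agent.MP658x

open Finset Polynomial

/-- doubled centred integer coordinates: `-A`, the centres of the pairs, `A`, `A = y k - y 0 - 1` -/
def cc (k : ℕ) (y : ℕ → ℤ) (i : ℕ) : ℤ :=
  if i = 0 then -(y k - y 0 - 1) else if i = k then y k - y 0 - 1 else 2 * y i - y 0 - y k

private theorem patOf_mono {k : ℕ} {y : ℕ → ℤ} (hy : ∀ i < k, y i + 2 ≤ y (i + 1)) (i : ℕ)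
    (hi : i ≤ k) : y 0 + 2 * i ≤ y i := by
  induction i with
  | zero => simp
  | succ i ih =>
    have h1 := ih (by omega)
    have h2 := hy i (by omega)
    push_cast
    omega

private theorem patOf_cc {k : ℕ} {y : ℕ → ℤ} (hk : 2 ≤ k) (hy : ∀ i < k, y i + 2 ≤ y (i + 1))
    (i : ℕ) (hi : i < k) : cc k y i + 3 ≤ cc k y (i + 1) := by
  have h1 := hy i hi
  unfold cc
  rcases Nat.eq_zero_or_pos i with h0 | h0
  · subst h0
    rw [if_pos rfl, if_neg (by omega), if_neg (by omega)]
    omega
  · rw [if_neg (by omega), if_neg (by omega), if_neg (by omega)]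
    split_ifs with h2
    · subst h2
      omega
    · omega

/-- The moment conditions for real polynomials. -/
private theorem patOf_mom {k : ℕ} {y : ℕ → ℤ} (hm : Mom k y) (G : ℝ[X]) (hG : G.natDegree < k) :
    ∑ i ∈ range k, (-1 : ℝ) ^ i * (G.eval ((y i : ℝ) + 1) - G.eval ((y (i + 1) : ℤ) : ℝ)) = 0 := by
  have h1 : ∀ j ∈ range k, ∑ i ∈ range k,
      (-1 : ℝ) ^ i * (((y i : ℝ) + 1) ^ j - ((y (i + 1) : ℤ) : ℝ) ^ j) = 0 := by
    intro j hj
    have h2 := hm ((X : ℤ[X]) ^ j) (by
      rw [Polynomial.degree_X_pow]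
      exact_mod_cast mem_range.mp hj)
    simp only [Polynomial.eval_pow, Polynomial.eval_X] at h2
    exact_mod_cast h2
  have h3 : ∀ i ∈ range k,
      (-1 : ℝ) ^ i * (G.eval ((y i : ℝ) + 1) - G.eval ((y (i + 1) : ℤ) : ℝ)) =
      ∑ j ∈ range k, G.coeff j *
        ((-1 : ℝ) ^ i * (((y i : ℝ) + 1) ^ j - ((y (i + 1) : ℤ) : ℝ) ^ j)) := by
    intro i _
    rw [Polynomial.eval_eq_sum_range' hG, Polynomial.eval_eq_sum_range' hG, ← sum_sub_distrib,
      mul_sum]
    refine sum_congr rfl fun j _ => ?_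
    ring
  rw [sum_congr rfl h3, sum_comm]
  refine sum_eq_zero fun j hj => ?_
  rw [← mul_sum, h1 j hj, mul_zero]

/-- With `A = y k - y 0 - 1 > 0`, `ε = 1 / A`, `β i = cc k y i / A`: `Lp ε β i = (2 (y i + 1) - M) / A`,
`Rp k ε β i = (2 y (i+1) - M) / A`, `M = y 0 + 1 + y k`. The moment conditions for real polynomials follow
from those for the integer polynomials `X ^ j`, `j < k`, by linearity (expand `g ((2 z - M) / A)`). -/
theorem pat_of {k : ℕ} {y : ℕ → ℤ} (hk : 2 ≤ k) (hy : ∀ i < k, y i + 2 ≤ y (i + 1))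
    (hm : Mom k y) : 0 < y k - y 0 - 1 ∧
      Pat k (1 / ((y k - y 0 - 1 : ℤ) : ℝ)) (fun i => (cc k y i : ℝ) / ((y k - y 0 - 1 : ℤ) : ℝ)) := by
  have hA : 0 < y k - y 0 - 1 := by
    have := patOf_mono hy k le_rfl
    omega
  refine ⟨hA, ?_⟩
  have hAr : (0 : ℝ) < ((y k - y 0 - 1 : ℤ) : ℝ) := by exact_mod_cast hA
  set A : ℝ := ((y k - y 0 - 1 : ℤ) : ℝ) with hAdef
  have hA0 : A ≠ 0 := hAr.ne'
  have hAe : A = (y k : ℝ) - y 0 - 1 := by
    rw [hAdef]
    push_cast
    ring
  refine ⟨by positivity, ?_, ?_, ?_, ?_⟩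
  · have e1 : (cc k y 0 : ℝ) = -A := by
      simp only [cc, if_true, hAdef]
      push_cast
      ring
    show (cc k y 0 : ℝ) / A = -1
    rw [e1, neg_div, div_self hA0]
  · have e1 : (cc k y k : ℝ) = A := by
      have h1 : cc k y k = y k - y 0 - 1 := by
        unfold cc
        rw [if_neg (by omega), if_pos rfl]
      rw [h1]
    show (cc k y k : ℝ) / A = 1
    rw [e1, div_self hA0]
  · intro i hi
    have h1 : ((cc k y i + 3 : ℤ) : ℝ) ≤ ((cc k y (i + 1) : ℤ) : ℝ) := by
      exact_mod_cast patOf_cc hk hy i hi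
    show (cc k y i : ℝ) / A + 3 * (1 / A) ≤ (cc k y (i + 1) : ℝ) / A
    have h2 : (cc k y i : ℝ) / A + 3 * (1 / A) = ((cc k y i + 3 : ℤ) : ℝ) / A := by
      push_cast
      ring
    rw [h2]
    exact div_le_div_of_nonneg_right h1 hAr.le
  · intro g hg
    have hgn : g.natDegree < k := by
      by_cases h0 : g = 0
      · rw [h0, Polynomial.natDegree_zero]
        omega
      · rw [Polynomial.degree_eq_natDegree h0] at hg
        exact_mod_cast hg
    set M : ℝ := (y 0 : ℝ) + 1 + y k with hM
    set q : ℝ[X] := C (2 / A) * X - C (M / A) with hq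
    have hqd : q.natDegree ≤ 1 := by
      rw [hq]
      refine (Polynomial.natDegree_sub_le _ _).trans (max_le ?_ ?_)
      · exact (Polynomial.natDegree_C_mul_le _ _).trans Polynomial.natDegree_X_le
      · rw [Polynomial.natDegree_C]
        exact Nat.zero_le _
    have hGd : (g.comp q).natDegree < k := by
      refine lt_of_le_of_lt Polynomial.natDegree_comp_le ?_
      calc g.natDegree * q.natDegree ≤ g.natDegree * 1 := Nat.mul_le_mul_left _ hqd
        _ < k := by rw [mul_one]; exact hgn
    have hev : ∀ z : ℝ, (g.comp q).eval z = g.eval ((2 * z - M) / A) := by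
      intro z
      rw [Polynomial.eval_comp, hq]
      congr 1
      simp only [Polynomial.eval_sub, Polynomial.eval_mul, Polynomial.eval_C, Polynomial.eval_X]
      ring
    rw [← patOf_mom hm (g.comp q) hGd]
    refine sum_congr rfl fun i hi => ?_
    have hik := mem_range.mp hi
    rw [hev, hev]
    have e1 : Lp (1 / A) (fun i => (cc k y i : ℝ) / A) i = (2 * ((y i : ℝ) + 1) - M) / A := by
      unfold Lp
      rcases Nat.eq_zero_or_pos i with h0 | h0
      · subst h0
        rw [if_pos rfl, eq_div_iff hA0, hM, hAe]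
        ring
      · have h1 : (cc k y i : ℝ) = 2 * y i - y 0 - y k := by
          have h2 : cc k y i = 2 * y i - y 0 - y k := by
            unfold cc
            rw [if_neg (by omega), if_neg (by omega)]
          rw [h2]
          push_cast
          ring
        rw [if_neg (by omega)]
        show (cc k y i : ℝ) / A + 1 / A = _
        rw [h1, hM, ← add_div]
        congr 1
        ring
    have e2 : Rp k (1 / A) (fun i => (cc k y i : ℝ) / A) i =
        (2 * ((y (i + 1) : ℤ) : ℝ) - M) / A := by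
      unfold Rp
      split_ifs with h0
      · subst h0
        rw [eq_div_iff hA0, hM, hAe]
        ring
      · have h1 : (cc k y (i + 1) : ℝ) = 2 * y (i + 1) - y 0 - y k := by
          have h2 : cc k y (i + 1) = 2 * y (i + 1) - y 0 - y k := by
            unfold cc
            rw [if_neg (by omega), if_neg (by omega)]
          rw [h2]
          push_cast
          ring
        show (cc k y (i + 1) : ℝ) / A - 1 / A = _
        rw [h1, hM, ← sub_div]
        congr 1
        ring
    rw [e1, e2]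

end Pool.Agent.MP658x
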