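import Pool.Agent.Lib.MP_658dbf_an_X.PatCheb
import Pool.Agent.Lib.MP_658dbf_an_X.ChebSum

/-!
# MP_658dbf_an, project X: the centres are `O(ε²)`-close to the Chebyshev nodes
-/

set_option autoImplicit false

namespace Pool.Agent.MP658x

open Finset Polynomial

/-- regrouping of an alternating sum -/
private theorem alt_sum (L R : ℕ → ℝ) (n : ℕ) :
    ∑ j ∈ range (n + 1), (-1 : ℝ) ^ j * (L j - R j) =
      L 0 + ∑ j ∈ Ico 1 (n + 1), (-1 : ℝ) ^ j * (L j + R (j - 1)) + (-1) ^ (n + 1) * R n := by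
  induction n with
  | zero => simp; ring
  | succ n ih =>
    rw [sum_range_succ, ih, sum_Ico_succ_top (by omega : 1 ≤ n + 1)]
    simp only [Nat.add_sub_cancel]
    ring

private theorem tau_abs (k i : ℕ) : |tau k i| ≤ 1 := by
  unfold tau
  rw [abs_neg]
  exact Real.abs_cos_le_one _

private theorem tau_inj {k i j : ℕ} (hk : 1 ≤ k) (hi : i ≤ k) (hj : j ≤ k)
    (h : tau k i = tau k j) : i = j := by
  unfold tau at h
  have hk0 : (0 : ℝ) < k := by exact_mod_cast hk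
  have hmem : ∀ i : ℕ, i ≤ k → (i * Real.pi / k : ℝ) ∈ Set.Icc 0 Real.pi := by
    intro i hi
    have hi' : (i : ℝ) ≤ k := by exact_mod_cast hi
    refine ⟨by positivity, ?_⟩
    rw [div_le_iff₀ hk0, mul_comm]
    exact mul_le_mul_of_nonneg_left hi' Real.pi_pos.le
  have h1 := Real.injOn_cos (hmem i hi) (hmem j hj) (neg_injective h)
  have h2 : (i : ℝ) * Real.pi = j * Real.pi := by
    have h3 : (i * Real.pi / k : ℝ) * k = (j * Real.pi / k : ℝ) * k := by rw [h1]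
    rwa [div_mul_cancel₀ _ hk0.ne', div_mul_cancel₀ _ hk0.ne'] at h3
  exact_mod_cast mul_right_cancel₀ Real.pi_pos.ne' h2

/-- all points of a pattern lie in `[-1, 1]` -/
private theorem pat_abs {k : ℕ} {ε : ℝ} {β : ℕ → ℝ} (hP : Pat k ε β) {i : ℕ} (hi : i ≤ k) :
    |β i| ≤ 1 := by
  have hpos := hP.pos
  have hmono : ∀ i j, i ≤ j → j ≤ k → β i ≤ β j := by
    intro i j hij
    induction j, hij using Nat.le_induction with
    | base => intro _; exact le_rfl
    | succ j hj ih =>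
      intro hjk
      have h1 := ih (by omega)
      have h2 := hP.gap j (by omega)
      linarith
  have h1 := hmono 0 i (by omega) hi
  have h2 := hmono i k hi le_rfl
  rw [hP.zero] at h1
  rw [hP.top] at h2
  exact abs_le.2 ⟨h1, h2⟩

private theorem refine_one {k : ℕ} (hk : 2 ≤ k) {i : ℕ} (hi0 : 0 < i) (hik : i < k) {C1 ε1 : ℝ}
    (hC1 : 0 ≤ C1)
    (h1 : ∀ (ε : ℝ) (β : ℕ → ℝ), Pat k ε β → ε ≤ ε1 → ∀ i ≤ k, |β i - tau k i| ≤ C1 * ε) :
    ∃ C : ℝ, 0 ≤ C ∧ ∀ (ε : ℝ) (β : ℕ → ℝ), Pat k ε β → ε ≤ ε1 → ε ≤ 1 →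
      |β i - tau k i| ≤ C * ε ^ 2 := by
  obtain ⟨n, rfl⟩ : ∃ n, k = n + 1 := ⟨k - 1, by omega⟩
  set s := (Ico 1 (n + 1)).erase i with hs
  have hcard : s.card = n - 1 := by
    rw [hs, card_erase_of_mem (mem_Ico.2 ⟨hi0, hik⟩), Nat.card_Ico]
    omega
  set h : ℝ[X] := ∏ j ∈ s, (X - C (tau (n + 1) j)) with hh
  have hdeg : h.degree ≤ ((n - 1 : ℕ) : WithBot ℕ) := by
    rw [hh, degree_prod]
    simp [hcard]
  obtain ⟨g, hg, hgd⟩ := exists_anti h hdeg
  have hgd' : g.degree < ((n + 1 : ℕ) : WithBot ℕ) := by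
    refine lt_of_le_of_lt hgd ?_
    have : n - 1 + 1 < n + 1 := by omega
    exact_mod_cast this
  obtain ⟨K, hK, hT⟩ := poly_taylor g
  have hne : h.eval (tau (n + 1) i) ≠ 0 := by
    rw [hh, eval_prod, prod_ne_zero_iff]
    intro j hj
    rw [hs, mem_erase, mem_Ico] at hj
    simp only [eval_sub, eval_X, eval_C]
    intro h0
    exact hj.1 (tau_inj (by omega) hik.le (by omega) (sub_eq_zero.1 h0)).symm
  have hz : ∀ j ∈ Ico 1 (n + 1), j ≠ i → h.eval (tau (n + 1) j) = 0 := by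
    intro j hj hji
    rw [hh, eval_prod]
    refine prod_eq_zero (mem_erase.2 ⟨hji, hj⟩) ?_
    simp
  have hpos : 0 < |h.eval (tau (n + 1) i)| := abs_pos.2 hne
  refine ⟨n * (K * (C1 + 1) ^ 2) / |h.eval (tau (n + 1) i)|, by positivity, ?_⟩
  intro ε β hP hε hε1
  have hεpos := hP.pos
  have hm := hP.mom g hgd'
  have hc := cheb_sum (k := n + 1) (by omega) g hgd'
  rw [alt_sum (fun j => g.eval (Lp ε β j)) (fun j => g.eval (Rp (n + 1) ε β j)) n] at hm
  rw [alt_sum (fun j => g.eval (tau (n + 1) j)) (fun j => g.eval (tau (n + 1) (j + 1))) n] at hc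
  have e0 : Lp ε β 0 = -1 := by simp [Lp]
  have e1 : Rp (n + 1) ε β n = 1 := by simp [Rp]
  have e2 : tau (n + 1) 0 = -1 := by simp [tau]
  have e3 : tau (n + 1) (n + 1) = 1 := by
    unfold tau
    have : ((n + 1 : ℕ) : ℝ) ≠ 0 := by positivity
    rw [mul_div_assoc, mul_div_cancel₀ _ this, Real.cos_pi]
    norm_num
  have hm2 : g.eval (-1) + ∑ j ∈ Ico 1 (n + 1), (-1 : ℝ) ^ j *
      (g.eval (β j + ε) + g.eval (β j - ε)) + (-1) ^ (n + 1) * g.eval 1 = 0 := by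
    rw [← hm]
    rw [e0, e1]
    congr 2
    refine sum_congr rfl fun j hj => ?_
    rw [mem_Ico] at hj
    have f1 : Lp ε β j = β j + ε := by
      unfold Lp
      rw [if_neg (by omega)]
    have f2 : Rp (n + 1) ε β (j - 1) = β j - ε := by
      unfold Rp
      rw [if_neg (by omega), Nat.sub_add_cancel hj.1]
    rw [f1, f2]
  have hc2 : g.eval (-1) + ∑ j ∈ Ico 1 (n + 1), (-1 : ℝ) ^ j *
      (2 * g.eval (tau (n + 1) j)) + (-1) ^ (n + 1) * g.eval 1 = 0 := by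
    rw [← hc]
    rw [e2, e3]
    congr 2
    refine sum_congr rfl fun j hj => ?_
    rw [mem_Ico] at hj
    rw [Nat.sub_add_cancel hj.1]
    ring
  have hdiff : ∑ j ∈ Ico 1 (n + 1), (-1 : ℝ) ^ j *
      (g.eval (β j + ε) + g.eval (β j - ε) - 2 * g.eval (tau (n + 1) j)) = 0 := by
    have : ∑ j ∈ Ico 1 (n + 1), (-1 : ℝ) ^ j *
        (g.eval (β j + ε) + g.eval (β j - ε) - 2 * g.eval (tau (n + 1) j)) =
        ∑ j ∈ Ico 1 (n + 1), (-1 : ℝ) ^ j * (g.eval (β j + ε) + g.eval (β j - ε)) -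
        ∑ j ∈ Ico 1 (n + 1), (-1 : ℝ) ^ j * (2 * g.eval (tau (n + 1) j)) := by
      rw [← sum_sub_distrib]
      refine sum_congr rfl fun j _ => ?_
      ring
    rw [this]
    linarith
  -- Taylor
  set r : ℕ → ℝ := fun j => g.eval (β j + ε) + g.eval (β j - ε) - 2 * g.eval (tau (n + 1) j) -
    2 * h.eval (tau (n + 1) j) * (β j - tau (n + 1) j) with hr
  have hrb : ∀ j ∈ Ico 1 (n + 1), |r j| ≤ 2 * (K * (C1 + 1) ^ 2 * ε ^ 2) := by
    intro j hj
    rw [mem_Ico] at hj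
    have hb := pat_abs hP (i := j) (by omega)
    have ht := tau_abs (n + 1) j
    have hcl := h1 ε β hP hε j (by omega)
    have hx1 : |β j + ε| ≤ 2 := by
      have := abs_add_le (β j) ε
      rw [abs_of_pos hεpos] at this
      linarith
    have hx2 : |β j - ε| ≤ 2 := by
      have := abs_sub (β j) ε
      rw [abs_of_pos hεpos] at this
      linarith
    have t1 := hT (β j + ε) (tau (n + 1) j) hx1 (by linarith)
    have t2 := hT (β j - ε) (tau (n + 1) j) hx2 (by linarith)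
    rw [hg] at t1 t2
    have q1 : (β j + ε - tau (n + 1) j) ^ 2 ≤ ((C1 + 1) * ε) ^ 2 := by
      have : |β j + ε - tau (n + 1) j| ≤ (C1 + 1) * ε := by
        have h3 : β j + ε - tau (n + 1) j = (β j - tau (n + 1) j) + ε := by ring
        rw [h3]
        have := abs_add_le (β j - tau (n + 1) j) ε
        rw [abs_of_pos hεpos] at this
        linarith
      exact sq_le_sq.2 (by rwa [abs_of_nonneg (show 0 ≤ (C1 + 1) * ε by positivity)])
    have q2 : (β j - ε - tau (n + 1) j) ^ 2 ≤ ((C1 + 1) * ε) ^ 2 := by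
      have : |β j - ε - tau (n + 1) j| ≤ (C1 + 1) * ε := by
        have h3 : β j - ε - tau (n + 1) j = (β j - tau (n + 1) j) - ε := by ring
        rw [h3]
        have := abs_sub (β j - tau (n + 1) j) ε
        rw [abs_of_pos hεpos] at this
        linarith
      exact sq_le_sq.2 (by rwa [abs_of_nonneg (show 0 ≤ (C1 + 1) * ε by positivity)])
    have q3 := mul_le_mul_of_nonneg_left q1 hK
    have q4 := mul_le_mul_of_nonneg_left q2 hK
    have e4 : r j = (g.eval (β j + ε) - g.eval (tau (n + 1) j) -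
        h.eval (tau (n + 1) j) * (β j + ε - tau (n + 1) j)) +
        (g.eval (β j - ε) - g.eval (tau (n + 1) j) -
        h.eval (tau (n + 1) j) * (β j - ε - tau (n + 1) j)) := by
      simp only [hr]
      ring
    rw [e4]
    refine (abs_add_le _ _).trans ?_
    have e5 : K * ((C1 + 1) * ε) ^ 2 = K * (C1 + 1) ^ 2 * ε ^ 2 := by ring
    rw [e5] at q3 q4
    linarith
  have hsum : 2 * ((-1 : ℝ) ^ i * (h.eval (tau (n + 1) i) * (β i - tau (n + 1) i))) =
      -∑ j ∈ Ico 1 (n + 1), (-1 : ℝ) ^ j * r j := by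
    have h2 : ∑ j ∈ Ico 1 (n + 1), (-1 : ℝ) ^ j *
        (2 * h.eval (tau (n + 1) j) * (β j - tau (n + 1) j)) =
        (-1 : ℝ) ^ i * (2 * h.eval (tau (n + 1) i) * (β i - tau (n + 1) i)) := by
      refine sum_eq_single_of_mem i (mem_Ico.2 ⟨hi0, hik⟩) fun j hj hji => ?_
      rw [hz j hj hji]
      ring
    have h3 : ∑ j ∈ Ico 1 (n + 1), (-1 : ℝ) ^ j * r j +
        ∑ j ∈ Ico 1 (n + 1), (-1 : ℝ) ^ j *
        (2 * h.eval (tau (n + 1) j) * (β j - tau (n + 1) j)) = 0 := by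
      rw [← hdiff, ← sum_add_distrib]
      refine sum_congr rfl fun j _ => ?_
      simp only [hr]
      ring
    rw [h2] at h3
    linarith
  have habs : 2 * (|h.eval (tau (n + 1) i)| * |β i - tau (n + 1) i|) ≤
      n * (2 * (K * (C1 + 1) ^ 2 * ε ^ 2)) := by
    have h2 : 2 * (|h.eval (tau (n + 1) i)| * |β i - tau (n + 1) i|) =
        |2 * ((-1 : ℝ) ^ i * (h.eval (tau (n + 1) i) * (β i - tau (n + 1) i)))| := by
      rw [abs_mul, abs_mul, abs_mul, abs_neg_one_pow, one_mul]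
      norm_num
    rw [h2, hsum, abs_neg]
    refine (abs_sum_le_sum_abs _ _).trans ?_
    have h3 : ∀ j ∈ Ico 1 (n + 1), |(-1 : ℝ) ^ j * r j| ≤ 2 * (K * (C1 + 1) ^ 2 * ε ^ 2) := by
      intro j hj
      rw [abs_mul, abs_neg_one_pow, one_mul]
      exact hrb j hj
    refine (sum_le_card_nsmul _ _ _ h3).trans ?_
    rw [Nat.card_Ico, nsmul_eq_mul]
    simp
  rw [div_mul_eq_mul_div, le_div_iff₀ hpos]
  linarith

/-- For `0 < i < k` let `h = ∏_{j ≠ i, 0 < j < k} (X - τ j)` and `g' = h`, `degree g < k`. The difference of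
`mom` and `cheb_sum` for `g` is `∑_{0<j<k} (-1)^j (g (β j - ε) + g (β j + ε) - 2 g (τ j)) = 0`, and by
`poly_taylor`, `close1` each term is `2 h (τ j) (β j - τ j) + O(ε²)`, with `h (τ j) = 0` for `j ≠ i` and
`h (τ i) ≠ 0`. The constants depend on `k` only (finitely many `i`). -/
theorem close2 (k : ℕ) (hk : 2 ≤ k) : ∃ C ε₀ : ℝ, 0 ≤ C ∧ 0 < ε₀ ∧
    ∀ (ε : ℝ) (β : ℕ → ℝ), Pat k ε β → ε ≤ ε₀ → ∀ i ≤ k, |β i - tau k i| ≤ C * ε ^ 2 := by
  obtain ⟨C1, ε1, hC1, hε1, h1⟩ := close1 k (by omega)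
  have h2 : ∀ i : ℕ, ∃ C : ℝ, 0 ≤ C ∧ (0 < i → i < k → ∀ (ε : ℝ) (β : ℕ → ℝ), Pat k ε β →
      ε ≤ ε1 → ε ≤ 1 → |β i - tau k i| ≤ C * ε ^ 2) := by
    intro i
    by_cases hi : 0 < i ∧ i < k
    · obtain ⟨C, hC, h⟩ := refine_one hk hi.1 hi.2 hC1 h1
      exact ⟨C, hC, fun _ _ => h⟩
    · exact ⟨0, le_rfl, fun h3 h4 => absurd ⟨h3, h4⟩ hi⟩
  choose Cf hCf hf using h2
  refine ⟨∑ i ∈ range k, Cf i, min ε1 1, sum_nonneg fun i _ => hCf i, lt_min hε1 one_pos, ?_⟩
  intro ε β hP hε i hi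
  have hCt : 0 ≤ ∑ i ∈ range k, Cf i := sum_nonneg fun i _ => hCf i
  rcases Nat.eq_zero_or_pos i with h0 | h0
  · subst h0
    rw [hP.zero]
    unfold tau
    simp
    positivity
  rcases Nat.lt_or_ge i k with h | h
  · have h3 := hf i h0 h ε β hP (hε.trans (min_le_left _ _)) (hε.trans (min_le_right _ _))
    refine h3.trans ?_
    refine mul_le_mul_of_nonneg_right ?_ (sq_nonneg _)
    exact single_le_sum (f := Cf) (fun j _ => hCf j) (mem_range.2 h)
  · have h3 : i = k := by omega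
    subst h3
    rw [hP.top]
    unfold tau
    have h4 : (i : ℝ) ≠ 0 := by
      have : (0 : ℝ) < i := by exact_mod_cast h0
      exact this.ne'
    rw [mul_div_assoc, mul_div_cancel₀ _ h4, Real.cos_pi]
    norm_num
    positivity

end Pool.Agent.MP658x
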