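import Pool.Agent.Lib.MP_658dbf_an_X.ChBasic

/-!
# MP_658dbf_an, project X: splitting a chain at an interval of constant sign
-/

set_option autoImplicit false

namespace Pool.Agent.MP658x

open Finset

variable {f : ℤ → ℤ} {K M : ℕ} {s σ x a b : ℤ}

private lemma split_sgn (hs : Sn s) (hσ : Sn σ) : σ = s ∨ σ = -s := by
  rcases hs with h | h <;> rcases hσ with h' | h' <;> subst h <;> subst h' <;> simp

/-- The chain is peeled from the right; `M` points have been moved to the right part. Induction on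
`K` generalizing `σ x M`. `K = 0`: `L = 1` (the point `a`), `R = M` if `-σ = s`, else `R = M + 1`
(prepend `b`). Step: top point `y`; if `b < y` move it to the right part and use the hypothesis at
`x := y - 1`. If `y ≤ b` and `σ = s`: then `y < a` or `y ∈ [a, b]`, the rest of the chain has top sign
`-s`, so its top point is not in `[a, b]` and is `< a`: `Ch f (K + 1) s a` (replace `y` by `a` if
`y ≥ a`), right part: prepend `b`. If `y ≤ b` and `σ = -s`: `y < a`, so `Ch f (K + 2) s a`; right part: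
`R = M` (or the single point `b` if `M = 0`). -/
theorem split_aux (hs : Sn s) (hab : a ≤ b) (hnn : ∀ z, a ≤ z → z ≤ b → 0 ≤ s * f z)
    (ha : 0 < s * f a) (hb : 0 < s * f b) (hσ : Sn σ) (h : Ch f K σ x) (hbx : b ≤ x)
    (hR : ChR f M (-σ) (x + 1)) :
    ∃ L R : ℕ, 1 ≤ L ∧ 1 ≤ R ∧ K + M + 1 ≤ L + R ∧ Ch f L s a ∧ ChR f R s b := by
  -- the right part
  have right1 : ∀ {M : ℕ} {x : ℤ}, b ≤ x → ChR f M (-s) (x + 1) → ChR f (M + 1) s b :=
    fun hbx hR => ⟨b, le_rfl, hb, ChR_mono hR (by omega)⟩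
  have right2 : ∀ {M : ℕ} {x : ℤ}, b ≤ x → ChR f M s (x + 1) →
      ∃ R : ℕ, 1 ≤ R ∧ M ≤ R ∧ ChR f R s b := by
    intro M x hbx hR
    rcases Nat.eq_zero_or_pos M with hM | hM
    · exact ⟨1, le_rfl, by omega, ChR_of_pos hb⟩
    · exact ⟨M, hM, le_rfl, ChR_mono hR (by omega)⟩
  induction K generalizing σ x M with
  | zero =>
    rcases split_sgn hs hσ with h1 | h1
    · subst h1
      exact ⟨1, M + 1, le_rfl, by omega, by omega, Ch_of_pos ha, right1 hbx hR⟩
    · subst h1
      rw [neg_neg] at hR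
      obtain ⟨R, hR1, hR2, hR3⟩ := right2 hbx hR
      exact ⟨1, R, le_rfl, hR1, by omega, Ch_of_pos ha, hR3⟩
  | succ K ih =>
    obtain ⟨y, hyx, hy, hrest⟩ := h
    by_cases hby : b < y
    · have hR' : ChR f (M + 1) σ y := ⟨y, le_rfl, hy, ChR_mono hR (by omega)⟩
      obtain ⟨L, R, h1, h2, h3, h4, h5⟩ := ih (σ := -σ) (x := y - 1) (M := M + 1) (Sn_neg hσ)
        hrest (by omega) (by rw [neg_neg, sub_add_cancel]; exact hR')
      exact ⟨L, R, h1, h2, by omega, h4, h5⟩
    · have hyb : y ≤ b := not_lt.1 hby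
      rcases split_sgn hs hσ with h1 | h1
      · subst h1
        refine ⟨K + 1, M + 1, by omega, by omega, by omega, ?_, right1 hbx hR⟩
        by_cases hya : y ≤ a
        · exact ⟨y, hya, hy, hrest⟩
        · refine ⟨a, le_rfl, ha, ?_⟩
          rcases K with _ | K
          · trivial
          · obtain ⟨y', hy'1, hy'2, hy'3⟩ := hrest
            refine ⟨y', ?_, hy'2, hy'3⟩
            by_contra hc
            have h2 := hnn y' (by omega) (by omega)
            have h3 : -σ * f y' = -(σ * f y') := by ring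
            rw [h3] at hy'2
            omega
      · subst h1
        have hya : y < a := by
          by_contra hc
          have h2 := hnn y (by omega) hyb
          have h3 : -s * f y = -(s * f y) := by ring
          rw [h3] at hy
          omega
        rw [neg_neg] at hR
        obtain ⟨R, hR1, hR2, hR3⟩ := right2 hbx hR
        refine ⟨K + 2, R, by omega, hR1, by omega, ?_, hR3⟩
        exact ⟨a, le_rfl, ha, y, by omega, hy, hrest⟩

/-- `split_aux` with `M = 0` and `max x b` -/
theorem split (hs : Sn s) (hab : a ≤ b) (hnn : ∀ z, a ≤ z → z ≤ b → 0 ≤ s * f z)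
    (ha : 0 < s * f a) (hb : 0 < s * f b) (hσ : Sn σ) (h : Ch f K σ x) :
    ∃ L R : ℕ, 1 ≤ L ∧ 1 ≤ R ∧ K + 1 ≤ L + R ∧ Ch f L s a ∧ ChR f R s b := by
  obtain ⟨L, R, h1, h2, h3, h4, h5⟩ := split_aux (M := 0) (x := max x b) hs hab hnn ha hb hσ
    (Ch_mono h (le_max_left _ _)) (le_max_right _ _) trivial
  exact ⟨L, R, h1, h2, by omega, h4, h5⟩

end Pool.Agent.MP658x
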