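import Pool.Agent.Lib.MP_658dbf_an_X.Fourier
import Pool.Agent.Lib.MP_658dbf_an_X.Refine

/-!
# MP_658dbf_an, project X: Fourier coefficients of a pattern
-/

set_option autoImplicit false

namespace Pool.Agent.MP658x

open Finset

private theorem XiClose_norm (i j n : ℕ) :
    ‖Complex.exp (2 * Real.pi * Complex.I * (i * j : ℕ) / (n : ℕ))‖ = 1 := by
  have h : (2 * Real.pi * Complex.I * (i * j : ℕ) / (n : ℕ) : ℂ) =
      ((2 * Real.pi * (i * j : ℕ) / (n : ℕ) : ℝ) : ℂ) * Complex.I := by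
    push_cast
    ring
  rw [h, Complex.norm_exp_ofReal_mul_I]

private theorem XiClose_cos {k i : ℕ} (hk : 0 < k) (hi : i ≤ 2 * k) :
    Real.cos (((2 * k - i : ℕ) : ℝ) * Real.pi / k) = Real.cos (i * Real.pi / k) := by
  have hk0 : (k : ℝ) ≠ 0 := by
    have : k ≠ 0 := hk.ne'
    exact_mod_cast this
  rw [Nat.cast_sub hi]
  have h : (((2 * k : ℕ) : ℝ) - i) * Real.pi / k = 2 * Real.pi - i * Real.pi / k := by
    push_cast
    field_simp
  rw [h, Real.cos_two_pi_sub]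

/-- With `A = y k - y 0 - 1`: `ccs i = A β i` and `|β i - τ i| ≤ C / A²` (`close2`), so `xi (2k) ccs j` differs
from `A` times the sum in `tau_fourier` by at most `2 k C / A`. -/
theorem xi_close (k : ℕ) (hk : 2 ≤ k) : ∃ C A₀ : ℝ, 0 ≤ C ∧ 0 < A₀ ∧ ∀ y : ℕ → ℤ,
    (∀ i < k, y i + 2 ≤ y (i + 1)) → Mom k y → A₀ ≤ ((y k - y 0 - 1 : ℤ) : ℝ) →
    ∀ j : ℕ, 1 ≤ j → j ≤ 2 * k - 1 →
      ‖xi (2 * k) (ccs k y) j - ((y k - y 0 - 1 : ℤ) : ℂ) *
        (if j = 1 ∨ j = 2 * k - 1 then -(k : ℂ) else 0)‖ ≤ C / ((y k - y 0 - 1 : ℤ) : ℝ) := by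
  obtain ⟨C, ε₀, hC, hε₀, hcl⟩ := close2 k hk
  refine ⟨2 * k * C, 1 / ε₀, by positivity, by positivity, ?_⟩
  intro y hy hm hA j hj hj2
  obtain ⟨hpos, hP⟩ := pat_of hk hy hm
  set a : ℤ := y k - y 0 - 1 with ha
  have hA0 : (0 : ℝ) < (a : ℝ) := by exact_mod_cast hpos
  have hle : 1 / (a : ℝ) ≤ ε₀ := by
    rw [div_le_iff₀ hA0]
    rw [div_le_iff₀ hε₀] at hA
    linarith
  have hb := hcl _ _ hP hle
  have hcc : ∀ i ≤ k, |(cc k y i : ℝ) - a * tau k i| ≤ C / a := by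
    intro i hi
    have h1 := hb i hi
    have h2 : (cc k y i : ℝ) - a * tau k i = a * ((cc k y i : ℝ) / a - tau k i) := by
      field_simp
    rw [h2, abs_mul, abs_of_pos hA0]
    calc (a : ℝ) * |(cc k y i : ℝ) / a - tau k i| ≤ a * (C * (1 / (a : ℝ)) ^ 2) :=
          mul_le_mul_of_nonneg_left h1 hA0.le
      _ = C / a := by
          field_simp
  have hccs : ∀ i ∈ range (2 * k), |(ccs k y i : ℝ) - a * (-Real.cos (i * Real.pi / k))| ≤
      C / a := by
    intro i hi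
    rw [mem_range] at hi
    unfold ccs
    by_cases hik : i ≤ k
    · rw [if_pos hik]
      exact hcc i hik
    · rw [if_neg hik]
      have h3 := hcc (2 * k - i) (by omega)
      unfold tau at h3
      rwa [XiClose_cos (by omega) (by omega)] at h3
  have hsum : xi (2 * k) (ccs k y) j - (a : ℂ) *
      (if j = 1 ∨ j = 2 * k - 1 then -(k : ℂ) else 0) =
      ∑ i ∈ range (2 * k), (((ccs k y i : ℝ) - a * (-Real.cos (i * Real.pi / k)) : ℝ) : ℂ) *
        Complex.exp (2 * Real.pi * Complex.I * (i * j : ℕ) / (2 * k : ℕ)) := by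
    rw [← tau_fourier hk hj hj2, Finset.mul_sum]
    unfold xi
    rw [← Finset.sum_sub_distrib]
    refine Finset.sum_congr rfl fun i _ => ?_
    push_cast
    ring
  rw [hsum]
  refine (norm_sum_le _ _).trans ?_
  calc ∑ i ∈ range (2 * k), ‖(((ccs k y i : ℝ) - a * (-Real.cos (i * Real.pi / k)) : ℝ) : ℂ) *
        Complex.exp (2 * Real.pi * Complex.I * (i * j : ℕ) / (2 * k : ℕ))‖
      ≤ ∑ _i ∈ range (2 * k), C / a := by
        refine Finset.sum_le_sum fun i hi => ?_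
        rw [norm_mul, XiClose_norm, mul_one, Complex.norm_real, Real.norm_eq_abs]
        exact hccs i hi
    _ = 2 * k * C / a := by
        rw [Finset.sum_const, card_range, nsmul_eq_mul]
        push_cast
        ring

end Pool.Agent.MP658x
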